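import Pool.Agent.Lib.Pb736.Defs

/-!
# Module AutC: labelled copies = copies times automorphisms

PROOF.  `labelledCopyCount G H = Fintype.card (Copy H G)`.  The map `Copy.toSubgraph` from copies to the subgraphs
isomorphic to `H` is surjective (`Copy.range_toSubgraph`, `copyCount_eq_card_image_copyToSubgraph`), and the fibre over a
subgraph `G'` is in bijection with `H ≃g G'.coe` (`Copy.isoToSubgraph`; an isomorphism `e : H ≃g G'.coe` gives the copy
`G'.coeCopy.comp e.toCopy`), which is in bijection with `H ≃g H` (compose with a fixed isomorphism).  Count with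
`Finset.card_eq_sum_card_image` / `Finset.card_eq_of_equiv` / `Finset.sum_const`.
-/

set_option autoImplicit false

namespace Pb736

open SimpleGraph Finset

namespace AutCAux

theorem finite_iso {V W : Type} [Finite V] [Finite W] (G : SimpleGraph V) (H : SimpleGraph W) :
    Finite (H ≃g G) := by
  classical
  exact Finite.of_injective (fun e : H ≃g G => e.toEquiv) RelIso.toEquiv_injective

/-- a copy from a subgraph and an isomorphism -/
def cop {V W : Type} {G : SimpleGraph V} {H : SimpleGraph W} (G' : G.Subgraph) (e : H ≃g G'.coe) :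
    Copy H G := G'.coeCopy.comp e.toCopy

theorem cop_apply {V W : Type} {G : SimpleGraph V} {H : SimpleGraph W} (G' : G.Subgraph)
    (e : H ≃g G'.coe) (w : W) : cop G' e w = (e w : V) := rfl

theorem sub_cop {V W : Type} {G : SimpleGraph V} {H : SimpleGraph W} (G' : G.Subgraph)
    (e : H ≃g G'.coe) : (cop G' e).toSubgraph = G' := by
  have h : (cop G' e).toSubgraph = Subgraph.map (G'.hom.comp e.toHom) ⊤ := rfl
  rw [h]
  simp [Subgraph.map_comp]

end AutCAux

open AutCAux

theorem labelled_eq {V W : Type} [Fintype V] [Fintype W] (G : SimpleGraph V) (H : SimpleGraph W) :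
    G.labelledCopyCount H = G.copyCount H * Nat.card (H ≃g H) := by
  classical
  haveI hfin : ∀ G' : {G' : G.Subgraph // Nonempty (H ≃g G'.coe)}, Finite (H ≃g G'.1.coe) :=
    fun G' => finite_iso _ _
  have hbij : Function.Bijective (fun x : (Σ G' : {G' : G.Subgraph // Nonempty (H ≃g G'.coe)},
      (H ≃g G'.1.coe)) => cop x.1.1 x.2) := by
    constructor
    · rintro ⟨⟨G₁, h₁⟩, e₁⟩ ⟨⟨G₂, h₂⟩, e₂⟩ h
      simp only at h
      have h3 : G₁ = G₂ := by
        rw [← sub_cop G₁ e₁, ← sub_cop G₂ e₂, h]
      subst h3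
      have h4 : e₁ = e₂ := by
        ext w
        have h5 := congrArg (fun f : Copy H G => f w) h
        simpa only [cop_apply] using h5
      subst h4
      rfl
    · intro f
      refine ⟨⟨⟨f.toSubgraph, ⟨f.isoToSubgraph⟩⟩, f.isoToSubgraph⟩, ?_⟩
      ext w
      rfl
  have h1 : G.labelledCopyCount H = Nat.card (Copy H G) := by
    unfold labelledCopyCount
    rw [Nat.card_eq_fintype_card]
  rw [h1, ← Nat.card_eq_of_bijective _ hbij, Nat.card_sigma]
  have h2 : ∀ G' : {G' : G.Subgraph // Nonempty (H ≃g G'.coe)},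
      Nat.card (H ≃g G'.1.coe) = Nat.card (H ≃g H) := by
    rintro ⟨G', ⟨e⟩⟩
    exact Nat.card_congr
      ⟨fun a => a.trans e.symm, fun a => a.trans e, fun a => by ext w; simp, fun a => by ext w; simp⟩
  simp_rw [h2]
  rw [Finset.sum_const, smul_eq_mul, Finset.card_univ]
  congr 1
  unfold copyCount
  rw [Fintype.card_subtype]

theorem card_aut_pos {W : Type} [Fintype W] (H : SimpleGraph W) : 0 < Nat.card (H ≃g H) := by
  haveI := finite_iso H H
  exact Nat.card_pos_iff.2 ⟨⟨RelIso.refl _⟩, inferInstance⟩

end Pb736
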