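import Pool.Agent.Lib.Pb736.CN

/-!
# Module Upper: the number of labelled copies of a generated graph

PROOF.  For `S : Finset W` let `res S φ : W → Option V := fun w => if w ∈ S then some (φ w) else none` for a copy
`φ : Copy H G`, and `R S = univ.image (res S)` (a `Finset (W → Option V)`, classical).
(a) `#(R univ) = labelledCopyCount` (`res univ` is injective).
(b) `#(R K) ≤ u! * cliqueCount G u` for a `u`-clique `K` of `H`: map `g ∈ R K` to the set `T` of its values, an element of
`cliqueFinset G u`; the fibre over `T` injects into the embeddings `K ↪ T`, `Fintype.card (K ↪ T) = descFactorial u u = u!`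
(`Fintype.card_embedding_eq`, `Nat.descFactorial_self`); `Finset.card_le_mul_card_image_of_maps_to`.
(c) If `v ∉ S`, `Q ⊆ S` is a `u`-clique of `H` and `v` is adjacent to all `w ∈ Q` then `#(R (insert v S)) ≤ Δ * #(R S)`:
map `g` to `fun w => if w ∈ S then g w else none`, an element of `R S`; the fibre over `g0` injects (by `g ↦ g v`) into
the set of common neighbours of the image of `Q`, which is a `u`-clique of `G` determined by `g0` (`free_split_iff`).
(d) If `K ⊆ S ≠ univ` then such `v`, `Q` exist: otherwise `Reach u H K w → w ∈ S` by induction, so `S = univ`.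
(e) Strong induction on `card W - #S`: `#(R univ) ≤ Δ ^ (card W - #S) * #(R S)` for `K ⊆ S`.
-/

set_option autoImplicit false

namespace Pb736

open SimpleGraph Finset

namespace UpperAux

open Classical in
/-- the restriction of a copy to `S` -/
noncomputable def res {V W : Type} {G : SimpleGraph V} {H : SimpleGraph W} (S : Finset W)
    (φ : Copy H G) : W → Option V := fun w => if w ∈ S then some (φ w) else none

open Classical in
/-- the restrictions of the copies to `S` -/
noncomputable def R {V W : Type} [Fintype V] [Fintype W] (G : SimpleGraph V) (H : SimpleGraph W)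
    (S : Finset W) : Finset (W → Option V) := univ.image (res (G := G) (H := H) S)

theorem mem_R {V W : Type} [Fintype V] [Fintype W] {G : SimpleGraph V} {H : SimpleGraph W}
    {S : Finset W} {g : W → Option V} : g ∈ R G H S ↔ ∃ φ : Copy H G, res S φ = g := by
  unfold R
  simp

theorem res_mem {V W : Type} {G : SimpleGraph V} {H : SimpleGraph W} {S : Finset W}
    (φ : Copy H G) {w : W} (hw : w ∈ S) : res S φ w = some (φ w) := by
  unfold res
  rw [if_pos hw]

theorem res_not_mem {V W : Type} {G : SimpleGraph V} {H : SimpleGraph W} {S : Finset W}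
    (φ : Copy H G) {w : W} (hw : w ∉ S) : res S φ w = none := by
  unfold res
  rw [if_neg hw]

theorem card_R_univ {V W : Type} [Fintype V] [Fintype W] (G : SimpleGraph V) (H : SimpleGraph W) :
    G.labelledCopyCount H = #(R G H univ) := by
  classical
  have h : Function.Injective (res (G := G) (H := H) (univ : Finset W)) := by
    intro φ ψ he
    apply Copy.ext
    intro w
    have h1 := congrFun he w
    rw [res_mem φ (mem_univ w), res_mem ψ (mem_univ w)] at h1
    exact Option.some_injective _ h1
  unfold R labelledCopyCount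
  rw [Finset.card_image_of_injective _ h, Finset.card_univ]

theorem card_R_clique {u : ℕ} {V W : Type} [Fintype V] [Fintype W] (G : SimpleGraph V)
    (H : SimpleGraph W) (K : Finset W) (hK : H.IsNClique u K) :
    #(R G H K) ≤ u.factorial * cliqueCount G u := by
  classical
  have hcc : cliqueCount G u = #(G.cliqueFinset u) := by
    unfold cliqueCount
    refine congrArg Finset.card ?_
    ext T
    exact mem_cliqueFinset_iff.trans mem_cliqueFinset_iff.symm
  rw [hcc]
  have himg : ∀ φ : Copy H G, G.IsNClique u (K.image φ) := by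
    intro φ
    constructor
    · intro a ha b hb hab
      rw [Finset.coe_image] at ha hb
      obtain ⟨a', ha', rfl⟩ := ha
      obtain ⟨b', hb', rfl⟩ := hb
      have hne : a' ≠ b' := fun h => hab (by rw [h])
      exact φ.toHom.map_adj (hK.1 ha' hb' hne)
    · have hi : Function.Injective (φ : W → V) := φ.injective
      rw [Finset.card_image_of_injective _ hi, hK.2]
  refine Finset.card_le_mul_card_image_of_maps_to
    (f := fun g : W → Option V => univ.filter (fun v => ∃ w, g w = some v)) ?_ _ ?_
  · intro g hg
    obtain ⟨φ, rfl⟩ := mem_R.1 hg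
    have h1 : (univ.filter (fun v => ∃ w, res K φ w = some v)) = K.image φ := by
      ext v
      simp only [mem_filter, mem_univ, true_and, mem_image]
      constructor
      · rintro ⟨w, hw⟩
        by_cases hwK : w ∈ K
        · rw [res_mem φ hwK] at hw
          exact ⟨w, hwK, Option.some_injective _ hw⟩
        · rw [res_not_mem φ hwK] at hw
          exact absurd hw (by simp)
      · rintro ⟨w, hwK, rfl⟩
        exact ⟨w, res_mem φ hwK⟩
    show (univ.filter (fun v => ∃ w, res K φ w = some v)) ∈ G.cliqueFinset u
    rw [h1, mem_cliqueFinset_iff]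
    exact himg φ
  · intro T hT
    rw [mem_cliqueFinset_iff] at hT
    have hcard : Fintype.card (K ↪ T) = u.factorial := by
      rw [Fintype.card_embedding_eq, Fintype.card_coe, Fintype.card_coe, hK.2, hT.2,
        Nat.descFactorial_self]
    rw [← hcard, ← Finset.card_univ]
    refine Finset.card_le_card_of_surjOn
      (fun e : K ↪ T => fun w => if h : w ∈ K then some (e ⟨w, h⟩ : V) else none) ?_
    intro g hg
    rw [Finset.coe_filter] at hg
    obtain ⟨hg1, hg2⟩ := hg
    obtain ⟨φ, rfl⟩ := mem_R.1 hg1
    have hmem : ∀ w ∈ K, φ w ∈ T := by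
      intro w hw
      rw [← hg2]
      simp only [mem_filter, mem_univ, true_and]
      exact ⟨w, res_mem φ hw⟩
    refine ⟨⟨fun w => ⟨φ w.1, hmem w.1 w.2⟩, fun a b hab => ?_⟩, by simp, ?_⟩
    · have h1 : φ a.1 = φ b.1 := congrArg Subtype.val hab
      exact Subtype.ext (φ.injective h1)
    · funext w
      by_cases hw : w ∈ K
      · simp only [hw, dif_pos]
        rw [res_mem φ hw]
        rfl
      · simp only [hw, dif_neg, not_false_eq_true]
        rw [res_not_mem φ hw]

theorem card_R_step {u Δ ω : ℕ} {V W : Type} [Fintype V] [Fintype W] {G : SimpleGraph V}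
    {H : SimpleGraph W} (hG : Adm u Δ ω G) {S S' Q : Finset W} {v : W} (hv : v ∉ S)
    (hS' : ∀ w, w ∈ S' ↔ w = v ∨ w ∈ S) (hQ : H.IsNClique u Q) (hQS : Q ⊆ S)
    (hvQ : ∀ w ∈ Q, H.Adj v w) : #(R G H S') ≤ Δ * #(R G H S) := by
  classical
  refine Finset.card_le_mul_card_image_of_maps_to
    (f := fun g : W → Option V => fun w => if w ∈ S then g w else none) ?_ _ ?_
  · intro g hg
    obtain ⟨φ, rfl⟩ := mem_R.1 hg
    refine mem_R.2 ⟨φ, ?_⟩
    funext w
    by_cases hw : w ∈ S
    · rw [res_mem φ hw]
      simp only [hw, if_true]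
      rw [res_mem φ ((hS' w).2 (Or.inr hw))]
    · rw [res_not_mem φ hw]
      simp only [hw, if_false]
  · intro g0 hg0
    obtain ⟨φ0, rfl⟩ := mem_R.1 hg0
    set C : Finset V := univ.filter (fun x => ∀ w ∈ Q.image φ0, G.Adj x w) with hC
    have hT : G.IsNClique u (Q.image φ0) := by
      constructor
      · intro a ha b hb hab
        rw [Finset.coe_image] at ha hb
        obtain ⟨a', ha', rfl⟩ := ha
        obtain ⟨b', hb', rfl⟩ := hb
        have hne : a' ≠ b' := fun h => hab (by rw [h])
        exact φ0.toHom.map_adj (hQ.1 ha' hb' hne)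
      · have hi : Function.Injective (φ0 : W → V) := φ0.injective
        rw [Finset.card_image_of_injective _ hi, hQ.2]
    have hCΔ : #C ≤ Δ := by
      refine (free_split_iff G u Δ).1 hG.1 (Q.image φ0) hT C ?_
      intro x hx
      rw [hC] at hx
      exact (Finset.mem_filter.1 hx).2
    refine le_trans ?_ hCΔ
    refine Finset.card_le_card_of_surjOn (fun x => Function.update (res S φ0) v (some x)) ?_
    intro g hg
    rw [Finset.coe_filter] at hg
    obtain ⟨hg1, hg2⟩ := hg
    obtain ⟨φ, rfl⟩ := mem_R.1 hg1
    have hagree : ∀ w ∈ S, φ w = φ0 w := by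
      intro w hw
      have h1 := congrFun hg2 w
      simp only [hw, if_true] at h1
      rw [res_mem φ ((hS' w).2 (Or.inr hw)), res_mem φ0 hw] at h1
      exact Option.some_injective _ h1
    refine ⟨φ v, ?_, ?_⟩
    · rw [hC, Finset.coe_filter]
      refine ⟨mem_univ _, ?_⟩
      intro x hx
      obtain ⟨w, hw, rfl⟩ := Finset.mem_image.1 hx
      rw [← hagree w (hQS hw)]
      exact φ.toHom.map_adj (hvQ w hw)
    · funext w
      simp only
      by_cases hwv : w = v
      · subst hwv
        rw [Function.update_self, res_mem φ ((hS' w).2 (Or.inl rfl))]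
      · rw [Function.update_of_ne hwv]
        by_cases hw : w ∈ S
        · rw [res_mem φ0 hw, res_mem φ ((hS' w).2 (Or.inr hw)), hagree w hw]
        · rw [res_not_mem φ0 hw, res_not_mem φ (fun h => by
            rcases (hS' w).1 h with h1 | h1
            · exact hwv h1
            · exact hw h1)]

theorem exists_step {u : ℕ} {W : Type} [Fintype W] {H : SimpleGraph W} {K : Finset W}
    (hR : ∀ v, Reach u H K v) {S : Finset W} (hKS : K ⊆ S) (hS : S ≠ univ) :
    ∃ (v : W) (Q : Finset W), v ∉ S ∧ H.IsNClique u Q ∧ Q ⊆ S ∧ ∀ w ∈ Q, H.Adj v w := by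
  by_contra hcon
  push Not at hcon
  apply hS
  ext w
  simp only [mem_univ, iff_true]
  induction hR w with
  | base v h => exact hKS h
  | step Q v hQ _ hv ih =>
    by_contra hvS
    obtain ⟨w, hw, hnw⟩ := hcon v Q hvS hQ (fun w hw => ih w hw)
    exact hnw (hv w hw)

theorem iter {u Δ ω : ℕ} {V W : Type} [Fintype V] [Fintype W] {G : SimpleGraph V}
    {H : SimpleGraph W} (hG : Adm u Δ ω G) {K : Finset W} (hR : ∀ v, Reach u H K v) (m : ℕ) :
    ∀ S : Finset W, K ⊆ S → Fintype.card W - #S = m →
      #(R G H univ) ≤ Δ ^ m * #(R G H S) := by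
  classical
  induction m with
  | zero =>
    intro S _ hm
    have h1 : S = univ := by
      apply Finset.eq_univ_of_card
      have := Finset.card_le_univ S
      omega
    rw [h1, pow_zero, one_mul]
  | succ m ih =>
    intro S hKS hm
    have hS : S ≠ univ := by
      intro h
      rw [h, Finset.card_univ] at hm
      omega
    obtain ⟨v, Q, hv, hQ, hQS, hvQ⟩ := exists_step hR hKS hS
    have h1 := ih (insert v S) (hKS.trans (Finset.subset_insert v S)) (by
      rw [Finset.card_insert_of_notMem hv]
      omega)
    have h2 := card_R_step hG (S' := insert v S) hv (fun w => Finset.mem_insert) hQ hQS hvQ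
    calc #(R G H univ) ≤ Δ ^ m * #(R G H (insert v S)) := h1
      _ ≤ Δ ^ m * (Δ * #(R G H S)) := Nat.mul_le_mul_left _ h2
      _ = Δ ^ (m + 1) * #(R G H S) := by ring

end UpperAux

open UpperAux

theorem labelled_le {u Δ ω : ℕ} {V W : Type} [Fintype V] [Fintype W] {G : SimpleGraph V} {H : SimpleGraph W}
    (hG : Adm u Δ ω G) (hH : Generated u H) :
    G.labelledCopyCount H ≤ u.factorial * cliqueCount G u * Δ ^ (Fintype.card W - u) := by
  obtain ⟨K, hK, hR⟩ := hH
  rw [card_R_univ]
  have h1 := iter hG hR _ K (subset_refl K) rfl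
  rw [hK.2] at h1
  calc #(R G H univ) ≤ Δ ^ (Fintype.card W - u) * #(R G H K) := h1
    _ ≤ Δ ^ (Fintype.card W - u) * (u.factorial * cliqueCount G u) :=
        Nat.mul_le_mul_left _ (card_R_clique G H K hK)
    _ = u.factorial * cliqueCount G u * Δ ^ (Fintype.card W - u) := by ring

end Pb736
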