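import Pool.Agent.Lib.Pb736.SumG
import Pool.Agent.Lib.Pb736.Upper
import Pool.Agent.Lib.Pb736.AutC

/-!
# Module RealB: realizable numbers of copies and `exU`

PROOF.  `real_add`: `dsum` with SumG.  `real_zero`: induction on `p`: the graph on `Empty` has no `u`-clique (`u ≥ 1`) and is
admissible; the complete graph on `Fin u` is admissible (`free_split_iff`: no common neighbours at all, a vertex is not
adjacent to itself; it has no clique with `ω + 1 > u` vertices) and has exactly one `u`-clique (`univ`); `real_add`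
(with `0` copies only the first two parts are needed).  `real_le_exU`: transport the graph along `Fintype.equivFin V` (`G.map`
or `G.comap` of the equivalence; `copyCount`, `cliqueCount` and `Adm` are invariant under isomorphisms:
`SimpleGraph.free_congr`, `CliqueFree.comap`, ...), `le_iSup_of_le`.  `exU_real`: for `N ≥ 1`, `(N - 1 : ℕ∞) < exU`, so
`lt_iSup_iff` three times gives a graph with `N - 1 < copyCount`.  `exU_le`: `iSup_le`.  `exU_bound`: `exU_le`,
`labelled_le`, `copyCount_le_labelledCopyCount`.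
-/

set_option autoImplicit false

namespace Pb736

open SimpleGraph Finset

variable {u Δ ω : ℕ} {W : Type} [Fintype W] {H : SimpleGraph W}

namespace RealBAux

theorem adm_iso {u Δ ω : ℕ} {V V' : Type} {G : SimpleGraph V} {G' : SimpleGraph V'} (φ : G ≃g G')
    (h : Adm u Δ ω G) : Adm u Δ ω G' := by
  refine ⟨(free_congr_right φ).mp h.1, ?_⟩
  exact CliqueFree.comap φ.isContained' h.2

theorem isNClique_iso {V V' : Type} {G : SimpleGraph V} {G' : SimpleGraph V'} (φ : G ≃g G')
    {n : ℕ} {T : Finset V} (h : G.IsNClique n T) : G'.IsNClique n (T.map φ.toEquiv.toEmbedding) := by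
  rw [isNClique_iff] at h ⊢
  refine ⟨?_, by rw [Finset.card_map]; exact h.2⟩
  intro a ha b hb hab
  simp only [Finset.coe_map, Set.mem_image] at ha hb
  obtain ⟨x, hx, rfl⟩ := ha
  obtain ⟨y, hy, rfl⟩ := hb
  have hxy : x ≠ y := fun e => hab (by rw [e])
  exact φ.map_rel_iff.2 (h.1 hx hy hxy)

theorem cliqueCount_le_iso {V V' : Type} [Fintype V] [Fintype V'] {G : SimpleGraph V}
    {G' : SimpleGraph V'} (φ : G ≃g G') (n : ℕ) : cliqueCount G n ≤ cliqueCount G' n := by
  classical
  unfold cliqueCount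
  refine Finset.card_le_card_of_injOn (fun T => T.map φ.toEquiv.toEmbedding) ?_ ?_
  · intro T hT
    have hT' : G.IsNClique n T := by
      simpa using hT
    have := isNClique_iso φ hT'
    simpa using this
  · intro T _ T' _ h
    exact Finset.map_injective _ h

theorem cliqueCount_iso {V V' : Type} [Fintype V] [Fintype V'] {G : SimpleGraph V}
    {G' : SimpleGraph V'} (φ : G ≃g G') (n : ℕ) : cliqueCount G n = cliqueCount G' n :=
  le_antisymm (cliqueCount_le_iso φ n) (cliqueCount_le_iso φ.symm n)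

theorem copyCount_le_iso {V V' W : Type} [Fintype V] [Fintype V'] {G : SimpleGraph V}
    {G' : SimpleGraph V'} (φ : G ≃g G') (H : SimpleGraph W) : G.copyCount H ≤ G'.copyCount H := by
  classical
  unfold copyCount
  refine Finset.card_le_card_of_injOn (fun S => S.map φ.toCopy.toHom) ?_ ?_
  · intro S hS
    have hS' : Nonempty (H ≃g S.coe) := by simpa using hS
    obtain ⟨e⟩ := hS'
    have : Nonempty (H ≃g (S.map φ.toCopy.toHom).coe) := ⟨(φ.toCopy.isoSubgraphMap S).comp e⟩
    simpa using this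
  · intro S _ S' _ h
    have h2 : (S.map φ.toCopy.toHom).map φ.symm.toCopy.toHom =
        (S'.map φ.toCopy.toHom).map φ.symm.toCopy.toHom := by
      have h3 : S.map φ.toCopy.toHom = S'.map φ.toCopy.toHom := h
      rw [h3]
    have h4 : φ.symm.toCopy.toHom.comp φ.toCopy.toHom = Hom.id := by
      ext x
      exact φ.symm_apply_apply x
    rw [← Subgraph.map_comp, ← Subgraph.map_comp, h4, Subgraph.map_id, Subgraph.map_id] at h2
    exact h2

theorem adm_of_contained {u Δ ω : ℕ} {V V' : Type} {G : SimpleGraph V} {G' : SimpleGraph V'}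
    (φ : G' ⊑ G) (h : Adm u Δ ω G) : Adm u Δ ω G' :=
  ⟨fun hc => h.1 (hc.trans φ), by
    obtain ⟨f⟩ := φ
    intro T hT
    rw [isNClique_iff] at hT
    refine h.2 (T.map f.toEmbedding) ?_
    rw [isNClique_iff]
    refine ⟨?_, by rw [Finset.card_map]; exact hT.2⟩
    intro a ha b hb hab
    simp only [Finset.coe_map, Set.mem_image] at ha hb
    obtain ⟨x, hx, rfl⟩ := ha
    obtain ⟨y, hy, rfl⟩ := hb
    have hxy : x ≠ y := fun e => hab (by rw [e])
    exact f.toHom.map_adj (hT.1 hx hy hxy)⟩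

theorem adm_of_card {u Δ ω : ℕ} {V : Type} [Fintype V] (G : SimpleGraph V)
    (h1 : Fintype.card V ≤ u) (h2 : u ≤ ω) : Adm u Δ ω G := by
  refine ⟨?_, ?_⟩
  · rintro ⟨f⟩
    have := Fintype.card_le_of_embedding f.toEmbedding
    simp only [Fintype.card_sum, Fintype.card_fin] at this
    omega
  · exact cliqueFree_of_card_lt (by omega)

theorem cliqueCount_eq_one {V : Type} [Fintype V] (G : SimpleGraph V) {u : ℕ} (T₀ : Finset V)
    (h : ∀ T : Finset V, G.IsNClique u T ↔ T = T₀) : cliqueCount G u = 1 := by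
  classical
  unfold cliqueCount
  rw [Finset.card_eq_one]
  refine ⟨T₀, ?_⟩
  ext T
  rw [mem_cliqueFinset_iff, Finset.mem_singleton]
  exact h T

theorem cliqueCount_eq_zero {V : Type} [Fintype V] (G : SimpleGraph V) {u : ℕ}
    (h : ∀ T : Finset V, ¬ G.IsNClique u T) : cliqueCount G u = 0 := by
  classical
  unfold cliqueCount
  rw [Finset.card_eq_zero, Finset.eq_empty_iff_forall_notMem]
  intro T hT
  rw [mem_cliqueFinset_iff] at hT
  exact h T hT

theorem cliqueCount_top_card {V : Type} [Fintype V] {u : ℕ} (hV : Fintype.card V = u) :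
    cliqueCount (⊤ : SimpleGraph V) u = 1 := by
  refine cliqueCount_eq_one _ Finset.univ fun T => ?_
  rw [isNClique_iff]
  constructor
  · rintro ⟨_, h⟩
    exact Finset.eq_univ_of_card T (by rw [h, hV])
  · rintro rfl
    refine ⟨?_, by simpa using hV⟩
    intro a _ b _ hab
    exact hab

theorem cliqueCount_empty {V : Type} [Fintype V] (hV : Fintype.card V = 0) {u : ℕ} (hu : 1 ≤ u) :
    cliqueCount (⊥ : SimpleGraph V) u = 0 := by
  refine cliqueCount_eq_zero _ fun T hT => ?_
  rw [isNClique_iff] at hT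
  have h1 : #T ≤ Fintype.card V := Finset.card_le_univ T
  have := hT.2
  omega

end RealBAux

open RealBAux

theorem real_add [Nonempty W] (hu : 1 ≤ u) {p q N M : ℕ} (h : Real u Δ ω H p N) (h' : Real u Δ ω H q M) :
    Real u Δ ω H (p + q) (N + M) := by
  obtain ⟨V, iV, G, hG, hc, hN⟩ := h
  obtain ⟨V', iV', G', hG', hc', hN'⟩ := h'
  refine ⟨V ⊕ V', inferInstance, dsum G G', adm_dsum hu hG hG', ?_, ?_⟩
  · rw [cliqueCount_dsum hu, hc, hc']
  · exact (Nat.add_le_add hN hN').trans (copyCount_dsum G G' H)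

theorem real_zero (hu : 1 ≤ u) (hω : u ≤ ω) (p : ℕ) : Real u Δ ω H p 0 := by
  induction p with
  | zero =>
    exact ⟨Empty, inferInstance, ⊥, adm_of_card _ (by simp) hω,
      cliqueCount_empty (by simp) hu, Nat.zero_le _⟩
  | succ p ih =>
    obtain ⟨V, iV, G, hG, hc, _⟩ := ih
    refine ⟨V ⊕ Fin u, inferInstance, dsum G (⊤ : SimpleGraph (Fin u)),
      adm_dsum hu hG (adm_of_card _ (by simp) hω), ?_, Nat.zero_le _⟩
    rw [cliqueCount_dsum hu, hc, cliqueCount_top_card (by simp)]

theorem real_le_exU {p N : ℕ} (h : Real u Δ ω H p N) : (N : ℕ∞) ≤ exU u Δ ω H p := by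
  obtain ⟨V, iV, G, hG, hc, hN⟩ := h
  have φ : G ≃g G.map (Fintype.equivFin V).toEmbedding := SimpleGraph.Iso.map (Fintype.equivFin V) G
  have h1 : (N : ℕ∞) ≤ ((G.map (Fintype.equivFin V).toEmbedding).copyCount H : ℕ∞) := by
    exact_mod_cast hN.trans (copyCount_le_iso φ H)
  unfold exU
  refine le_iSup_of_le (Fintype.card V) (le_iSup_of_le (G.map (Fintype.equivFin V).toEmbedding)
    (le_iSup_of_le ⟨adm_iso φ hG, ?_⟩ h1))
  rw [← cliqueCount_iso φ, hc]

theorem exU_real {p N : ℕ} (hN : 1 ≤ N) (h : (N : ℕ∞) ≤ exU u Δ ω H p) : Real u Δ ω H p N := by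
  have h1 : ((N - 1 : ℕ) : ℕ∞) < exU u Δ ω H p := by
    refine lt_of_lt_of_le ?_ h
    exact_mod_cast Nat.sub_lt hN one_pos
  unfold exU at h1
  rw [lt_iSup_iff] at h1
  obtain ⟨n, h1⟩ := h1
  rw [lt_iSup_iff] at h1
  obtain ⟨G, h1⟩ := h1
  rw [lt_iSup_iff] at h1
  obtain ⟨hG, h1⟩ := h1
  have h2 : N - 1 < G.copyCount H := by exact_mod_cast h1
  exact ⟨Fin n, inferInstance, G, hG.1, hG.2, by omega⟩

theorem exU_le {p M : ℕ} (h : ∀ N, Real u Δ ω H p N → N ≤ M) : exU u Δ ω H p ≤ (M : ℕ∞) := by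
  unfold exU
  refine iSup_le fun n => iSup_le fun G => iSup_le fun hG => ?_
  exact_mod_cast h _ ⟨Fin n, inferInstance, G, hG.1, hG.2, le_rfl⟩

theorem exU_bound (hH : Generated u H) (p : ℕ) :
    exU u Δ ω H p ≤ ((u.factorial * p * Δ ^ (Fintype.card W - u) : ℕ) : ℕ∞) := by
  refine exU_le ?_
  rintro N ⟨V, iV, G, hG, hc, hN⟩
  have h1 := labelled_le (W := W) hG hH
  rw [hc] at h1
  exact hN.trans (copyCount_le_labelledCopyCount.trans h1)

/-- a graph which is not admissible has no copies in admissible graphs -/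
theorem exU_eq_zero (hH : ¬ Adm u Δ ω H) (p : ℕ) : exU u Δ ω H p = 0 := by
  have h1 : exU u Δ ω H p ≤ ((0 : ℕ) : ℕ∞) := by
    refine exU_le ?_
    rintro N ⟨V, iV, G, hG, hc, hN⟩
    have h2 : G.copyCount H = 0 := by
      rw [copyCount_eq_zero]
      intro hc2
      exact hH (adm_of_contained hc2 hG)
    omega
  simpa using h1

end Pb736
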