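import Pool.Agent.Lib.Pb736.Blow
import Pool.Agent.Lib.Pb736.AutC

/-!
# Module Turan: copies of a `(u+1)`-colourable graph in complete `(u+1)`-partite graphs

PROOF.  Let `G = blow (⊤ : SimpleGraph (Fin (u + 1))) s`.  The complete graph on `Fin (u + 1)` is in `Adm u 1 ω`: a `u`-clique has at
most one common neighbour (`free_split_iff`: `C` is disjoint from `T`, `#C + #T ≤ u + 1`), and no clique with `ω + 1 > u + 1`
vertices; so `Adm u s ω G` (`adm_blow`, `s * 1 = s`).  `k = cliqueCount G u ≤ s ^ u * cliqueCount ⊤ u` and `cliqueCount ⊤ u ≤ u +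
1` (subsets of size `u` of `Fin (u + 1)`: `Nat.choose (u+1) u`).  `k ≥ 1`: a transversal of `u` parts with the positions
`0 : Fin s`.  Copies: let `col` be a proper colouring of `H` with `Fin (u + 1)`.  For a permutation `σ` of `Fin (u + 1)` and an
injection `e : W ↪ Fin s` the map `w ↦ (σ (col w), e w)` is a copy of `H` in `G`, and `(σ, e) ↦` this copy is injective: `e` is
the second coordinate; `col` takes at least `u` values (it is injective on a `u`-clique), and two permutations of `Fin (u +
1)` which agree at `u` points are equal.  So `labelledCopyCount G H ≥ (u + 1)! * s.descFactorial (card W)`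
(`Fintype.card_perm`, `Fintype.card_embedding_eq`).  `N = copyCount G H`, `labelled_eq`.
-/

set_option autoImplicit false

namespace Pb736

open SimpleGraph Finset

namespace TuranAux

theorem perm_eq {u : ℕ} {σ σ' : Equiv.Perm (Fin (u + 1))} {S : Finset (Fin (u + 1))}
    (hS : #S = u) (h : ∀ x ∈ S, σ x = σ' x) : σ = σ' := by
  classical
  apply Equiv.ext
  intro x
  by_cases hx : x ∈ S
  · exact h x hx
  · by_contra hne
    obtain ⟨z, hz⟩ := σ.surjective (σ' x)
    have hzx : z ≠ x := by
      rintro rfl
      exact hne hz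
    have hzS : z ∉ S := by
      intro hzS
      have h1 : σ' z = σ' x := by rw [← h z hzS, hz]
      exact hzx (σ'.injective h1)
    have h2 : #(insert z (insert x S)) = u + 2 := by
      rw [card_insert_of_notMem, card_insert_of_notMem hx, hS]
      rw [mem_insert, not_or]
      exact ⟨hzx, hzS⟩
    have h3 := card_le_univ (insert z (insert x S))
    rw [h2, Fintype.card_fin] at h3
    omega

/-- the copy of `H` given by a permutation of the colours and an injection -/
def cop {u s : ℕ} {W : Type} {H : SimpleGraph W} (col : H.Coloring (Fin (u + 1)))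
    (σ : Equiv.Perm (Fin (u + 1))) (e : W ↪ Fin s) :
    Copy H (blow (⊤ : SimpleGraph (Fin (u + 1))) s) where
  toHom := ⟨fun w => (σ (col w), e w), by
    intro a b hab
    show (⊤ : SimpleGraph (Fin (u + 1))).Adj (σ (col a)) (σ (col b))
    rw [top_adj]
    exact fun h => col.valid hab (σ.injective h)⟩
  injective' := by
    intro a b hab
    exact e.injective (congrArg Prod.snd hab)

theorem cop_apply {u s : ℕ} {W : Type} {H : SimpleGraph W} (col : H.Coloring (Fin (u + 1)))
    (σ : Equiv.Perm (Fin (u + 1))) (e : W ↪ Fin s) (w : W) : cop col σ e w = (σ (col w), e w) := rfl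

theorem finite_copy {V W : Type} [Finite V] [Finite W] (G : SimpleGraph V) (H : SimpleGraph W) :
    Finite (Copy H G) := by
  refine Finite.of_injective (fun f : Copy H G => (f : W → V)) ?_
  intro f g h
  ext w
  exact congrFun h w

theorem label_card {V W : Type} [Fintype V] [Fintype W] (G : SimpleGraph V) (H : SimpleGraph W) :
    G.labelledCopyCount H = Nat.card (Copy H G) := by
  classical
  unfold labelledCopyCount
  rw [Nat.card_eq_fintype_card]

theorem labelled_ge {u s : ℕ} {W : Type} [Fintype W] {H : SimpleGraph W} (hc : ¬ H.CliqueFree u)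
    (col : H.Coloring (Fin (u + 1))) :
    (u + 1).factorial * s.descFactorial (Fintype.card W) ≤
      (blow (⊤ : SimpleGraph (Fin (u + 1))) s).labelledCopyCount H := by
  have h1 : Nat.card (Equiv.Perm (Fin (u + 1)) × (W ↪ Fin s)) =
      (u + 1).factorial * s.descFactorial (Fintype.card W) := by
    classical
    rw [Nat.card_eq_fintype_card, Fintype.card_prod, Fintype.card_perm, Fintype.card_embedding_eq,
      Fintype.card_fin, Fintype.card_fin]
  rw [← h1, label_card]
  haveI := finite_copy (blow (⊤ : SimpleGraph (Fin (u + 1))) s) H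
  refine Nat.card_le_card_of_injective (fun x => cop col x.1 x.2) ?_
  rintro ⟨σ, e⟩ ⟨σ', e'⟩ h
  have h2 : ∀ w, (σ (col w), e w) = (σ' (col w), e' w) := by
    intro w
    have h3 := congrArg (fun f : Copy H (blow (⊤ : SimpleGraph (Fin (u + 1))) s) => f w) h
    simpa only [cop_apply] using h3
  obtain ⟨T, hT⟩ : ∃ T, H.IsNClique u T := by
    unfold CliqueFree at hc
    push Not at hc
    exact hc
  classical
  have h3 : #(T.image col) = u := by
    rw [card_image_of_injOn, hT.card_eq]
    intro a ha b hb hab
    by_contra hne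
    exact col.valid (hT.isClique ha hb hne) hab
  have h4 : σ = σ' := by
    refine perm_eq h3 ?_
    intro x hx
    obtain ⟨w, -, rfl⟩ := mem_image.1 hx
    exact congrArg Prod.fst (h2 w)
  have h5 : e = e' := by
    ext w
    exact congrArg (fun p : Fin (u + 1) × Fin s => (p.2 : ℕ)) (h2 w)
  rw [h4, h5]

theorem adm_top {u ω : ℕ} (hω : u + 1 ≤ ω) : Adm u 1 ω (⊤ : SimpleGraph (Fin (u + 1))) := by
  classical
  constructor
  · rw [free_split_iff]
    intro T hT C hC
    have hd : Disjoint C T := by
      rw [Finset.disjoint_left]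
      intro x hxC hxT
      exact (hC x hxC x hxT).ne rfl
    have h1 := card_le_univ (C ∪ T)
    rw [card_union_of_disjoint hd, hT.card_eq, Fintype.card_fin] at h1
    omega
  · refine cliqueFree_of_card_lt ?_
    rw [Fintype.card_fin]
    omega

theorem count_le {V : Type} [Fintype V] (G : SimpleGraph V) (u : ℕ) :
    cliqueCount G u ≤ (Fintype.card V).choose u := by
  classical
  unfold cliqueCount
  rw [← card_univ, ← card_powersetCard]
  refine card_le_card ?_
  intro T hT
  rw [mem_cliqueFinset_iff] at hT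
  rw [mem_powersetCard]
  exact ⟨subset_univ _, hT.card_eq⟩

theorem count_ge {V : Type} [Fintype V] (G : SimpleGraph V) (u : ℕ) {T : Finset V}
    (hT : G.IsNClique u T) : 1 ≤ cliqueCount G u := by
  classical
  unfold cliqueCount
  rw [Nat.one_le_iff_ne_zero, card_ne_zero]
  refine ⟨T, ?_⟩
  rw [mem_cliqueFinset_iff]
  exact hT

theorem count_top {u : ℕ} : cliqueCount (⊤ : SimpleGraph (Fin (u + 1))) u ≤ u + 1 := by
  have h := count_le (⊤ : SimpleGraph (Fin (u + 1))) u
  rwa [Fintype.card_fin, Nat.choose_succ_self_right] at h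

theorem count_pos {u s : ℕ} (hs : 1 ≤ s) :
    1 ≤ cliqueCount (blow (⊤ : SimpleGraph (Fin (u + 1))) s) u := by
  have hinj : Function.Injective (fun i : Fin u => (i.castSucc, (⟨0, hs⟩ : Fin s))) := by
    intro i j hij
    exact Fin.castSucc_injective u (congrArg Prod.fst hij)
  refine count_ge _ u (T := univ.map ⟨_, hinj⟩) ⟨?_, ?_⟩
  · intro a ha b hb hab
    rw [coe_map, coe_univ, Set.image_univ, Set.mem_range] at ha hb
    obtain ⟨i, rfl⟩ := ha
    obtain ⟨j, rfl⟩ := hb
    show (⊤ : SimpleGraph (Fin (u + 1))).Adj i.castSucc j.castSucc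
    rw [top_adj]
    exact fun h => hab (by
      show (i.castSucc, (⟨0, hs⟩ : Fin s)) = (j.castSucc, (⟨0, hs⟩ : Fin s))
      rw [h])
  · rw [card_map, card_univ, Fintype.card_fin]

end TuranAux

open TuranAux in
theorem turan_lower {u ω : ℕ} {W : Type} [Fintype W] {H : SimpleGraph W} (hc : ¬ H.CliqueFree u)
    (hcol : H.Colorable (u + 1)) (hω : u + 1 ≤ ω) (s : ℕ) (hs : 1 ≤ s) :
    ∃ k N : ℕ, Real u s ω H k N ∧ 1 ≤ k ∧ k ≤ (u + 1) * s ^ u ∧
      (u + 1).factorial * s.descFactorial (Fintype.card W) ≤ N * Nat.card (H ≃g H) := by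
  obtain ⟨col⟩ := hcol
  have hadm := adm_blow (adm_top hω) s
  rw [mul_one] at hadm
  refine ⟨cliqueCount (blow (⊤ : SimpleGraph (Fin (u + 1))) s) u,
    (blow (⊤ : SimpleGraph (Fin (u + 1))) s).copyCount H,
    ⟨Fin (u + 1) × Fin s, inferInstance, blow ⊤ s, hadm, rfl, le_rfl⟩, count_pos hs, ?_, ?_⟩
  · refine (cliqueCount_blow_le _ s u).trans ?_
    rw [mul_comm]
    exact Nat.mul_le_mul_right _ count_top
  · rw [← labelled_eq]
    exact labelled_ge hc col

end Pb736
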