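import Mathlib

/-!
# Module LimPi: a limit along the integers (pure analysis)

PROOF.  Let `b Δ = P Δ / Δ ^ d`, `π = ⨆ Δ ≥ 1, b Δ` (`sSup` of a bounded nonempty set, `b Δ ≤ B`).  For `ε > 0` choose `Δ0 ≥ 1`
with `b Δ0 > π - ε`.  For `x ≥ Δ0` let `s = x / Δ0 ≥ 1` (floor): `s * Δ0 ≤ x < (s + 1) * Δ0`, so `P x ≥ P (s * Δ0) ≥ s ^ d * P Δ0`
and `b x ≥ (s * Δ0 / x) ^ d * b Δ0`, where `s * Δ0 / x ≥ 1 - Δ0 / x → 1`.  So `b x` is eventually `> π - 2 ε`, and `b x ≤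
π` for `x ≥ 1`.
-/

set_option autoImplicit false

namespace Pb736

open Filter Topology

theorem lim_of_blow (P : ℕ → ℝ) (d : ℕ) (B : ℝ) (hB : ∀ x : ℕ, 1 ≤ x → P x ≤ B * (x : ℝ) ^ d)
    (hmono : ∀ a b : ℕ, 1 ≤ a → a ≤ b → P a ≤ P b) (h0 : ∀ x : ℕ, 1 ≤ x → 0 ≤ P x)
    (hs : ∀ s x : ℕ, 1 ≤ s → 1 ≤ x → (s : ℝ) ^ d * P x ≤ P (s * x)) :
    ∃ π : ℝ, Tendsto (fun x : ℕ => P x / (x : ℝ) ^ d) atTop (𝓝 π) ∧
      (∀ x : ℕ, 1 ≤ x → P x / (x : ℝ) ^ d ≤ π) ∧ π ≤ B := by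
  have hxpos : ∀ x : ℕ, 1 ≤ x → (0:ℝ) < (x:ℝ)^d := fun x hx => pow_pos (by exact_mod_cast hx) d
  have hbB : ∀ x : ℕ, 1 ≤ x → P x / (x : ℝ) ^ d ≤ B := fun x hx =>
    (div_le_iff₀ (hxpos x hx)).2 (hB x hx)
  let S : Set ℝ := (fun x : ℕ => P x / (x : ℝ) ^ d) '' {x | 1 ≤ x}
  have hSne : S.Nonempty := ⟨_, 1, (le_refl 1 : 1 ≤ 1), rfl⟩
  have hSbdd : BddAbove S := ⟨B, by rintro _ ⟨x, hx, rfl⟩; exact hbB x hx⟩
  refine ⟨sSup S, ?_, fun x hx => le_csSup hSbdd ⟨x, hx, rfl⟩,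
    csSup_le hSne (by rintro _ ⟨x, hx, rfl⟩; exact hbB x hx)⟩
  refine tendsto_order.2 ⟨fun a ha => ?_, fun a ha => ?_⟩
  · obtain ⟨_, ⟨x0, hx0, rfl⟩, hlt⟩ := exists_lt_of_lt_csSup hSne ha
    have hx0' : 1 ≤ x0 := hx0
    have hx0R : (0:ℝ) < x0 := by exact_mod_cast hx0'
    have hb0 : 0 ≤ P x0 / (x0 : ℝ) ^ d := div_nonneg (h0 x0 hx0') (hxpos x0 hx0').le
    have hT : Tendsto (fun x : ℕ => (1 - (x0:ℝ) / x)^d * (P x0 / (x0 : ℝ) ^ d)) atTop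
        (𝓝 ((1 - 0)^d * (P x0 / (x0 : ℝ) ^ d))) := by
      apply Tendsto.mul_const
      apply Tendsto.pow
      exact tendsto_const_nhds.sub (tendsto_const_div_atTop_nhds_zero_nat (x0:ℝ))
    have hT' : ∀ᶠ x : ℕ in atTop, a < (1 - (x0:ℝ)/x)^d * (P x0 / (x0 : ℝ) ^ d) := by
      apply hT.eventually_const_lt
      simpa using hlt
    filter_upwards [hT', eventually_ge_atTop x0] with x hx hxx0
    refine lt_of_lt_of_le hx ?_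
    have hs1 : 1 ≤ x / x0 := (Nat.one_le_div_iff hx0').2 hxx0
    have hle : x / x0 * x0 ≤ x := Nat.div_mul_le_self x x0
    have hlt' : x < (x / x0 + 1) * x0 := by
      have := Nat.lt_div_mul_add (a := x) (b := x0) hx0'
      rw [add_mul, one_mul]; exact this
    have hx1 : 1 ≤ x := le_trans hx0' hxx0
    have hxR : (0:ℝ) < x := by exact_mod_cast hx1
    have hP : ((x / x0 : ℕ) : ℝ)^d * P x0 ≤ P x :=
      (hs _ x0 hs1 hx0').trans (hmono _ _ (Nat.mul_pos hs1 hx0') hle)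
    have h1 : 1 - (x0:ℝ)/x ≤ (((x / x0 : ℕ) : ℝ) * x0)/x := by
      rw [sub_le_iff_le_add, ← add_div, le_div_iff₀ hxR, one_mul]
      have : (x:ℝ) < (((x / x0 : ℕ) : ℝ)+1)*x0 := by exact_mod_cast hlt'
      linarith
    have h2 : 0 ≤ 1 - (x0:ℝ)/x := by
      rw [sub_nonneg, div_le_one hxR]; exact_mod_cast hxx0
    calc (1 - (x0:ℝ)/x)^d * (P x0 / (x0 : ℝ) ^ d)
        ≤ ((((x / x0 : ℕ) : ℝ) * x0)/x)^d * (P x0 / (x0 : ℝ) ^ d) :=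
          mul_le_mul_of_nonneg_right (pow_le_pow_left₀ h2 h1 d) hb0
      _ = ((x / x0 : ℕ) : ℝ)^d * P x0 / (x:ℝ)^d := by
        have := (hxpos x0 hx0').ne'
        have := (hxpos x hx1).ne'
        rw [div_pow, mul_pow]
        field_simp
      _ ≤ P x / (x:ℝ)^d := div_le_div_of_nonneg_right hP (hxpos x hx1).le
  · filter_upwards [eventually_ge_atTop 1] with x hx
    exact lt_of_le_of_lt (le_csSup hSbdd ⟨x, hx, rfl⟩) ha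

end Pb736
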