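import Pool.Agent.Lib.Pb736.ProdG
import Pool.Agent.Lib.Pb736.RealB

/-!
# Module SupL: superlinear growth

PROOF.  `prod_real` gives `t`.  `u ≤ ω` because `H` has a `u`-clique and no `(ω+1)`-clique; `W` is nonempty (`u ≥ 1`).  If `k ≤ p`
and `Real k N` then `Real p N` (`real_add` with `real_zero (p - k)`), so `(N : ℕ∞) ≤ exU p` (`real_le_exU`).
Case `t = 1`: `k ≤ 1` for every `m` and the number of copies is `m + 1`: so `(N : ℕ∞) ≤ exU p` for all `N` and `p ≥ 1`; take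
`c = δ = 1`.  Case `t ≥ 2`: let `δ = 1 / (t - 1)`; for `p ≥ t` choose `m + 1 = ⌊(p / t) ^ (1 / (t - 1))⌋ ≥ 1`; then `t * (m + 1) ^ (t - 1) ≤ p` and `m + 1 ≥ (p / t) ^ (1 /
(t - 1)) / 2`, so `(m + 1) ^ t ≥ 2 ^ (-t) * (p / t) ^ (t / (t - 1)) ≥ c * p ^ (1 + δ)` with
`c = 2 ^ (-t) * t ^ (-t / (t - 1))`.
-/

set_option autoImplicit false

namespace Pb736

open SimpleGraph Finset Filter

private theorem SupLAux.arith {s : ℕ} (hs : 1 ≤ s) {p : ℕ} (hp : s + 1 ≤ p) :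
    ∃ m : ℕ, (s + 1) * (m + 1) ^ s ≤ p ∧
      ((1 / 2 : ℝ) ^ (s + 1) * (1 / ((s : ℝ) + 1)) ^ (1 + 1 / (s : ℝ))) * (p : ℝ) ^ (1 + 1 / (s : ℝ)) ≤
        (((m + 1) ^ (s + 1) : ℕ) : ℝ) := by
  have hs0 : (0 : ℝ) < (s : ℝ) := by exact_mod_cast hs
  have hs1 : (0 : ℝ) < (s : ℝ) + 1 := by positivity
  have hpR : ((s : ℝ) + 1) ≤ (p : ℝ) := by exact_mod_cast hp
  have hp0 : (0 : ℝ) ≤ (p : ℝ) := by positivity
  set q : ℝ := (p : ℝ) / ((s : ℝ) + 1) with hq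
  have hq1 : 1 ≤ q := by rw [hq, le_div_iff₀ hs1]; linarith
  have hq0 : 0 ≤ q := by linarith
  set X : ℝ := q ^ (1 / (s : ℝ)) with hX
  have hX1 : 1 ≤ X := Real.one_le_rpow hq1 (by positivity)
  have hX0 : 0 ≤ X := by linarith
  have hn : 1 ≤ ⌊X⌋₊ := by
    rw [Nat.one_le_floor_iff]; exact hX1
  obtain ⟨m, hm⟩ : ∃ m, ⌊X⌋₊ = m + 1 := ⟨⌊X⌋₊ - 1, by omega⟩
  have hle : ((m + 1 : ℕ) : ℝ) ≤ X := by
    rw [← hm]; exact Nat.floor_le hX0
  have hlt : X < ((m + 1 : ℕ) : ℝ) + 1 := by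
    rw [← hm]; exact Nat.lt_floor_add_one X
  have hm1 : (1 : ℝ) ≤ ((m + 1 : ℕ) : ℝ) := by
    exact_mod_cast Nat.succ_le_succ (Nat.zero_le m)
  have hhalf : X / 2 ≤ ((m + 1 : ℕ) : ℝ) := by linarith
  have hXs : X ^ s = q := by
    rw [hX, ← Real.rpow_natCast, ← Real.rpow_mul hq0]
    rw [one_div_mul_cancel hs0.ne', Real.rpow_one]
  have hXs1 : X ^ (s + 1) = q ^ (1 + 1 / (s : ℝ)) := by
    rw [pow_succ, hXs, hX, Real.rpow_add (by linarith), Real.rpow_one]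
  refine ⟨m, ?_, ?_⟩
  · have h1 : (((s + 1) * (m + 1) ^ s : ℕ) : ℝ) ≤ (p : ℝ) := by
      push_cast
      have h2 : ((m : ℝ) + 1) ^ s ≤ q := by
        rw [← hXs]
        have : ((m : ℝ) + 1) ≤ X := by exact_mod_cast hle
        gcongr
      calc ((s : ℝ) + 1) * ((m : ℝ) + 1) ^ s ≤ ((s : ℝ) + 1) * q := by gcongr
        _ = (p : ℝ) := by rw [hq]; field_simp
    exact_mod_cast h1
  · have h3 : (X / 2) ^ (s + 1) ≤ (((m + 1) ^ (s + 1) : ℕ) : ℝ) := by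
      push_cast
      have : X / 2 ≤ (m : ℝ) + 1 := by exact_mod_cast hhalf
      have hX2 : 0 ≤ X / 2 := by linarith
      gcongr
    refine le_trans (le_of_eq ?_) h3
    have h4 : q ^ (1 + 1 / (s : ℝ)) =
        (p : ℝ) ^ (1 + 1 / (s : ℝ)) * (1 / ((s : ℝ) + 1)) ^ (1 + 1 / (s : ℝ)) := by
      rw [← Real.mul_rpow hp0 (by positivity), hq, div_eq_mul_one_div]
    have h5 : (X / 2) ^ (s + 1) = X ^ (s + 1) * (1 / 2 : ℝ) ^ (s + 1) := by
      rw [← mul_pow]; congr 1; ring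
    rw [h5, hXs1, h4]
    ring

theorem superlinear {u Δ ω : ℕ} {W : Type} [Fintype W] {H : SimpleGraph W} (hu : 1 ≤ u)
    (hH : Adm u Δ ω H) (hc : ¬ H.CliqueFree u) (hg : ¬ Generated u H) :
    ∃ c δ : ℝ, 0 < c ∧ 0 < δ ∧ ∀ᶠ p : ℕ in atTop, ∀ N : ℕ, (N : ℝ) ≤ c * (p : ℝ) ^ (1 + δ) →
      (N : ℕ∞) ≤ exU u Δ ω H p := by
  obtain ⟨t, ht, hreal⟩ := prod_real hu hH hc hg
  have hω : u ≤ ω := by
    by_contra hlt
    exact hc (hH.2.mono (by omega))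
  have hne : Nonempty W := by
    unfold CliqueFree at hc
    push Not at hc
    obtain ⟨T, hT⟩ := hc
    have h1 : 0 < #T := by rw [hT.card_eq]; omega
    obtain ⟨w, _⟩ := Finset.card_pos.mp h1
    exact ⟨w⟩
  have key : ∀ p N m : ℕ, t * (m + 1) ^ (t - 1) ≤ p → N ≤ (m + 1) ^ t →
      (N : ℕ∞) ≤ exU u Δ ω H p := by
    intro p N m h1 h2
    obtain ⟨k, hk, hr⟩ := hreal m
    have hkp : k ≤ p := hk.trans h1
    have h3 := real_add hu hr (real_zero (H := H) (Δ := Δ) hu hω (p - k))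
    rw [Nat.add_sub_of_le hkp, Nat.add_zero] at h3
    exact le_trans (by exact_mod_cast h2) (real_le_exU h3)
  rcases Nat.lt_or_ge 1 t with h2 | h2
  · obtain ⟨s, rfl⟩ : ∃ s, t = s + 1 := ⟨t - 1, by omega⟩
    have hs : 1 ≤ s := by omega
    have hs0 : (0 : ℝ) < (s : ℝ) := by exact_mod_cast hs
    refine ⟨(1 / 2 : ℝ) ^ (s + 1) * (1 / ((s : ℝ) + 1)) ^ (1 + 1 / (s : ℝ)), 1 / (s : ℝ),
      by positivity, by positivity, ?_⟩
    filter_upwards [eventually_ge_atTop (s + 1)] with p hp N hN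
    obtain ⟨m, hm1, hm2⟩ := SupLAux.arith hs hp
    refine key p N m (by simpa using hm1) ?_
    exact_mod_cast hN.trans hm2
  · have ht1 : t = 1 := by omega
    subst ht1
    refine ⟨1, 1, one_pos, one_pos, ?_⟩
    filter_upwards [eventually_ge_atTop 1] with p hp N _
    exact key p N N (by simpa using hp) (by simp)

end Pb736
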