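import Pool.Agent.Lib.Pb736.Fek
import Pool.Agent.Lib.Pb736.SupL
import Pool.Agent.Lib.Pb736.Turan
import Pool.Agent.Lib.Pb736.LimPi

/-!
# Module Fin: assembly
-/

set_option autoImplicit false

namespace Pb736

open SimpleGraph Finset Filter Topology

namespace FinAux

variable {u Δ ω : ℕ} {W : Type} [Fintype W] {H : SimpleGraph W}

theorem adm_mono {V : Type} {G : SimpleGraph V} {a b : ℕ} (hab : a ≤ b) (h : Adm u a ω G) : Adm u b ω G := by
  refine ⟨?_, h.2⟩
  rw [free_split_iff]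
  have h1 := (free_split_iff G u a).1 h.1
  intro T hT C hC
  exact (h1 T hT C hC).trans hab

omit [Fintype W] in
theorem exU_mono {a b : ℕ} (hab : a ≤ b) (p : ℕ) : exU u a ω H p ≤ exU u b ω H p := by
  unfold exU
  refine iSup_mono fun n => iSup_mono fun G => ?_
  refine iSup_le fun h => ?_
  exact le_iSup_of_le ⟨adm_mono hab h.1, h.2⟩ le_rfl

/-- the linear bound -/
theorem linear_of_gen (hH : Generated u H) :
    ∃ C : ℕ, ∀ p, exU u Δ ω H p ≤ ((C * p : ℕ) : ℕ∞) := by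
  refine ⟨u.factorial * Δ ^ (Fintype.card W - u), fun p => (exU_bound hH p).trans ?_⟩
  exact_mod_cast le_of_eq (by ring)

theorem exU_ne_top (hH : Generated u H) (p : ℕ) : exU u Δ ω H p ≠ ⊤ :=
  ne_top_of_le_ne_top (ENat.natCast_ne_top _) (exU_bound hH p)

omit [Fintype W] in
theorem not_linear {c δ : ℝ} (hc : 0 < c) (hδ : 0 < δ)
    (h : ∀ᶠ p : ℕ in atTop, ∀ N : ℕ, (N : ℝ) ≤ c * (p : ℝ) ^ (1 + δ) → (N : ℕ∞) ≤ exU u Δ ω H p) (C : ℕ) :
    ¬ ∀ p, exU u Δ ω H p ≤ ((C * p : ℕ) : ℕ∞) := by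
  intro hC
  -- for large p, C * p + 1 ≤ c * p ^ (1 + δ)
  have h1 : Tendsto (fun p : ℕ => c * (p : ℝ) ^ δ) atTop atTop :=
    ((tendsto_rpow_atTop hδ).comp tendsto_natCast_atTop_atTop).const_mul_atTop hc
  have h2 := h1.eventually_ge_atTop ((C : ℝ) + 1)
  obtain ⟨p, hp, h3, h4⟩ := (h.and (h2.and (eventually_ge_atTop 1))).exists
  have hp1 : (1 : ℝ) ≤ p := by exact_mod_cast h4
  have h5 : ((C * p + 1 : ℕ) : ℝ) ≤ c * (p : ℝ) ^ (1 + δ) := by
    rw [Real.rpow_add (by linarith), Real.rpow_one]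
    have h6 : ((C : ℝ) + 1) * p ≤ c * (p : ℝ) ^ δ * p := mul_le_mul_of_nonneg_right h3 (by linarith)
    push_cast
    nlinarith
  have h7 := (hp _ h5).trans (hC p)
  have h8 : C * p + 1 ≤ C * p := by exact_mod_cast h7
  omega

theorem cliqueCount_pos {V : Type} [Fintype V] {G : SimpleGraph V} (h : ¬ G.CliqueFree u) : 1 ≤ cliqueCount G u := by
  classical
  unfold cliqueCount
  rw [Nat.one_le_iff_ne_zero, Ne, Finset.card_eq_zero]
  intro h0
  apply h
  intro T hT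
  refine Finset.notMem_empty T ?_
  rw [← h0, mem_cliqueFinset_iff]
  exact hT

omit [Fintype W] in
theorem not_cliqueFree_of_contained {V : Type} {G : SimpleGraph V} (hc : ¬ H.CliqueFree u) (h : H ⊑ G) :
    ¬ G.CliqueFree u := by
  rw [not_cliqueFree_iff_top_isContained] at hc ⊢
  exact hc.trans h

theorem card_ge (hc : ¬ H.CliqueFree u) : u ≤ Fintype.card W := by
  rw [not_cliqueFree_iff_top_isContained] at hc
  obtain ⟨ψ⟩ := hc
  simpa using Fintype.card_le_of_injective ψ ψ.injective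

omit [Fintype W] in
theorem not_cliqueFree_of_gen (hH : Generated u H) : ¬ H.CliqueFree u := by
  obtain ⟨K, hK, _⟩ := hH
  exact fun h => h K hK

theorem adm_self (hω : H.CliqueFree (ω + 1)) : Adm u (Fintype.card W) ω H := by
  refine ⟨?_, hω⟩
  rw [free_split_iff]
  intro T hT C hC
  exact Finset.card_le_univ C

theorem blow_step {x s p a : ℕ} (hc : ¬ H.CliqueFree u) (ha : 1 ≤ a) (hs : 1 ≤ s)
    (h : Real u x ω H p a) :
    ∃ k N : ℕ, Real u (s * x) ω H k N ∧ 1 ≤ k ∧ k ≤ s ^ u * p ∧ s ^ Fintype.card W * a ≤ N := by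
  obtain ⟨V, hV, G, hG, hk, hN⟩ := h
  have h1 := labelled_blow_ge G H s
  rw [labelled_eq, labelled_eq, ← mul_assoc] at h1
  have h2 := Nat.le_of_mul_le_mul_right h1 (card_aut_pos H)
  have h3 : s ^ Fintype.card W * a ≤ (blow G s).copyCount H := (Nat.mul_le_mul_left _ hN).trans h2
  refine ⟨cliqueCount (blow G s) u, (blow G s).copyCount H, ⟨V × Fin s, inferInstance, blow G s, adm_blow hG s, rfl,
    le_rfl⟩, ?_, ?_, h3⟩
  · apply cliqueCount_pos
    apply not_cliqueFree_of_contained hc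
    rw [← copyCount_pos]
    have : 0 < s ^ Fintype.card W * a := by positivity
    omega
  · rw [← hk]
    exact cliqueCount_blow_le G s u

end FinAux

open FinAux

theorem pi_exists {u ω : ℕ} {W : Type} [Fintype W] {H : SimpleGraph W} (hu : 1 ≤ u) (hH : Generated u H)
    (hω : H.CliqueFree (ω + 1)) (P : ℕ → ℝ)
    (hP : ∀ Δ, 1 ≤ Δ → Tendsto (fun p : ℕ => ((exU u Δ ω H p).toNat : ℝ) / p) atTop (𝓝 (P Δ))) :
    ∃ π : ℝ, 0 < π ∧ π ≤ (u.factorial : ℝ) / Nat.card (H ≃g H) ∧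
      Tendsto (fun Δ : ℕ => P Δ / (Δ : ℝ) ^ (Fintype.card W - u)) atTop (𝓝 π) ∧
      (H.Colorable (u + 1) → u + 1 ≤ ω → π = (u.factorial : ℝ) / Nat.card (H ≃g H)) := by
  have hc := not_cliqueFree_of_gen hH
  have huW := card_ge hc
  have fact : ∀ Δ, 1 ≤ Δ → (∀ p N : ℕ, 1 ≤ p → Real u Δ ω H p N → (N : ℝ) / p ≤ P Δ) ∧
      P Δ ≤ (u.factorial : ℝ) / Nat.card (H ≃g H) * (Δ : ℝ) ^ (Fintype.card W - u) := by
    intro Δ hΔ
    obtain ⟨P', h1, h2, h3⟩ := limit_exists hu Δ ω hH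
    have h4 := tendsto_nhds_unique (hP Δ hΔ) h1
    rw [h4]
    exact ⟨h2, h3⟩
  have hA : (0 : ℝ) < Nat.card (H ≃g H) := by exact_mod_cast card_aut_pos H
  have h0 : ∀ x : ℕ, 1 ≤ x → 0 ≤ P x := fun x hx => ge_of_tendsto' (hP x hx) fun p => by positivity
  have hmono : ∀ a b : ℕ, 1 ≤ a → a ≤ b → P a ≤ P b := by
    intro a b ha hab
    refine le_of_tendsto_of_tendsto' (hP a ha) (hP b (ha.trans hab)) fun p => ?_
    have h1 : (exU u a ω H p).toNat ≤ (exU u b ω H p).toNat :=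
      ENat.toNat_le_toNat (exU_mono hab p) (exU_ne_top hH p)
    gcongr
  have hs : ∀ s x : ℕ, 1 ≤ s → 1 ≤ x → (s : ℝ) ^ (Fintype.card W - u) * P x ≤ P (s * x) := by
    intro s x hs hx
    have hsx : 1 ≤ s * x := Nat.one_le_iff_ne_zero.2 (by positivity)
    refine le_of_tendsto ((hP x hx).const_mul _) ?_
    filter_upwards [eventually_ge_atTop 1] with p hp
    rcases Nat.eq_zero_or_pos (exU u x ω H p).toNat with ha | ha
    · rw [ha]
      simpa using h0 _ hsx
    · have h1 : Real u x ω H p (exU u x ω H p).toNat :=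
        exU_real ha (by rw [ENat.natCast_toNat (exU_ne_top hH p)])
      obtain ⟨k, N, h2, h3, h4, h5⟩ := blow_step hc ha hs h1
      refine le_trans ?_ ((fact _ hsx).1 k N h3 h2)
      have hp' : (0 : ℝ) < p := by exact_mod_cast hp
      have hk' : (0 : ℝ) < k := by exact_mod_cast h3
      have hs' : (0 : ℝ) < s := by exact_mod_cast hs
      rw [← mul_div_assoc, div_le_div_iff₀ hp' hk']
      have h6 : (k : ℝ) ≤ (s : ℝ) ^ u * p := by exact_mod_cast h4
      have h7 : (s : ℝ) ^ Fintype.card W * ((exU u x ω H p).toNat : ℝ) ≤ N := by exact_mod_cast h5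
      have h8 : (s : ℝ) ^ Fintype.card W = (s : ℝ) ^ (Fintype.card W - u) * (s : ℝ) ^ u := by
        rw [← pow_add, Nat.sub_add_cancel huW]
      calc (s : ℝ) ^ (Fintype.card W - u) * ((exU u x ω H p).toNat : ℝ) * k
          ≤ (s : ℝ) ^ (Fintype.card W - u) * ((exU u x ω H p).toNat : ℝ) * ((s : ℝ) ^ u * p) := by gcongr
        _ = ((s : ℝ) ^ Fintype.card W * ((exU u x ω H p).toNat : ℝ)) * p := by rw [h8]; ring
        _ ≤ N * p := by gcongr
  obtain ⟨π, hπ1, hπ2, hπ3⟩ := lim_of_blow P (Fintype.card W - u) _ (fun x hx => (fact x hx).2) hmono h0 hs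
  refine ⟨π, ?_, hπ3, hπ1, ?_⟩
  · have hW : 1 ≤ Fintype.card W := hu.trans huW
    refine lt_of_lt_of_le ?_ (hπ2 (Fintype.card W) hW)
    have h1 : Real u (Fintype.card W) ω H (cliqueCount H u) 1 :=
      ⟨W, inferInstance, H, adm_self hω, rfl, copyCount_pos.2 (SimpleGraph.IsContained.refl H)⟩
    have h2 := (fact _ hW).1 _ _ (cliqueCount_pos hc) h1
    have h3 : (0 : ℝ) < cliqueCount H u := by exact_mod_cast cliqueCount_pos hc
    have h4 : (0 : ℝ) < Fintype.card W := by exact_mod_cast hW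
    have h5 : (0 : ℝ) < P (Fintype.card W) := lt_of_lt_of_le (by positivity) h2
    positivity
  · intro hcol hω'
    refine le_antisymm hπ3 ?_
    -- lower bound by complete (u+1)-partite graphs
    have key : ∀ s : ℕ, 1 ≤ s → (u.factorial : ℝ) / Nat.card (H ≃g H) *
        ((s.descFactorial (Fintype.card W) : ℝ) / (s : ℝ) ^ Fintype.card W) ≤ π := by
      intro s hs1
      obtain ⟨k, N, h1, h2, h3, h4⟩ := turan_lower (ω := ω) hc hcol hω' s hs1
      refine le_trans ?_ (hπ2 s hs1)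
      have h5 := (fact s hs1).1 k N h2 h1
      have hs' : (0 : ℝ) < s := by exact_mod_cast hs1
      have hk' : (0 : ℝ) < k := by exact_mod_cast h2
      have h6 : ((u + 1).factorial : ℝ) * (s.descFactorial (Fintype.card W) : ℝ) ≤ N * Nat.card (H ≃g H) := by
        exact_mod_cast h4
      have h7 : (k : ℝ) ≤ ((u : ℝ) + 1) * (s : ℝ) ^ u := by exact_mod_cast h3
      have h8 : (s : ℝ) ^ Fintype.card W = (s : ℝ) ^ (Fintype.card W - u) * (s : ℝ) ^ u := by
        rw [← pow_add, Nat.sub_add_cancel huW]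
      rw [le_div_iff₀ (by positivity)]
      refine le_trans ?_ h5
      rw [le_div_iff₀ hk']
      have h9 : ((u + 1).factorial : ℝ) = ((u : ℝ) + 1) * u.factorial := by
        rw [Nat.factorial_succ]
        push_cast
        ring
      have hD : (0 : ℝ) ≤ (s.descFactorial (Fintype.card W) : ℝ) := by positivity
      have e1 : (u.factorial : ℝ) / Nat.card (H ≃g H) *
          ((s.descFactorial (Fintype.card W) : ℝ) / (s : ℝ) ^ Fintype.card W) *
          (s : ℝ) ^ (Fintype.card W - u) * k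
          ≤ (u.factorial : ℝ) / Nat.card (H ≃g H) *
          ((s.descFactorial (Fintype.card W) : ℝ) / (s : ℝ) ^ Fintype.card W) *
          (s : ℝ) ^ (Fintype.card W - u) * (((u : ℝ) + 1) * (s : ℝ) ^ u) := by gcongr
      refine e1.trans ?_
      have e2 : (u.factorial : ℝ) / Nat.card (H ≃g H) *
          ((s.descFactorial (Fintype.card W) : ℝ) / (s : ℝ) ^ Fintype.card W) *
          (s : ℝ) ^ (Fintype.card W - u) * (((u : ℝ) + 1) * (s : ℝ) ^ u) =
          ((u + 1).factorial : ℝ) * (s.descFactorial (Fintype.card W) : ℝ) / Nat.card (H ≃g H) := by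
        rw [h8, h9]
        field_simp
      rw [e2, div_le_iff₀ hA]
      exact h6
    have lim : Tendsto (fun s : ℕ => (u.factorial : ℝ) / Nat.card (H ≃g H) *
        ((s.descFactorial (Fintype.card W) : ℝ) / (s : ℝ) ^ Fintype.card W)) atTop
        (𝓝 ((u.factorial : ℝ) / Nat.card (H ≃g H) * 1)) := by
      refine Tendsto.const_mul _ ?_
      have h1 := isEquivalent_descFactorial (Fintype.card W)
      rw [Asymptotics.isEquivalent_iff_tendsto_one] at h1
      · exact h1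
      · filter_upwards [eventually_ge_atTop 1] with s hs1
        have : (0 : ℝ) < s := by exact_mod_cast hs1
        positivity
    rw [mul_one] at lim
    refine le_of_tendsto lim ?_
    filter_upwards [eventually_ge_atTop 1] with s hs1 using key s hs1

/-- The main theorem. -/
theorem main (u : ℕ) (hu : 1 ≤ u) {W : Type} [Fintype W] (H : SimpleGraph W) (hc : ¬ H.CliqueFree u) :
    (∀ Δ ω : ℕ, (∃ C : ℕ, ∀ p, exU u Δ ω H p ≤ ((C * p : ℕ) : ℕ∞)) ↔ (¬ Adm u Δ ω H ∨ Generated u H)) ∧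
    (∀ Δ ω : ℕ, Adm u Δ ω H → ¬ Generated u H → ∃ c δ : ℝ, 0 < c ∧ 0 < δ ∧
      ∀ᶠ p : ℕ in atTop, ∀ N : ℕ, (N : ℝ) ≤ c * (p : ℝ) ^ (1 + δ) → (N : ℕ∞) ≤ exU u Δ ω H p) ∧
    (Generated u H →
      (∀ Δ ω : ℕ, ∃ P : ℝ, Tendsto (fun p : ℕ => ((exU u Δ ω H p).toNat : ℝ) / p) atTop (𝓝 P)) ∧
      (∀ ω : ℕ, H.CliqueFree (ω + 1) → ∀ P : ℕ → ℝ,
        (∀ Δ, 1 ≤ Δ → Tendsto (fun p : ℕ => ((exU u Δ ω H p).toNat : ℝ) / p) atTop (𝓝 (P Δ))) →
        ∃ π : ℝ, 0 < π ∧ π ≤ (u.factorial : ℝ) / Nat.card (H ≃g H) ∧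
          Tendsto (fun Δ : ℕ => P Δ / (Δ : ℝ) ^ (Fintype.card W - u)) atTop (𝓝 π) ∧
          (H.Colorable (u + 1) → u + 1 ≤ ω → π = (u.factorial : ℝ) / Nat.card (H ≃g H)))) := by
  refine ⟨fun Δ ω => ⟨?_, ?_⟩, fun Δ ω hH hg => superlinear hu hH hc hg, fun hg => ⟨fun Δ ω => ?_, fun ω hω P hP =>
    pi_exists hu hg hω P hP⟩⟩
  · rintro ⟨C, hC⟩
    by_contra hcon
    push Not at hcon
    obtain ⟨c, δ, h1, h2, h3⟩ := superlinear hu hcon.1 hc hcon.2
    exact not_linear h1 h2 h3 C hC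
  · rintro (h | h)
    · exact ⟨0, fun p => by rw [exU_eq_zero h]; exact bot_le⟩
    · exact linear_of_gen h
  · obtain ⟨P, h1, _⟩ := limit_exists hu Δ ω hg
    exact ⟨P, h1⟩

end Pb736
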