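import Pool.Agent.Lib.Pb736.CN

/-!
# Module Blow: blow-ups

PROOF.  The projection `Prod.fst : blow G s →g G` is a homomorphism, so it is injective on cliques and maps
`n`-cliques to `n`-cliques (`IsNClique`; for a clique `T`, `T.image Prod.fst` has the same cardinality).
`adm_blow`: clique-freeness by projection; `free_split_iff`: the common neighbours of a `u`-clique `T` are contained in
`C ×ˢ univ` where `C` is the set of common neighbours of the projection (`C = image` of the given set), so at most
`Δ * s`.  `cliqueCount_blow_le`: `T ↦ T.image Prod.fst` maps `u`-cliques to `u`-cliques and the fibre over `Q` injects into the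
functions `Q → Fin s` (`s ^ u` many); `Finset.card_le_mul_card_image_of_maps_to`.  `labelled_blow_ge`: for a copy `φ` and
`e : W → Fin s` the map `w ↦ (φ w, e w)` is a copy; this is injective in `(φ, e)`; `Fintype.card_le_of_injective`.
-/

set_option autoImplicit false

namespace Pb736

open SimpleGraph Finset

variable {u Δ ω : ℕ} {V W : Type}

namespace BlowAux

open Classical in
lemma clique_image {G : SimpleGraph V} {s n : ℕ} {T : Finset (V × Fin s)} (hT : (blow G s).IsNClique n T) :
    G.IsNClique n (T.image Prod.fst) := by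
  refine ⟨?_, ?_⟩
  · intro a ha b hb hab
    simp only [coe_image, Set.mem_image, mem_coe] at ha hb
    obtain ⟨x, hx, rfl⟩ := ha
    obtain ⟨y, hy, rfl⟩ := hb
    exact hT.isClique hx hy fun h => hab (by rw [h])
  · rw [card_image_of_injOn, hT.card_eq]
    intro x hx y hy hxy
    by_contra hne
    have h1 : (blow G s).Adj x y := hT.isClique hx hy hne
    exact (show G.Adj x.1 y.1 from h1).ne hxy

end BlowAux

theorem adm_blow {G : SimpleGraph V} (hG : Adm u Δ ω G) (s : ℕ) : Adm u (s * Δ) ω (blow G s) := by
  classical
  refine ⟨?_, ?_⟩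
  · rw [free_split_iff]
    intro T hT C hC
    have h1 := (free_split_iff G u Δ).1 hG.1 _ (BlowAux.clique_image hT) (C.image Prod.fst) (by
      intro x hx w hw
      rw [mem_image] at hx hw
      obtain ⟨x', hx', rfl⟩ := hx
      obtain ⟨w', hw', rfl⟩ := hw
      exact hC x' hx' w' hw')
    have h2 : C ⊆ (C.image Prod.fst) ×ˢ (univ : Finset (Fin s)) := by
      intro x hx
      rw [mem_product]
      exact ⟨mem_image_of_mem _ hx, mem_univ _⟩
    calc #C ≤ #((C.image Prod.fst) ×ˢ (univ : Finset (Fin s))) := card_le_card h2
      _ = #(C.image Prod.fst) * s := by rw [card_product, card_univ, Fintype.card_fin]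
      _ ≤ Δ * s := Nat.mul_le_mul_right _ h1
      _ = s * Δ := Nat.mul_comm _ _
  · intro T hT
    exact hG.2 _ (BlowAux.clique_image hT)

namespace BlowAux

lemma cliqueCount_eq [Fintype V] (G : SimpleGraph V) (u : ℕ) (A : Finset (Finset V))
    (hA : ∀ T, T ∈ A ↔ G.IsNClique u T) : cliqueCount G u = #A := by
  classical
  unfold cliqueCount
  congr 1
  ext T
  rw [mem_cliqueFinset_iff, hA]

lemma labelled_eq [Fintype V] [Fintype W] (G : SimpleGraph V) (H : SimpleGraph W) :
    G.labelledCopyCount H = Nat.card (Copy H G) := by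
  classical
  unfold labelledCopyCount
  exact Nat.card_eq_fintype_card.symm

end BlowAux

theorem cliqueCount_blow_le [Fintype V] (G : SimpleGraph V) (s u : ℕ) :
    cliqueCount (blow G s) u ≤ s ^ u * cliqueCount G u := by
  classical
  rw [BlowAux.cliqueCount_eq (blow G s) u (univ.filter fun T => (blow G s).IsNClique u T) (by simp),
    BlowAux.cliqueCount_eq G u (univ.filter fun T => G.IsNClique u T) (by simp)]
  refine Finset.card_le_mul_card_image_of_maps_to (f := fun T : Finset (V × Fin s) => T.image Prod.fst) ?_ _ ?_
  · intro T hT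
    rw [mem_filter] at hT ⊢
    exact ⟨mem_univ _, BlowAux.clique_image hT.2⟩
  · intro Q hQ
    rw [mem_filter] at hQ
    replace hQ := hQ.2
    refine le_trans (card_le_card (t := (univ : Finset (Q → Fin s)).image fun g =>
      univ.image fun q : Q => ((q : V), g q)) ?_) ?_
    · intro T hT
      rw [mem_filter, mem_filter] at hT
      obtain ⟨⟨_, hT⟩, hTQ⟩ := hT
      have hex : ∀ q : Q, ∃ i : Fin s, ((q : V), i) ∈ T := by
        intro q
        have h1 : (q : V) ∈ T.image Prod.fst := by rw [hTQ]; exact q.2
        rw [mem_image] at h1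
        obtain ⟨x, hx, hxq⟩ := h1
        refine ⟨x.2, ?_⟩
        rw [← hxq]
        exact hx
      choose g hg using hex
      rw [mem_image]
      refine ⟨g, mem_univ _, ?_⟩
      apply eq_of_subset_of_card_le
      · intro x hx
        rw [mem_image] at hx
        obtain ⟨q, _, rfl⟩ := hx
        exact hg q
      · rw [card_image_of_injective, card_univ, Fintype.card_coe, hQ.card_eq, hT.card_eq]
        intro a b hab
        exact Subtype.ext (congrArg Prod.fst hab)
    · refine le_trans card_image_le ?_
      rw [card_univ, Fintype.card_fun, Fintype.card_fin, Fintype.card_coe, hQ.card_eq]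

namespace BlowAux

/-- the copy of `H` in the blow-up -/
def lift {G : SimpleGraph V} {H : SimpleGraph W} {s : ℕ} (p : (W → Fin s) × Copy H G) : Copy H (blow G s) :=
  ⟨⟨fun w => (p.2 w, p.1 w), fun {_ _} hab => p.2.toHom.map_adj hab⟩, fun _ _ hab =>
    p.2.injective (congrArg Prod.fst hab)⟩

lemma lift_injective {G : SimpleGraph V} {H : SimpleGraph W} {s : ℕ} :
    Function.Injective (lift (G := G) (H := H) (s := s)) := by
  rintro ⟨e, φ⟩ ⟨e', φ'⟩ h
  have h2 : ∀ w, ((φ w, e w) : V × Fin s) = (φ' w, e' w) := fun w => DFunLike.congr_fun h w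
  have h3 : e = e' := funext fun w => congrArg Prod.snd (h2 w)
  have h4 : φ = φ' := DFunLike.ext _ _ fun w => congrArg Prod.fst (h2 w)
  rw [h3, h4]

end BlowAux

theorem labelled_blow_ge [Fintype V] [Fintype W] (G : SimpleGraph V) (H : SimpleGraph W) (s : ℕ) :
    s ^ (Fintype.card W) * G.labelledCopyCount H ≤ (blow G s).labelledCopyCount H := by
  classical
  rw [BlowAux.labelled_eq, BlowAux.labelled_eq]
  have h1 : s ^ (Fintype.card W) * Nat.card (Copy H G) = Nat.card ((W → Fin s) × Copy H G) := by
    rw [Nat.card_prod, Nat.card_fun, Nat.card_fin, ← Nat.card_eq_fintype_card (α := W)]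
  rw [h1]
  exact Nat.card_le_card_of_injective BlowAux.lift BlowAux.lift_injective

end Pb736
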