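import Pool.Agent.Lib.Pb736.Defs

/-!
# Module CN: split-freeness means that every `u`-clique has at most `Δ` common neighbours

PROOF.  (→) If `#C > Δ`, choose an injection `Fin (Δ + 1) → C` (`Finset.exists_subset_card_eq`, `Finset.equivFin`) and a
bijection `Fin u → T`; the map `inl i ↦ t_i`, `inr j ↦ c_j` is an injective homomorphism `split u (Δ+1) →g G` (a vertex of
`C` is adjacent to all vertices of `T`, so it is not in `T`).  (←) For a copy `φ` take `T` = image of `φ ∘ inl`
(`IsNClique u`), `C` = image of `φ ∘ inr`, `#C = Δ + 1`.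
-/

set_option autoImplicit false

namespace Pb736

open SimpleGraph Finset

theorem free_split_iff {V : Type} (G : SimpleGraph V) (u Δ : ℕ) :
    (split u (Δ + 1)).Free G ↔
      ∀ T : Finset V, G.IsNClique u T → ∀ C : Finset V, (∀ x ∈ C, ∀ w ∈ T, G.Adj x w) → #C ≤ Δ := by
  classical
  constructor
  · intro hfree T hT C hC
    by_contra hlt
    obtain ⟨C', hC'sub, hC'⟩ := Finset.exists_subset_card_eq (show Δ + 1 ≤ #C by omega)
    let e : Fin u ≃ T := (T.equivFin.trans (finCongr hT.card_eq)).symm
    let f : Fin (Δ + 1) ≃ C' := (C'.equivFin.trans (finCongr hC')).symm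
    have hTC : ∀ i j, G.Adj (f j : V) (e i : V) := fun i j =>
      hC _ (hC'sub (f j).2) _ (e i).2
    refine hfree ⟨⟨⟨Sum.elim (fun i => (e i : V)) (fun j => (f j : V)), ?_⟩, ?_⟩⟩
    · rintro (i | i) (j | j) ⟨hne, hl⟩
      · simp only [Sum.elim_inl]
        refine hT.isClique (e i).2 (e j).2 fun h => hne ?_
        have h1 : i = j := e.injective (Subtype.ext h)
        rw [h1]
      · simpa using (hTC i j).symm
      · simpa using hTC j i
      · simp at hl
    · rintro (i | i) (j | j) h
      · have h1 : i = j := e.injective (Subtype.ext h)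
        rw [h1]
      · exact absurd h.symm (hTC i j).ne
      · exact absurd h (hTC j i).ne
      · have h1 : i = j := f.injective (Subtype.ext h)
        rw [h1]
  · rintro h ⟨φ⟩
    have hinj : Function.Injective φ := φ.injective
    have hadj : ∀ x y, (split u (Δ + 1)).Adj x y → G.Adj (φ x) (φ y) := fun x y hxy => φ.toHom.map_adj hxy
    have hT : G.IsNClique u (univ.image fun i : Fin u => φ (Sum.inl i)) := by
      refine ⟨?_, ?_⟩
      · intro a ha b hb hab
        simp only [coe_image, coe_univ, Set.image_univ, Set.mem_range] at ha hb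
        obtain ⟨i, rfl⟩ := ha
        obtain ⟨j, rfl⟩ := hb
        refine hadj _ _ ⟨fun h => hab (by rw [h]), Or.inl rfl⟩
      · rw [card_image_of_injective _ fun i j hij => Sum.inl_injective (hinj hij)]
        simp
    have h1 := h _ hT (univ.image fun j : Fin (Δ + 1) => φ (Sum.inr j)) (by
      intro x hx w hw
      simp only [mem_image, mem_univ, true_and] at hx hw
      obtain ⟨j, rfl⟩ := hx
      obtain ⟨i, rfl⟩ := hw
      exact hadj _ _ ⟨by simp, Or.inr rfl⟩)
    rw [card_image_of_injective _ fun i j hij => Sum.inr_injective (hinj hij)] at h1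
    simp at h1

end Pb736
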