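import Mathlib

/-!
# Clique-bounded generalized Turán counts: definitions
-/

set_option autoImplicit false

namespace Pb736

open SimpleGraph Finset Filter

/-- The complete split graph `K_u ∨ I_m`: a clique on `u` vertices, an independent set on `m` vertices and all edges
between them. -/
def split (u m : ℕ) : SimpleGraph (Fin u ⊕ Fin m) where
  Adj x y := x ≠ y ∧ (x.isLeft = true ∨ y.isLeft = true)
  symm := ⟨fun _ _ h => ⟨h.1.symm, h.2.symm⟩⟩
  loopless := ⟨fun _ h => h.1 rfl⟩

/-- `G` contains neither `K_u ∨ I_{Δ+1}` nor `K_{ω+1}` as a subgraph. -/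
def Adm (u Δ ω : ℕ) {V : Type} (G : SimpleGraph V) : Prop :=
  (split u (Δ + 1)).Free G ∧ G.CliqueFree (ω + 1)

/-- `k^u(G)`: the number of `u`-cliques. -/
noncomputable def cliqueCount {V : Type} [Fintype V] (G : SimpleGraph V) (u : ℕ) : ℕ := by
  classical exact #(G.cliqueFinset u)

/-- `ex_u(p, H, {K_u ∨ I_{Δ+1}, K_{ω+1}})`: the largest number of subgraphs isomorphic to `H` in a finite graph which
contains neither `K_u ∨ I_{Δ+1}` nor `K_{ω+1}` and has exactly `p` cliques of size `u` (a supremum in `ℕ ∪ {∞}`). -/
noncomputable def exU (u Δ ω : ℕ) {W : Type} (H : SimpleGraph W) (p : ℕ) : ℕ∞ :=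
  ⨆ (n : ℕ) (G : SimpleGraph (Fin n)) (_ : Adm u Δ ω G ∧ cliqueCount G u = p), (G.copyCount H : ℕ∞)

/-- The vertices which can be reached from `K`: start with the vertices of `K` and add, again and again, vertices which
are adjacent to all vertices of a `u`-clique of vertices that are already there. -/
inductive Reach (u : ℕ) {W : Type} (H : SimpleGraph W) (K : Finset W) : W → Prop
  | base (v : W) (h : v ∈ K) : Reach u H K v
  | step (Q : Finset W) (v : W) (hQ : H.IsNClique u Q) (hR : ∀ w ∈ Q, Reach u H K w)
      (hv : ∀ w ∈ Q, H.Adj v w) : Reach u H K v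

/-- `H` can be built from a `u`-clique of `H` by adding vertices, each adjacent to all vertices of a `u`-clique of `H`
among the vertices before it.  (For `u = 1`: `H` is connected.  A spanning `u`-tree is sufficient, but for `u ≥ 2` it is
not necessary.) -/
def Generated (u : ℕ) {W : Type} (H : SimpleGraph W) : Prop :=
  ∃ K : Finset W, H.IsNClique u K ∧ ∀ v, Reach u H K v

/-- there is an admissible finite graph with exactly `p` cliques of size `u` and at least `N` copies of `H` -/
def Real (u Δ ω : ℕ) {W : Type} (H : SimpleGraph W) (p N : ℕ) : Prop :=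
  ∃ (V : Type) (_ : Fintype V) (G : SimpleGraph V), Adm u Δ ω G ∧ cliqueCount G u = p ∧ N ≤ G.copyCount H

/-- the blow-up of a graph: every vertex is replaced by `s` independent vertices -/
def blow {V : Type} (G : SimpleGraph V) (s : ℕ) : SimpleGraph (V × Fin s) where
  Adj x y := G.Adj x.1 y.1
  symm := ⟨fun _ _ h => h.symm⟩
  loopless := ⟨fun _ h => h.ne rfl⟩

/-- the disjoint union of two graphs -/
def dsum {V V' : Type} (G : SimpleGraph V) (G' : SimpleGraph V') : SimpleGraph (V ⊕ V') where
  Adj x y := match x, y with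
    | .inl a, .inl b => G.Adj a b
    | .inr a, .inr b => G'.Adj a b
    | _, _ => False
  symm := ⟨fun x y h => by
    cases x <;> cases y <;> first | exact SimpleGraph.Adj.symm h | exact h⟩
  loopless := ⟨fun x h => by
    cases x <;> exact SimpleGraph.Adj.ne h rfl⟩

end Pb736
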