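import Pool.Agent.Lib.Pb736.RealB

/-!
# Module Fek: existence of the limit (Fekete's lemma)

PROOF.  If `¬ Adm u Δ ω H`, all values are `0` (`exU_eq_zero`) and `Real u Δ ω H p N` forces `N = 0` (`real_le_exU`): take
`P = 0`.  Otherwise `u ≤ ω` (a `u`-clique `K` of `H` exists by `Generated`; `H.CliqueFree (ω + 1)`, `CliqueFree.mono`).  Let
`a p = (exU u Δ ω H p).toNat`; `exU ≠ ⊤` by `exU_bound`, so `(a p : ℕ∞) = exU ..`.  `Real p (a p)` holds for every `p`
(`exU_real` if `a p ≥ 1`, `real_zero` otherwise).  `real_add`, `real_le_exU` give `a p + a q ≤ a (p + q)`.  Apply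
`Subadditive.tendsto_lim` to `fun p => -(a p : ℝ)` (bounded below: `a p ≤ u! * p * Δ^..`), `P = -lim`;
`Subadditive.lim_le_div` gives `a p / p ≤ P` for `p ≥ 1`, and `N ≤ a p` if `Real p N`.  Upper bound: for a graph `G` with `Real
p (a p)`, `a p * Nat.card (H ≃g H) ≤ copyCount * Nat.card = labelledCopyCount ≤ u! * p * Δ^(..)` (`labelled_eq`,
`labelled_le`), so `a p / p ≤ u! * Δ^(..) / Nat.card` for all `p ≥ 1`; pass to the limit (`le_of_tendsto'` or
`le_of_tendsto` with `eventually_ge_atTop 1`).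
-/

set_option autoImplicit false

namespace Pb736

open SimpleGraph Finset Filter Topology

theorem limit_exists {u : ℕ} (hu : 1 ≤ u) (Δ ω : ℕ) {W : Type} [Fintype W] {H : SimpleGraph W}
    (hH : Generated u H) :
    ∃ P : ℝ, Tendsto (fun p : ℕ => ((exU u Δ ω H p).toNat : ℝ) / p) atTop (𝓝 P) ∧
      (∀ p N : ℕ, 1 ≤ p → Real u Δ ω H p N → (N : ℝ) / p ≤ P) ∧
      P ≤ (u.factorial : ℝ) / Nat.card (H ≃g H) * (Δ : ℝ) ^ (Fintype.card W - u) := by
  classical
  obtain ⟨K, hK, hreach⟩ := id hH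
  have hcardpos : (0 : ℝ) < (Nat.card (H ≃g H) : ℝ) := by exact_mod_cast card_aut_pos H
  have hW : Nonempty W := by
    have h1 : 0 < K.card := by rw [hK.card_eq]; omega
    obtain ⟨w, -⟩ := Finset.card_pos.1 h1
    exact ⟨w⟩
  by_cases hAdm : Adm u Δ ω H
  swap
  · refine ⟨0, ?_, ?_, by positivity⟩
    · have h1 : (fun p : ℕ => ((exU u Δ ω H p).toNat : ℝ) / p) = fun _ => 0 := by
        funext p
        rw [exU_eq_zero hAdm]
        simp
      rw [h1]
      exact tendsto_const_nhds
    · intro p N _ hR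
      have h1 := real_le_exU hR
      rw [exU_eq_zero hAdm] at h1
      have h2 : N = 0 := by
        have h3 : (N : ℕ∞) = 0 := le_antisymm h1 bot_le
        exact_mod_cast h3
      rw [h2]
      simp
  have hω : u ≤ ω := by
    by_contra hcon
    push Not at hcon
    exact (hAdm.2.mono (by omega : ω + 1 ≤ u)) K hK
  set a : ℕ → ℕ := fun p => (exU u Δ ω H p).toNat with ha
  have hae : ∀ p, (a p : ℕ∞) = exU u Δ ω H p := by
    intro p
    refine ENat.natCast_toNat fun htop => ?_
    have h1 := exU_bound (u := u) (Δ := Δ) (ω := ω) hH p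
    rw [htop, top_le_iff] at h1
    exact ENat.natCast_ne_top _ h1
  have hreal : ∀ p, Real u Δ ω H p (a p) := by
    intro p
    rcases Nat.eq_zero_or_pos (a p) with h0 | h0
    · rw [h0]
      exact real_zero hu hω p
    · exact exU_real h0 (hae p).le
  have hle : ∀ p N, Real u Δ ω H p N → N ≤ a p := by
    intro p N h
    have h1 := real_le_exU h
    rw [← hae p] at h1
    exact_mod_cast h1
  have hadd : ∀ p q, a p + a q ≤ a (p + q) := fun p q =>
    hle _ _ (real_add hu (hreal p) (hreal q))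
  have hbd : ∀ p, a p * Nat.card (H ≃g H) ≤ u.factorial * p * Δ ^ (Fintype.card W - u) := by
    intro p
    obtain ⟨V, _, G, hG1, hG2, hG3⟩ := hreal p
    calc a p * Nat.card (H ≃g H) ≤ G.copyCount H * Nat.card (H ≃g H) := Nat.mul_le_mul_right _ hG3
      _ = G.labelledCopyCount H := (labelled_eq G H).symm
      _ ≤ u.factorial * cliqueCount G u * Δ ^ (Fintype.card W - u) := labelled_le hG1 hH
      _ = u.factorial * p * Δ ^ (Fintype.card W - u) := by rw [hG2]
  set B : ℝ := (u.factorial : ℝ) / Nat.card (H ≃g H) * (Δ : ℝ) ^ (Fintype.card W - u) with hB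
  have hB0 : 0 ≤ B := by positivity
  have hdiv : ∀ p : ℕ, (a p : ℝ) / p ≤ B := by
    intro p
    rcases Nat.eq_zero_or_pos p with h0 | h0
    · rw [h0]
      simpa using hB0
    · have hp : (0 : ℝ) < p := by exact_mod_cast h0
      have h1 : (a p : ℝ) * Nat.card (H ≃g H) ≤
          u.factorial * p * (Δ : ℝ) ^ (Fintype.card W - u) := by exact_mod_cast hbd p
      rw [div_le_iff₀ hp, hB, div_mul_eq_mul_div, div_mul_eq_mul_div, le_div_iff₀ hcardpos]
      linarith
  set b : ℕ → ℝ := fun p => -(a p : ℝ) with hb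
  have hsub : Subadditive b := by
    intro m n
    rw [hb]
    simp only
    have h1 : (a m : ℝ) + a n ≤ a (m + n) := by exact_mod_cast hadd m n
    linarith
  have hbdd : BddBelow (Set.range fun n : ℕ => b n / n) := by
    refine ⟨-B, ?_⟩
    rintro _ ⟨n, rfl⟩
    have h1 := hdiv n
    rw [hb]
    simp only
    rw [neg_div]
    linarith
  have hlim := hsub.tendsto_lim hbdd
  have hlim' : Tendsto (fun p : ℕ => ((exU u Δ ω H p).toNat : ℝ) / p) atTop (𝓝 (-hsub.lim)) := by
    have h1 := hlim.neg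
    refine h1.congr fun p => ?_
    rw [hb]
    simp only
    rw [neg_div, neg_neg]
  refine ⟨-hsub.lim, hlim', ?_, ?_⟩
  · intro p N hp hR
    have h1 : hsub.lim ≤ -(a p : ℝ) / p := hsub.lim_le_div hbdd (n := p) (by omega)
    have h2 : (N : ℝ) ≤ a p := by exact_mod_cast hle p N hR
    have h3 : (N : ℝ) / p ≤ (a p : ℝ) / p := div_le_div_of_nonneg_right h2 (Nat.cast_nonneg _)
    rw [neg_div] at h1
    linarith
  · exact le_of_tendsto' hlim' hdiv

end Pb736
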