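import Pool.Agent.Lib.Pb736.Fin

/-!
# Module Fin2: assembly, with positivity of the limit, `ex(p) ≤ P p` and attainment of the maximum
-/

set_option autoImplicit false

namespace Pb736

open SimpleGraph Finset Filter Topology FinAux RealBAux

/-- if `H` is generated and admissible, the supremum is attained -/
theorem exU_attained {u Δ ω : ℕ} {W : Type} [Fintype W] {H : SimpleGraph W} (hu : 1 ≤ u) (hH : Generated u H)
    (hA : Adm u Δ ω H) (p : ℕ) :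
    ∃ (n : ℕ) (G : SimpleGraph (Fin n)), Adm u Δ ω G ∧ cliqueCount G u = p ∧
      (G.copyCount H : ℕ∞) = exU u Δ ω H p := by
  obtain ⟨K, hK, -⟩ := id hH
  have hω : u ≤ ω := by
    by_contra hcon
    push Not at hcon
    exact (hA.2.mono (by omega : ω + 1 ≤ u)) K hK
  have hae : (((exU u Δ ω H p).toNat : ℕ) : ℕ∞) = exU u Δ ω H p := ENat.natCast_toNat (exU_ne_top hH p)
  have hreal : Real u Δ ω H p (exU u Δ ω H p).toNat := by
    rcases Nat.eq_zero_or_pos (exU u Δ ω H p).toNat with h0 | h0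
    · rw [h0]
      exact real_zero hu hω p
    · exact exU_real h0 hae.le
  obtain ⟨V, iV, G, hG, hc, hN⟩ := hreal
  have φ : G ≃g G.map (Fintype.equivFin V).toEmbedding := SimpleGraph.Iso.map (Fintype.equivFin V) G
  refine ⟨Fintype.card V, G.map (Fintype.equivFin V).toEmbedding, adm_iso φ hG, ?_, le_antisymm ?_ ?_⟩
  · rw [← cliqueCount_iso φ, hc]
  · refine real_le_exU ⟨Fin (Fintype.card V), inferInstance, G.map (Fintype.equivFin V).toEmbedding, adm_iso φ hG, ?_,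
      le_rfl⟩
    rw [← cliqueCount_iso φ, hc]
  · rw [← hae]
    exact_mod_cast hN.trans (copyCount_le_iso φ H)

theorem limit_exists' {u : ℕ} (hu : 1 ≤ u) (Δ ω : ℕ) {W : Type} [Fintype W] {H : SimpleGraph W}
    (hH : Generated u H) :
    ∃ P : ℝ, Tendsto (fun p : ℕ => ((exU u Δ ω H p).toNat : ℝ) / p) atTop (𝓝 P) ∧
      (∀ p : ℕ, ((exU u Δ ω H p).toNat : ℝ) ≤ P * p) ∧
      P ≤ (u.factorial : ℝ) / Nat.card (H ≃g H) * (Δ : ℝ) ^ (Fintype.card W - u) ∧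
      (Adm u Δ ω H → 0 < P) := by
  obtain ⟨P, h1, h2, h3⟩ := limit_exists hu Δ ω hH
  have hP0 : 0 ≤ P := ge_of_tendsto' h1 fun p => by positivity
  refine ⟨P, h1, fun p => ?_, h3, fun hA => ?_⟩
  · rcases Nat.eq_zero_or_pos (exU u Δ ω H p).toNat with ha | ha
    · rw [ha]
      have : (0 : ℝ) ≤ P * p := by positivity
      simpa using this
    · have h4 : Real u Δ ω H p (exU u Δ ω H p).toNat :=
        exU_real ha (by rw [ENat.natCast_toNat (exU_ne_top hH p)])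
      rcases Nat.eq_zero_or_pos p with hp | hp
      · exfalso
        have h5 := exU_bound (u := u) (Δ := Δ) (ω := ω) hH p
        rw [hp] at h5 ha
        simp only [mul_zero, zero_mul, Nat.cast_zero] at h5
        have h6 : exU u Δ ω H 0 = 0 := le_antisymm h5 bot_le
        rw [h6] at ha
        simp at ha
      · have h5 := h2 p _ hp h4
        have hp' : (0 : ℝ) < p := by exact_mod_cast hp
        rwa [div_le_iff₀ hp'] at h5
  · have h4 : Real u Δ ω H (cliqueCount H u) 1 :=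
      ⟨W, inferInstance, H, hA, rfl, copyCount_pos.2 (SimpleGraph.IsContained.refl H)⟩
    have h5 := h2 _ _ (cliqueCount_pos (not_cliqueFree_of_gen hH)) h4
    have h6 : (0 : ℝ) < cliqueCount H u := by exact_mod_cast cliqueCount_pos (not_cliqueFree_of_gen hH)
    exact lt_of_lt_of_le (by positivity) h5

/-- The main theorem. -/
theorem main2 (u : ℕ) (hu : 1 ≤ u) {W : Type} [Fintype W] (H : SimpleGraph W) (hc : ¬ H.CliqueFree u) :
    (∀ Δ ω : ℕ, (∃ C : ℕ, ∀ p, exU u Δ ω H p ≤ ((C * p : ℕ) : ℕ∞)) ↔ (¬ Adm u Δ ω H ∨ Generated u H)) ∧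
    (∀ Δ ω : ℕ, Adm u Δ ω H → ¬ Generated u H → ∃ c δ : ℝ, 0 < c ∧ 0 < δ ∧
      ∀ᶠ p : ℕ in atTop, ∀ N : ℕ, (N : ℝ) ≤ c * (p : ℝ) ^ (1 + δ) → (N : ℕ∞) ≤ exU u Δ ω H p) ∧
    (Generated u H →
      (∀ Δ ω : ℕ, ∃ P : ℝ, Tendsto (fun p : ℕ => ((exU u Δ ω H p).toNat : ℝ) / p) atTop (𝓝 P) ∧
        (∀ p : ℕ, ((exU u Δ ω H p).toNat : ℝ) ≤ P * p) ∧
        P ≤ (u.factorial : ℝ) / Nat.card (H ≃g H) * (Δ : ℝ) ^ (Fintype.card W - u) ∧
        (Adm u Δ ω H → 0 < P ∧ ∀ p : ℕ, ∃ (n : ℕ) (G : SimpleGraph (Fin n)),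
          Adm u Δ ω G ∧ cliqueCount G u = p ∧ (G.copyCount H : ℕ∞) = exU u Δ ω H p)) ∧
      (∀ ω : ℕ, H.CliqueFree (ω + 1) → ∀ P : ℕ → ℝ,
        (∀ Δ, 1 ≤ Δ → Tendsto (fun p : ℕ => ((exU u Δ ω H p).toNat : ℝ) / p) atTop (𝓝 (P Δ))) →
        ∃ π : ℝ, 0 < π ∧ π ≤ (u.factorial : ℝ) / Nat.card (H ≃g H) ∧
          Tendsto (fun Δ : ℕ => P Δ / (Δ : ℝ) ^ (Fintype.card W - u)) atTop (𝓝 π) ∧
          (H.Colorable (u + 1) → u + 1 ≤ ω → π = (u.factorial : ℝ) / Nat.card (H ≃g H)))) := by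
  obtain ⟨h1, h2, h3⟩ := main u hu H hc
  refine ⟨h1, h2, fun hg => ⟨fun Δ ω => ?_, (h3 hg).2⟩⟩
  obtain ⟨P, h4, h5, h6, h7⟩ := limit_exists' hu Δ ω hg
  exact ⟨P, h4, h5, h6, fun hA => ⟨h7 hA, fun p => exU_attained hu hg hA p⟩⟩

end Pb736
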