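import Pool.Agent.Lib.Pb736.Upper
import Pool.Agent.Lib.Pb736.Turan


/-!
# Module Mat: connected graphs with a perfect matching in triangle-free graphs

PROOF.  `n = card V`, `G` triangle-free.  (0) ordered edges of `G`: at most `n^2 / 2` (`labelled_top_le` with `r = m = 2`, or Mantel).
(1) for every vertex `v` of `G` the number of pairs `(a, b)` with `v ~ a ~ b` is at most `n^2 / 4`: `(a, b) ↦ s(a, b)` is injective
into `edgeFinset` since `N(v)` is independent.  (2) For a nonempty `S` closed under `M`, `S ≠ univ`, connectedness gives `w ∈ S`,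
`x ∉ S` with `L.Adj w x`; `M x ∉ S`; put `T = S ∪ {x, M x}`: `#(R G L T) ≤ (n^2/4) * #(R G L S)` (restrict to `S` as in
`UpperAux.card_R_step`; the fibre injects into the pairs `(φ x, φ (M x))`, `φ w ~ φ x ~ φ (M x)`, and use (1)).
(3) start with `S = {x0, M x0}`: `#(R G L S) ≤ n^2 / 2`; induction on `card K - #S` (both even).
`G.labelledCopyCount L = #(R G L univ)` (`card_R_univ`).
-/

set_option autoImplicit false

namespace Pb736

open SimpleGraph Finset

namespace MatAux

open UpperAux

open Classical in
/-- the number of edges -/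
noncomputable def eN {V : Type} [Fintype V] (G : SimpleGraph V) : ℕ := #G.edgeFinset

theorem four_eN {V : Type} [Fintype V] {G : SimpleGraph V} (hG : G.CliqueFree 3) :
    4 * eN G ≤ Fintype.card V ^ 2 := by
  classical
  have h := CliqueFree.card_edgeFinset_le (G := G) (r := 2) hG
  simp only at h
  have h1 : (Fintype.card V % 2).choose 2 = 0 :=
    Nat.choose_eq_zero_of_lt (Nat.mod_lt _ (by norm_num))
  rw [h1, add_zero] at h
  have h2 : eN G ≤ (Fintype.card V ^ 2 - (Fintype.card V % 2) ^ 2) * (2 - 1) / (2 * 2) := by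
    unfold eN
    convert h
  omega

open Classical in
theorem pairs_le {V : Type} [Fintype V] {G : SimpleGraph V} (hG : G.CliqueFree 3) (v : V) :
    #(univ.filter (fun ab : V × V => G.Adj v ab.1 ∧ G.Adj ab.1 ab.2)) ≤ eN G := by
  unfold eN
  refine Finset.card_le_card_of_injOn (fun ab => s(ab.1, ab.2)) ?_ ?_
  · rintro ⟨a, b⟩ hab
    have h := (Finset.mem_filter.1 (Finset.mem_coe.1 hab)).2
    exact Finset.mem_coe.2 (mem_edgeFinset.2 h.2)
  · rintro ⟨a, b⟩ hab ⟨c, d⟩ hcd h
    have h1 := (Finset.mem_filter.1 (Finset.mem_coe.1 hab)).2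
    have h2 := (Finset.mem_filter.1 (Finset.mem_coe.1 hcd)).2
    simp only at h h1 h2
    rcases Sym2.eq_iff.1 h with ⟨rfl, rfl⟩ | ⟨rfl, rfl⟩
    · rfl
    · exfalso
      have h3 : G.IsNClique 3 {v, a, b} := is3Clique_triple_iff.2 ⟨h1.1, h2.1, h1.2⟩
      exact hG _ h3

open Classical in
theorem darts_eq {V : Type} [Fintype V] (G : SimpleGraph V) :
    #(univ.filter (fun ab : V × V => G.Adj ab.1 ab.2)) = 2 * eN G := by
  unfold eN
  rw [← sum_degrees_eq_twice_card_edges, Finset.card_filter, ← Finset.univ_product_univ,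
    Finset.sum_product]
  refine Finset.sum_congr rfl fun a _ => ?_
  rw [← Finset.card_filter, ← G.card_neighborFinset_eq_degree, neighborFinset_eq_filter]

open Classical in
theorem base {K V : Type} [Fintype K] [Fintype V] {L : SimpleGraph K} {G : SimpleGraph V}
    {x y : K} (hxy : L.Adj x y) : #(R G L {x, y}) ≤ 2 * eN G := by
  rw [← darts_eq]
  refine Finset.card_le_card_of_surjOn
    (fun ab : V × V => Function.update (Function.update (fun _ => none) y (some ab.2)) x
      (some ab.1)) ?_
  intro g hg
  obtain ⟨φ, rfl⟩ := mem_R.1 (Finset.mem_coe.1 hg)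
  refine ⟨(φ x, φ y), ?_, ?_⟩
  · exact Finset.mem_coe.2 (Finset.mem_filter.2 ⟨mem_univ _, φ.toHom.map_adj hxy⟩)
  · funext w
    simp only
    by_cases hwx : w = x
    · subst hwx
      rw [Function.update_self, res_mem φ (by simp)]
    · rw [Function.update_of_ne hwx]
      by_cases hwy : w = y
      · subst hwy
        rw [Function.update_self, res_mem φ (by simp)]
      · rw [Function.update_of_ne hwy, res_not_mem φ (by simp [hwx, hwy])]

open Classical in
theorem step {K V : Type} [Fintype K] [Fintype V] {L : SimpleGraph K} {G : SimpleGraph V}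
    (hG : G.CliqueFree 3) {S : Finset K} {w x y : K} (hw : w ∈ S) (hx : x ∉ S) (hy : y ∉ S)
    (hwx : L.Adj w x) (hxy : L.Adj x y) :
    #(R G L (insert x (insert y S))) ≤ eN G * #(R G L S) := by
  refine Finset.card_le_mul_card_image_of_maps_to
    (f := fun g : K → Option V => fun w => if w ∈ S then g w else none) ?_ _ ?_
  · intro g hg
    obtain ⟨φ, rfl⟩ := mem_R.1 hg
    refine mem_R.2 ⟨φ, ?_⟩
    funext u
    by_cases hu : u ∈ S
    · rw [res_mem φ hu]
      simp only [hu, if_true]
      rw [res_mem φ (mem_insert_of_mem (mem_insert_of_mem hu))]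
    · rw [res_not_mem φ hu]
      simp only [hu, if_false]
  · intro g0 hg0
    obtain ⟨φ0, rfl⟩ := mem_R.1 hg0
    refine le_trans ?_ (pairs_le hG (φ0 w))
    refine Finset.card_le_card_of_surjOn
      (fun ab : V × V => Function.update (Function.update (res S φ0) y (some ab.2)) x
        (some ab.1)) ?_
    intro g hg
    rw [Finset.coe_filter] at hg
    obtain ⟨hg1, hg2⟩ := hg
    obtain ⟨φ, rfl⟩ := mem_R.1 hg1
    have hagree : ∀ u ∈ S, φ u = φ0 u := by
      intro u hu
      have h1 := congrFun hg2 u
      simp only [hu, if_true] at h1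
      rw [res_mem φ (mem_insert_of_mem (mem_insert_of_mem hu)), res_mem φ0 hu] at h1
      exact Option.some_injective _ h1
    refine ⟨(φ x, φ y), ?_, ?_⟩
    · refine Finset.mem_coe.2 (Finset.mem_filter.2 ⟨mem_univ _, ?_, φ.toHom.map_adj hxy⟩)
      rw [← hagree w hw]
      exact φ.toHom.map_adj hwx
    · funext u
      simp only
      by_cases hux : u = x
      · subst hux
        rw [Function.update_self, res_mem φ (mem_insert_self _ _)]
      · rw [Function.update_of_ne hux]
        by_cases huy : u = y
        · subst huy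
          rw [Function.update_self, res_mem φ (mem_insert_of_mem (mem_insert_self _ _))]
        · rw [Function.update_of_ne huy]
          by_cases hu : u ∈ S
          · rw [res_mem φ0 hu, res_mem φ (mem_insert_of_mem (mem_insert_of_mem hu)), hagree u hu]
          · rw [res_not_mem φ0 hu, res_not_mem φ (by simp [hux, huy, hu])]

theorem iter {K V : Type} [Fintype K] [Fintype V] {L : SimpleGraph K} {G : SimpleGraph V}
    (hL : L.Connected) (hG : G.CliqueFree 3) {M : K → K} (hM : ∀ x, M (M x) = x)
    (hadj : ∀ x, L.Adj x (M x)) (m : ℕ) : ∀ S : Finset K, S.Nonempty → (∀ x ∈ S, M x ∈ S) →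
      Fintype.card K - #S = m →
      ∃ h : ℕ, Fintype.card K = #S + 2 * h ∧ #(R G L univ) ≤ eN G ^ h * #(R G L S) := by
  classical
  induction m using Nat.strong_induction_on with
  | _ m ih =>
    intro S hS hSM hm
    by_cases hSu : S = univ
    · refine ⟨0, ?_, ?_⟩
      · rw [hSu, Finset.card_univ]
        omega
      · rw [hSu, pow_zero, one_mul]
    · obtain ⟨s, hs⟩ := hS
      have hex : ∃ t, t ∉ S := by
        by_contra hcon
        push Not at hcon
        exact hSu (Finset.eq_univ_iff_forall.2 hcon)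
      obtain ⟨t, ht⟩ := hex
      obtain ⟨p⟩ := hL.preconnected s t
      obtain ⟨d, -, hd1, hd2⟩ := p.exists_boundary_dart (S : Set K) hs ht
      have hw : d.fst ∈ S := hd1
      have hx : d.snd ∉ S := hd2
      have hy : M d.snd ∉ S := fun h => hx (by
        have := hSM _ h
        rwa [hM] at this)
      have hne : d.snd ≠ M d.snd := (hadj d.snd).ne
      have hcard : #(insert d.snd (insert (M d.snd) S)) = #S + 2 := by
        rw [card_insert_of_notMem (by simp [hne, hx]), card_insert_of_notMem hy]
      have hle := Finset.card_le_univ (insert d.snd (insert (M d.snd) S))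
      obtain ⟨h, h1, h2⟩ := ih (Fintype.card K - #(insert d.snd (insert (M d.snd) S)))
        (by rw [hcard] at hle ⊢; omega) (insert d.snd (insert (M d.snd) S))
        (insert_nonempty _ _) (by
          intro u hu
          rw [mem_insert, mem_insert] at hu
          rcases hu with rfl | rfl | hu
          · exact mem_insert_of_mem (mem_insert_self _ _)
          · rw [hM]; exact mem_insert_self _ _
          · exact mem_insert_of_mem (mem_insert_of_mem (hSM u hu))) rfl
      refine ⟨h + 1, by rw [h1, hcard]; ring, ?_⟩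
      have h3 := step hG (L := L) hw hx hy d.adj (hadj d.snd)
      calc #(R G L univ) ≤ eN G ^ h * #(R G L (insert d.snd (insert (M d.snd) S))) := h2
        _ ≤ eN G ^ h * (eN G * #(R G L S)) := Nat.mul_le_mul_left _ h3
        _ = eN G ^ (h + 1) * #(R G L S) := by ring

end MatAux

open MatAux UpperAux

theorem labelled_matching_le {K : Type} [Fintype K] (L : SimpleGraph K) (hL : L.Connected)
    (M : K → K) (hM : ∀ x, M (M x) = x) (hadj : ∀ x, L.Adj x (M x)) {V : Type} [Fintype V]
    (G : SimpleGraph V) (hG : G.CliqueFree 3) :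
    (G.labelledCopyCount L : ℝ) ≤ 2 * ((Fintype.card V : ℝ) / 2) ^ Fintype.card K := by
  classical
  obtain ⟨x0⟩ := hL.nonempty
  obtain ⟨h, h1, h2⟩ := iter hL hG hM hadj _ {x0, M x0} ⟨x0, by simp⟩ (by
    intro u hu
    rw [mem_insert, mem_singleton] at hu
    rcases hu with rfl | rfl
    · simp
    · rw [hM]; simp) rfl
  have h3 : #({x0, M x0} : Finset K) = 2 := card_pair (hadj x0).ne
  have h4 := base (G := G) (hadj x0)
  have h5 : G.labelledCopyCount L ≤ 2 * eN G ^ (h + 1) := by
    rw [card_R_univ]
    calc #(R G L univ) ≤ eN G ^ h * #(R G L {x0, M x0}) := h2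
      _ ≤ eN G ^ h * (2 * eN G) := Nat.mul_le_mul_left _ h4
      _ = 2 * eN G ^ (h + 1) := by ring
  have h6 : (eN G : ℝ) ≤ ((Fintype.card V : ℝ) / 2) ^ 2 := by
    have h7 : ((4 * eN G : ℕ) : ℝ) ≤ ((Fintype.card V ^ 2 : ℕ) : ℝ) := by
      exact_mod_cast four_eN hG
    push_cast at h7
    rw [div_pow]
    linarith
  have h8 : Fintype.card K = 2 * (h + 1) := by
    rw [h3] at h1
    omega
  rw [h8, pow_mul]
  calc (G.labelledCopyCount L : ℝ) ≤ ((2 * eN G ^ (h + 1) : ℕ) : ℝ) := by exact_mod_cast h5
    _ = 2 * (eN G : ℝ) ^ (h + 1) := by push_cast; ring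
    _ ≤ 2 * (((Fintype.card V : ℝ) / 2) ^ 2) ^ (h + 1) := by
        refine mul_le_mul_of_nonneg_left ?_ (by norm_num)
        exact pow_le_pow_left₀ (Nat.cast_nonneg _) h6 _

end Pb736
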