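import Mathlib

/-!
# Module Zyk: the number of ordered cliques in a `K_{r+1}`-free graph (Zykov)

PROOF (Moon-Moser, ordered form).  Let `o m` be the number of labelled copies of `K_m` (= tuples `f : Fin m → V`, pairwise
adjacent), `n = card V`.  For a tuple `A` of length `m` let `c A` be the number of common neighbours, so
`o (m + 1) = ∑_A c A`.  For a clique tuple `A` of length `m ≥ 1` and `i < m` let `A - i` be the tuple without entry `i`.
`∑_i c (A - i) ≤ n + (m - 1) c A`: a vertex `v` is a common neighbour of `A - i` for all `i` if it is a common neighbour of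
`A` (`m ≥ 2`; `m = 1` is trivial), and otherwise for at most one `i`.
Sum over `A`: `m ∑_B (c B)^2 ≤ n * o m + (m - 1) * o (m + 1)` (`B` of length `m - 1`; permuting entries shows that
`∑_A c (A - i)` does not depend on `i`, and `A = (B, a)` gives `∑_B c B * c B`), and by Cauchy-Schwarz
`(o m)^2 ≤ o (m - 1) * ∑_B (c B)^2`.  So `m * (o m)^2 ≤ o (m - 1) * (n * o m + (m - 1) * o (m + 1))`   (MM).
Now `o (r + 1) = 0`.  By downward induction from `m = r`:  `r * o m ≤ n * (r - m + 1) * o (m - 1)` for `1 ≤ m ≤ r`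
(for `m = r` by (MM) with `o (r+1) = 0`; step: insert the bound for `o (m + 1)` into (MM), the case `o m = 0` is trivial).
Multiply for `m = 1, ..., m`: `o m ≤ r.descFactorial m * (n / r) ^ m` for `m ≤ r`; for `m > r` both sides are `0`.
-/

set_option autoImplicit false

namespace Pb736

open SimpleGraph Finset

namespace ZykAux

variable {V : Type} [Fintype V] (G : SimpleGraph V)

/-- ordered cliques -/
def Cq {m : ℕ} (A : Fin m → V) : Prop := ∀ i j, i ≠ j → G.Adj (A i) (A j)

open Classical in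
/-- the set of ordered cliques with `m` members -/
noncomputable def cqs (m : ℕ) : Finset (Fin m → V) := univ.filter (Cq G)

open Classical in
/-- common neighbours -/
noncomputable def cn {m : ℕ} (A : Fin m → V) : Finset V :=
  univ.filter fun v => ∀ i, G.Adj v (A i)

/-- number of common neighbours -/
noncomputable def c {m : ℕ} (A : Fin m → V) : ℝ := ((cn G A).card : ℝ)

/-- number of ordered cliques -/
noncomputable def o (m : ℕ) : ℝ := ((cqs G m).card : ℝ)

/-- the tuple without the entry `i` -/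
def rm {m : ℕ} (i : Fin (m + 1)) (A : Fin (m + 1) → V) : Fin m → V := fun j => A (i.succAbove j)

/-- the tuple with the entry `a` at the place `i` -/
def ins {m : ℕ} (i : Fin (m + 1)) (a : V) (B : Fin m → V) : Fin (m + 1) → V :=
  Fin.insertNth (α := fun _ => V) i a B

theorem ins_self {m : ℕ} (i : Fin (m + 1)) (a : V) (B : Fin m → V) : ins i a B i = a := by
  simp [ins]

theorem ins_above {m : ℕ} (i : Fin (m + 1)) (a : V) (B : Fin m → V) (j : Fin m) :
    ins i a B (i.succAbove j) = B j := by
  simp [ins]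

theorem rm_ins {m : ℕ} (i : Fin (m + 1)) (a : V) (B : Fin m → V) : rm i (ins i a B) = B := by
  funext j
  exact ins_above i a B j

theorem ins_rm {m : ℕ} (i : Fin (m + 1)) (A : Fin (m + 1) → V) : ins i (A i) (rm i A) = A := by
  funext k
  rcases Fin.eq_self_or_eq_succAbove i k with rfl | ⟨j, rfl⟩
  · exact ins_self _ _ _
  · exact ins_above _ _ _ _

theorem mem_cqs {m : ℕ} (A : Fin m → V) : A ∈ cqs G m ↔ Cq G A := by
  simp [cqs]

theorem mem_cn {m : ℕ} (A : Fin m → V) (v : V) : v ∈ cn G A ↔ ∀ i, G.Adj v (A i) := by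
  simp [cn]

theorem cq_iff {m : ℕ} (i : Fin (m + 1)) (A : Fin (m + 1) → V) :
    Cq G A ↔ Cq G (rm i A) ∧ ∀ j, G.Adj (A i) (rm i A j) := by
  constructor
  · intro h
    refine ⟨fun j k hjk => ?_, fun j => ?_⟩
    · exact h _ _ fun e => hjk (Fin.succAbove_right_injective e)
    · exact h _ _ (Fin.succAbove_ne i j).symm
  · rintro ⟨h1, h2⟩ j k hjk
    rcases Fin.eq_self_or_eq_succAbove i j with hj | ⟨j', hj⟩
    · rcases Fin.eq_self_or_eq_succAbove i k with hk | ⟨k', hk⟩
      · exact absurd (hj.trans hk.symm) hjk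
      · rw [hj, hk]
        exact h2 k'
    · rcases Fin.eq_self_or_eq_succAbove i k with hk | ⟨k', hk⟩
      · rw [hj, hk]
        exact (h2 j').symm
      · rw [hj, hk]
        exact h1 j' k' fun e => hjk (by rw [hj, hk, e])

theorem sum_remove {m : ℕ} (i : Fin (m + 1)) (φ : (Fin m → V) → ℝ) :
    ∑ A ∈ cqs G (m + 1), φ (rm i A) = ∑ B ∈ cqs G m, c G B * φ B := by
  classical
  have h1 : ∀ B ∈ cqs G m, c G B * φ B = ∑ _a ∈ cn G B, φ B := by
    intro B _
    rw [Finset.sum_const, nsmul_eq_mul]
    rfl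
  rw [Finset.sum_congr rfl h1, Finset.sum_sigma']
  refine Finset.sum_bij' (fun A _ => (⟨rm i A, A i⟩ : (_ : Fin m → V) × V))
    (fun p _ => ins i p.2 p.1) ?_ ?_ ?_ ?_ ?_
  · intro A hA
    rw [mem_cqs, cq_iff G i] at hA
    rw [Finset.mem_sigma, mem_cqs, mem_cn]
    exact hA
  · rintro ⟨B, a⟩ hp
    rw [Finset.mem_sigma, mem_cqs, mem_cn] at hp
    rw [mem_cqs, cq_iff G i, rm_ins, ins_self]
    exact hp
  · intro A _
    exact ins_rm i A
  · rintro ⟨B, a⟩ _
    simp only [rm_ins, ins_self]
  · intro A _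
    rfl

theorem o_succ (m : ℕ) : o G (m + 1) = ∑ B ∈ cqs G m, c G B := by
  have h := sum_remove G (0 : Fin (m + 1)) (fun _ => (1 : ℝ))
  simp only [Finset.sum_const, nsmul_eq_mul, mul_one] at h
  exact h

theorem c_eq {m : ℕ} [DecidableEq V] (A : Fin m → V) :
    c G A = ∑ v : V, if v ∈ cn G A then (1 : ℝ) else 0 := by
  unfold c
  rw [Finset.sum_ite_mem, Finset.univ_inter, Finset.sum_const, nsmul_eq_mul, mul_one]

theorem sum_c_rm {m : ℕ} (A : Fin (m + 1) → V) :
    ∑ i, c G (rm i A) ≤ (Fintype.card V : ℝ) + m * c G A := by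
  classical
  have h1 : ∑ i, c G (rm i A) =
      ∑ v : V, ∑ i, if v ∈ cn G (rm i A) then (1 : ℝ) else 0 := by
    rw [Finset.sum_comm]
    exact Finset.sum_congr rfl fun i _ => c_eq G (rm i A)
  have h2 : (Fintype.card V : ℝ) + m * c G A =
      ∑ v : V, (1 + m * (if v ∈ cn G A then (1 : ℝ) else 0)) := by
    rw [Finset.sum_add_distrib, ← Finset.mul_sum, ← c_eq, Finset.sum_const, Finset.card_univ,
      nsmul_eq_mul, mul_one]
  rw [h1, h2]
  refine Finset.sum_le_sum fun v _ => ?_
  by_cases hv : v ∈ cn G A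
  · rw [if_pos hv]
    calc ∑ i : Fin (m + 1), (if v ∈ cn G (rm i A) then (1 : ℝ) else 0)
        ≤ ∑ _i : Fin (m + 1), (1 : ℝ) := by
          refine Finset.sum_le_sum fun i _ => ?_
          split_ifs
          · exact le_rfl
          · exact zero_le_one
      _ = 1 + m * 1 := by
          rw [Finset.sum_const, Finset.card_univ, Fintype.card_fin, nsmul_eq_mul]
          push_cast
          ring
  · rw [if_neg hv, mul_zero, add_zero]
    rw [mem_cn] at hv
    push Not at hv
    obtain ⟨j, hj⟩ := hv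
    rw [Finset.sum_eq_single j]
    · split_ifs
      · exact le_rfl
      · exact zero_le_one
    · intro i _ hij
      rw [if_neg]
      intro h
      rw [mem_cn] at h
      obtain ⟨j', hj'⟩ := Fin.exists_succAbove_eq (Ne.symm hij)
      apply hj
      rw [← hj']
      exact h j'
    · intro h
      exact absurd (Finset.mem_univ j) h

theorem moon_moser (m : ℕ) :
    ((m : ℝ) + 1) * o G (m + 1) ^ 2 ≤
      o G m * ((Fintype.card V : ℝ) * o G (m + 1) + m * o G (m + 2)) := by
  have h1 : ∑ A ∈ cqs G (m + 1), ∑ i, c G (rm i A) =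
      ((m : ℝ) + 1) * ∑ B ∈ cqs G m, c G B ^ 2 := by
    rw [Finset.sum_comm]
    have h2 : ∀ i : Fin (m + 1), ∑ A ∈ cqs G (m + 1), c G (rm i A) =
        ∑ B ∈ cqs G m, c G B ^ 2 := by
      intro i
      rw [sum_remove G i (fun B => c G B)]
      exact Finset.sum_congr rfl fun B _ => (pow_two _).symm
    rw [Finset.sum_congr rfl fun i _ => h2 i, Finset.sum_const, Finset.card_univ,
      Fintype.card_fin, nsmul_eq_mul]
    push_cast
    ring
  have h3 : ∑ A ∈ cqs G (m + 1), ∑ i, c G (rm i A) ≤
      (Fintype.card V : ℝ) * o G (m + 1) + m * o G (m + 2) := by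
    calc ∑ A ∈ cqs G (m + 1), ∑ i, c G (rm i A)
        ≤ ∑ A ∈ cqs G (m + 1), ((Fintype.card V : ℝ) + m * c G A) :=
          Finset.sum_le_sum fun A _ => sum_c_rm G A
      _ = (Fintype.card V : ℝ) * o G (m + 1) + m * o G (m + 2) := by
          rw [Finset.sum_add_distrib, ← Finset.mul_sum, ← o_succ, Finset.sum_const, nsmul_eq_mul]
          unfold o
          ring
  have h4 : o G (m + 1) ^ 2 ≤ o G m * ∑ B ∈ cqs G m, c G B ^ 2 := by
    rw [o_succ]
    exact sq_sum_le_card_mul_sum_sq
  have ho : 0 ≤ o G m := Nat.cast_nonneg _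
  calc ((m : ℝ) + 1) * o G (m + 1) ^ 2
      ≤ ((m : ℝ) + 1) * (o G m * ∑ B ∈ cqs G m, c G B ^ 2) :=
        mul_le_mul_of_nonneg_left h4 (by positivity)
    _ = o G m * (((m : ℝ) + 1) * ∑ B ∈ cqs G m, c G B ^ 2) := by ring
    _ = o G m * ∑ A ∈ cqs G (m + 1), ∑ i, c G (rm i A) := by rw [h1]
    _ ≤ _ := mul_le_mul_of_nonneg_left h3 ho

theorem o_eq_zero {r m : ℕ} (hG : G.CliqueFree (r + 1)) (hm : r + 1 ≤ m) : o G m = 0 := by
  classical
  have hG' : G.CliqueFree m := hG.mono hm
  unfold o
  rw [Nat.cast_eq_zero, Finset.card_eq_zero, Finset.eq_empty_iff_forall_notMem]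
  intro A hA
  rw [mem_cqs] at hA
  have hinj : Function.Injective A := by
    intro i j hij
    by_contra hne
    have := hA i j hne
    rw [hij] at this
    exact G.loopless.irrefl _ this
  refine hG' (univ.image A) ⟨?_, ?_⟩
  · intro x hx y hy hxy
    rw [Finset.mem_coe, Finset.mem_image] at hx hy
    obtain ⟨i, _, rfl⟩ := hx
    obtain ⟨j, _, rfl⟩ := hy
    exact hA i j fun e => hxy (by rw [e])
  · rw [Finset.card_image_of_injective _ hinj, Finset.card_univ, Fintype.card_fin]

theorem ratio {r : ℕ} (hG : G.CliqueFree (r + 1)) (k : ℕ) :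
    ∀ j : ℕ, j + k + 1 = r → (r : ℝ) * o G (j + 1) ≤
      (Fintype.card V : ℝ) * ((r : ℝ) - j) * o G j := by
  induction k with
  | zero =>
    intro j hj
    have ho : 0 ≤ o G (j + 1) := Nat.cast_nonneg _
    have ho' : 0 ≤ o G j := Nat.cast_nonneg _
    have hmm := moon_moser G j
    rw [o_eq_zero G hG (m := j + 2) (by omega), mul_zero, add_zero] at hmm
    have hr : (r : ℝ) = j + 1 := by
      rw [← hj]
      push_cast
      ring
    have hrj : (r : ℝ) - j = 1 := by rw [hr]; ring
    rw [hrj, mul_one, hr]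
    rcases ho.eq_or_lt with h0 | h0
    · rw [← h0, mul_zero]
      positivity
    · have h1 : (((j : ℝ) + 1) * o G (j + 1)) * o G (j + 1) ≤
          ((Fintype.card V : ℝ) * o G j) * o G (j + 1) := by
        calc (((j : ℝ) + 1) * o G (j + 1)) * o G (j + 1) = ((j : ℝ) + 1) * o G (j + 1) ^ 2 := by ring
          _ ≤ o G j * ((Fintype.card V : ℝ) * o G (j + 1)) := hmm
          _ = ((Fintype.card V : ℝ) * o G j) * o G (j + 1) := by ring
      exact le_of_mul_le_mul_right h1 h0
  | succ k ih =>
    intro j hj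
    have ho : 0 ≤ o G (j + 1) := Nat.cast_nonneg _
    have ho' : 0 ≤ o G j := Nat.cast_nonneg _
    have hn : 0 ≤ (Fintype.card V : ℝ) := Nat.cast_nonneg _
    have hmm := moon_moser G j
    have hih := ih (j + 1) (by omega)
    push_cast at hih
    have hrj : (0 : ℝ) ≤ (r : ℝ) - j := by
      have : (j : ℝ) ≤ r := by
        have : j ≤ r := by omega
        exact_mod_cast this
      linarith
    rcases ho.eq_or_lt with h0 | h0
    · rw [← h0, mul_zero]
      positivity
    · have hr0 : (0 : ℝ) ≤ r := Nat.cast_nonneg _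
      have h1 : ((r : ℝ) * o G (j + 1)) * (((j : ℝ) + 1) * o G (j + 1)) ≤
          ((Fintype.card V : ℝ) * ((r : ℝ) - j) * o G j) * (((j : ℝ) + 1) * o G (j + 1)) := by
        calc ((r : ℝ) * o G (j + 1)) * (((j : ℝ) + 1) * o G (j + 1))
            = r * (((j : ℝ) + 1) * o G (j + 1) ^ 2) := by ring
          _ ≤ r * (o G j * ((Fintype.card V : ℝ) * o G (j + 1) + j * o G (j + 2))) :=
              mul_le_mul_of_nonneg_left hmm hr0
          _ = o G j * ((Fintype.card V : ℝ) * r * o G (j + 1) + j * (r * o G (j + 1 + 1))) := by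
              ring
          _ ≤ o G j * ((Fintype.card V : ℝ) * r * o G (j + 1) +
                j * ((Fintype.card V : ℝ) * ((r : ℝ) - (j + 1)) * o G (j + 1))) := by
              apply mul_le_mul_of_nonneg_left _ ho'
              have := mul_le_mul_of_nonneg_left hih (Nat.cast_nonneg (α := ℝ) j)
              linarith
          _ = ((Fintype.card V : ℝ) * ((r : ℝ) - j) * o G j) * (((j : ℝ) + 1) * o G (j + 1)) := by
              ring
      exact le_of_mul_le_mul_right h1 (by positivity)

theorem o_le {r : ℕ} (hr : 1 ≤ r) (hG : G.CliqueFree (r + 1)) (m : ℕ) :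
    o G m ≤ (r.descFactorial m : ℝ) * ((Fintype.card V : ℝ) / r) ^ m := by
  have hr0 : (0 : ℝ) < r := by exact_mod_cast hr
  induction m with
  | zero =>
    have h1 : o G 0 ≤ 1 := by
      unfold o
      have : (cqs G 0).card ≤ 1 := by
        refine (Finset.card_le_univ _).trans ?_
        simp
      exact_mod_cast this
    simpa using h1
  | succ j ih =>
    rcases Nat.lt_or_ge j r with hj | hj
    · have h1 := ratio G hG (r - j - 1) j (by omega)
      have hrj : (0 : ℝ) ≤ (r : ℝ) - j := by
        have : (j : ℝ) ≤ r := by exact_mod_cast hj.le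
        linarith
      have h2 : o G (j + 1) ≤ ((r : ℝ) - j) * ((Fintype.card V : ℝ) / r) * o G j := by
        have h3 : ((r : ℝ) - j) * ((Fintype.card V : ℝ) / r) * o G j =
            ((Fintype.card V : ℝ) * ((r : ℝ) - j) * o G j) / r := by
          field_simp
        rw [h3, le_div_iff₀ hr0, mul_comm]
        exact h1
      refine h2.trans ?_
      have h4 : ((r.descFactorial (j + 1) : ℕ) : ℝ) = ((r : ℝ) - j) * (r.descFactorial j : ℝ) := by
        rw [Nat.descFactorial_succ]
        push_cast [Nat.cast_sub hj.le]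
        ring
      rw [h4, pow_succ]
      have h5 : 0 ≤ ((r : ℝ) - j) * ((Fintype.card V : ℝ) / r) := by positivity
      calc ((r : ℝ) - j) * ((Fintype.card V : ℝ) / r) * o G j
          ≤ ((r : ℝ) - j) * ((Fintype.card V : ℝ) / r) *
            ((r.descFactorial j : ℝ) * ((Fintype.card V : ℝ) / r) ^ j) :=
            mul_le_mul_of_nonneg_left ih h5
        _ = _ := by ring
    · rw [o_eq_zero G hG (m := j + 1) (by omega)]
      positivity

theorem card_copy_le (m : ℕ) (inst : Fintype (Copy (⊤ : SimpleGraph (Fin m)) G)) :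
    @Fintype.card _ inst ≤ (cqs G m).card := by
  refine Finset.card_le_card_of_injOn (s := @Finset.univ _ inst) (fun f i => f i) ?_ ?_
  · intro f _
    rw [Finset.mem_coe, mem_cqs]
    intro i j hij
    exact f.toHom.map_adj ((SimpleGraph.top_adj i j).2 hij)
  · intro f _ g _ hfg
    exact Copy.ext fun a => congrFun hfg a

theorem count_le (m : ℕ) : (G.labelledCopyCount (⊤ : SimpleGraph (Fin m)) : ℝ) ≤ o G m := by
  have h : G.labelledCopyCount (⊤ : SimpleGraph (Fin m)) ≤ (cqs G m).card := by
    unfold SimpleGraph.labelledCopyCount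
    exact card_copy_le G m _
  unfold o
  exact Nat.cast_le.2 h

end ZykAux

theorem labelled_top_le (r m : ℕ) (hr : 1 ≤ r) {V : Type} [Fintype V] (G : SimpleGraph V)
    (hG : G.CliqueFree (r + 1)) :
    (G.labelledCopyCount (⊤ : SimpleGraph (Fin m)) : ℝ) ≤
      (r.descFactorial m : ℝ) * ((Fintype.card V : ℝ) / r) ^ m :=
  (ZykAux.count_le G m).trans (ZykAux.o_le G hr hG m)

end Pb736
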