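import Pool.Agent.Lib.Pb736.GlueDefs
import Pool.Agent.Lib.Pb736.Turan
import Pool.Agent.Lib.Pb736.Zyk

/-!
# Module Multi: balanced complete `r`-partite graphs are good
-/

set_option autoImplicit false

namespace Pb736

open SimpleGraph Finset

namespace MultiAux

/-- the vertices adjacent to all vertices of the tuple `x` except possibly the `i`-th -/
noncomputable def A {V : Type} [Fintype V] (G : SimpleGraph V) {r : ℕ} (x : Fin r → V) (i : Fin r) : Finset V := by
  classical exact univ.filter (fun v => ∀ k, k ≠ i → G.Adj v (x k))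

theorem mem_A {V : Type} [Fintype V] {G : SimpleGraph V} {r : ℕ} {x : Fin r → V} {i : Fin r} {v : V} :
    v ∈ A G x i ↔ ∀ k, k ≠ i → G.Adj v (x k) := by
  unfold A
  simp

theorem sum_A {V : Type} [Fintype V] {G : SimpleGraph V} {r : ℕ} (hG : G.CliqueFree (r + 1))
    (x : Copy (⊤ : SimpleGraph (Fin r)) G) : ∑ i, #(A G x i) ≤ Fintype.card V := by
  classical
  have hd : ∀ i ∈ (univ : Finset (Fin r)), ∀ j ∈ (univ : Finset (Fin r)), i ≠ j → Disjoint (A G x i) (A G x j) := by
    intro i _ j _ hij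
    rw [Finset.disjoint_left]
    intro v hv hv'
    rw [mem_A] at hv hv'
    have hall : ∀ k, G.Adj v (x k) := by
      intro k
      by_cases hk : k = i
      · exact hv' k (by rw [hk]; exact hij)
      · exact hv k hk
    refine hG (insert v (univ.image x)) ?_
    constructor
    · intro a ha b hb hab
      rw [coe_insert] at ha hb
      rcases ha with rfl | ha <;> rcases hb with rfl | hb
      · exact absurd rfl hab
      · rw [coe_image] at hb
        obtain ⟨k, -, rfl⟩ := hb
        exact hall k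
      · rw [coe_image] at ha
        obtain ⟨k, -, rfl⟩ := ha
        exact (hall k).symm
      · rw [coe_image] at ha hb
        obtain ⟨k, -, rfl⟩ := ha
        obtain ⟨l, -, rfl⟩ := hb
        have hkl : k ≠ l := fun h => hab (by rw [h])
        exact x.toHom.map_adj (show (⊤ : SimpleGraph (Fin r)).Adj k l from hkl)
    · have hi : Function.Injective (x : Fin r → V) := x.injective
      rw [card_insert_of_notMem, card_image_of_injective _ hi, card_univ, Fintype.card_fin]
      intro h
      obtain ⟨k, -, hk⟩ := mem_image.1 h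
      exact (hall k).ne hk.symm
  rw [← card_biUnion hd]
  exact card_le_univ _

theorem prod_A {V : Type} [Fintype V] {G : SimpleGraph V} {r : ℕ} (hr : 1 ≤ r) (hG : G.CliqueFree (r + 1))
    (x : Copy (⊤ : SimpleGraph (Fin r)) G) : ∏ i, (#(A G x i) : ℝ) ≤ ((Fintype.card V : ℝ) / r) ^ r := by
  have hr' : (0 : ℝ) < r := by exact_mod_cast hr
  have h1 := Real.geom_mean_le_arith_mean_weighted (univ : Finset (Fin r)) (fun _ => 1 / (r : ℝ))
    (fun i => (#(A G x i) : ℝ)) (fun _ _ => by positivity)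
    (by rw [sum_const, card_univ, Fintype.card_fin, nsmul_eq_mul]; field_simp) (fun _ _ => by positivity)
  have h2 : ∑ i : Fin r, 1 / (r : ℝ) * (#(A G x i) : ℝ) ≤ (Fintype.card V : ℝ) / r := by
    rw [← mul_sum, one_div, inv_mul_eq_div]
    have h3 : ((∑ i, #(A G x i) : ℕ) : ℝ) ≤ Fintype.card V := by exact_mod_cast sum_A hG x
    push_cast at h3
    gcongr
  have h3 := h1.trans h2
  have h4 : (∏ i : Fin r, (#(A G x i) : ℝ) ^ (1 / (r : ℝ))) ^ r ≤ ((Fintype.card V : ℝ) / r) ^ r :=
    pow_le_pow_left₀ (prod_nonneg fun i _ => by positivity) h3 r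
  refine le_trans (le_of_eq ?_) h4
  rw [← prod_pow]
  refine prod_congr rfl fun i _ => ?_
  rw [← Real.rpow_natCast, ← Real.rpow_mul (by positivity), one_div, inv_mul_cancel₀ hr'.ne', Real.rpow_one]

/-- the first layer of a copy of the blow-up -/
def lay {V : Type} {G : SimpleGraph V} {r s : ℕ} (φ : Copy (blow (⊤ : SimpleGraph (Fin r)) (s + 1)) G)
    (j : Fin (s + 1)) : Copy (⊤ : SimpleGraph (Fin r)) G where
  toHom := ⟨fun i => φ (i, j), fun {a b} hab => φ.toHom.map_adj
    (show (blow (⊤ : SimpleGraph (Fin r)) (s + 1)).Adj (a, j) (b, j) from hab)⟩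
  injective' := by
    intro a b hab
    exact congrArg Prod.fst (φ.injective hab)

theorem lay_apply {V : Type} {G : SimpleGraph V} {r s : ℕ} (φ : Copy (blow (⊤ : SimpleGraph (Fin r)) (s + 1)) G)
    (j : Fin (s + 1)) (i : Fin r) : lay φ j i = φ (i, j) := rfl

theorem labelled_blow_le {r s : ℕ} (hr : 1 ≤ r) {V : Type} [Fintype V] (G : SimpleGraph V)
    (hG : G.CliqueFree (r + 1)) :
    (G.labelledCopyCount (blow (⊤ : SimpleGraph (Fin r)) (s + 1)) : ℝ) ≤
      (r.factorial : ℝ) * ((Fintype.card V : ℝ) / r) ^ (r * (s + 1)) := by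
  classical
  have hfin := TuranAux.finite_copy G (⊤ : SimpleGraph (Fin r))
  have := Fintype.ofFinite (Copy (⊤ : SimpleGraph (Fin r)) G)
  have h1 : G.labelledCopyCount (blow (⊤ : SimpleGraph (Fin r)) (s + 1)) ≤
      ∑ x : Copy (⊤ : SimpleGraph (Fin r)) G, (∏ i, #(A G x i)) ^ s := by
    rw [TuranAux.label_card]
    have h2 : ∑ x : Copy (⊤ : SimpleGraph (Fin r)) G, (∏ i, #(A G x i)) ^ s =
        Nat.card (Σ x : Copy (⊤ : SimpleGraph (Fin r)) G, (Fin s → ∀ i : Fin r, A G x i)) := by
      rw [Nat.card_eq_fintype_card, Fintype.card_sigma]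
      refine sum_congr rfl fun x _ => ?_
      rw [Fintype.card_fun, Fintype.card_pi, Fintype.card_fin]
      simp only [Fintype.card_coe]
    rw [h2]
    refine Nat.card_le_card_of_injective
      (fun φ => ⟨lay φ 0, fun j i => ⟨φ (i, j.succ), by
        rw [mem_A]
        intro k hk
        exact φ.toHom.map_adj (show (blow (⊤ : SimpleGraph (Fin r)) (s + 1)).Adj (i, j.succ) (k, 0) from hk.symm)⟩⟩) ?_
    intro φ ψ h
    rw [Sigma.mk.injEq] at h
    obtain ⟨h3, h4⟩ := h
    have h5 : ∀ i, φ (i, 0) = ψ (i, 0) := by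
      intro i
      have := congrArg (fun f : Copy (⊤ : SimpleGraph (Fin r)) G => f i) h3
      exact this
    have h6 : ∀ (x y : Copy (⊤ : SimpleGraph (Fin r)) G) (f : Fin s → ∀ i : Fin r, A G x i)
        (g : Fin s → ∀ i : Fin r, A G y i), x = y → HEq f g → ∀ j i, ((f j i : V)) = (g j i : V) := by
      rintro x _ f g rfl hfg j i
      rw [eq_of_heq hfg]
    have h7 := h6 _ _ _ _ h3 h4
    apply Copy.ext
    rintro ⟨i, j⟩
    refine Fin.cases ?_ (fun j' => ?_) j
    · exact h5 i
    · exact h7 j' i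
  have h2 : (G.labelledCopyCount (⊤ : SimpleGraph (Fin r)) : ℝ) ≤
      (r.factorial : ℝ) * ((Fintype.card V : ℝ) / r) ^ r := by
    have := labelled_top_le r r hr G hG
    rwa [Nat.descFactorial_self] at this
  rw [TuranAux.label_card, Nat.card_eq_fintype_card] at h2
  have h1' : (G.labelledCopyCount (blow (⊤ : SimpleGraph (Fin r)) (s + 1)) : ℝ) ≤
      ∑ x : Copy (⊤ : SimpleGraph (Fin r)) G, (∏ i, (#(A G x i) : ℝ)) ^ s := by exact_mod_cast h1
  calc (G.labelledCopyCount (blow (⊤ : SimpleGraph (Fin r)) (s + 1)) : ℝ)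
      ≤ ∑ x : Copy (⊤ : SimpleGraph (Fin r)) G, (∏ i, (#(A G x i) : ℝ)) ^ s := h1'
    _ ≤ ∑ _x : Copy (⊤ : SimpleGraph (Fin r)) G, (((Fintype.card V : ℝ) / r) ^ r) ^ s := by
        refine sum_le_sum fun x _ => ?_
        exact pow_le_pow_left₀ (prod_nonneg fun i _ => by positivity) (prod_A hr hG x) s
    _ = (Fintype.card (Copy (⊤ : SimpleGraph (Fin r)) G) : ℝ) * (((Fintype.card V : ℝ) / r) ^ r) ^ s := by
        rw [sum_const, nsmul_eq_mul, card_univ]
    _ ≤ ((r.factorial : ℝ) * ((Fintype.card V : ℝ) / r) ^ r) * (((Fintype.card V : ℝ) / r) ^ r) ^ s := by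
        gcongr
    _ = (r.factorial : ℝ) * ((Fintype.card V : ℝ) / r) ^ (r * (s + 1)) := by
        rw [mul_assoc, ← pow_succ', ← pow_mul]

end MultiAux

open MultiAux

/-- balanced complete `r`-partite graphs are `Good r` -/
theorem good_multi {r s : ℕ} (hr : 1 ≤ r) (hs : 1 ≤ s) {K : Type} [Fintype K] (L : SimpleGraph K)
    (hL : Nonempty (L ≃g blow (⊤ : SimpleGraph (Fin r)) s)) : Good r L := by
  intro V iV G hG
  obtain ⟨s, rfl⟩ : ∃ s', s = s' + 1 := ⟨s - 1, by omega⟩
  obtain ⟨e⟩ := hL
  have hK : Fintype.card K = r * (s + 1) := by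
    rw [Fintype.card_congr e.toEquiv, Fintype.card_prod, Fintype.card_fin, Fintype.card_fin]
  have h1 : G.labelledCopyCount L ≤ G.labelledCopyCount (blow (⊤ : SimpleGraph (Fin r)) (s + 1)) := by
    rw [TuranAux.label_card, TuranAux.label_card]
    have := TuranAux.finite_copy G (blow (⊤ : SimpleGraph (Fin r)) (s + 1))
    refine Nat.card_le_card_of_injective
      (fun φ : Copy L G => (⟨⟨fun i => φ (e.symm i), fun {a b} hab =>
        φ.toHom.map_adj (e.symm.map_adj_iff.2 hab)⟩, fun a b h => e.symm.injective (φ.injective h)⟩ :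
          Copy (blow (⊤ : SimpleGraph (Fin r)) (s + 1)) G)) ?_
    intro φ ψ h
    apply Copy.ext
    intro w
    have h3 : φ (e.symm (e w)) = ψ (e.symm (e w)) :=
      congrArg (fun f : Copy (blow (⊤ : SimpleGraph (Fin r)) (s + 1)) G => f (e w)) h
    rwa [RelIso.symm_apply_apply] at h3
  have h3 : r.factorial ≤ Nat.card (L.Coloring (Fin r)) := by
    classical
    have hf : Finite (L.Coloring (Fin r)) :=
      Finite.of_injective (fun f : L.Coloring (Fin r) => (f : K → Fin r)) fun f g h => DFunLike.coe_injective h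
    have h4 : Nat.card (Equiv.Perm (Fin r)) = r.factorial := by
      rw [Nat.card_eq_fintype_card, Fintype.card_perm, Fintype.card_fin]
    rw [← h4]
    refine Nat.card_le_card_of_injective
      (fun σ : Equiv.Perm (Fin r) => (Coloring.mk (fun x => σ (e x).1) (by
        intro a b hab h
        have h5 : (blow (⊤ : SimpleGraph (Fin r)) (s + 1)).Adj (e a) (e b) := e.map_adj_iff.2 hab
        exact (show (e a).1 ≠ (e b).1 from h5) (σ.injective h)) : L.Coloring (Fin r))) ?_
    intro σ τ h
    apply Equiv.ext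
    intro i
    have h5 : σ (e (e.symm (i, 0))).1 = τ (e (e.symm (i, 0))).1 :=
      congrArg (fun c : L.Coloring (Fin r) => c (e.symm (i, 0))) h
    rwa [RelIso.apply_symm_apply] at h5
  have h2 := labelled_blow_le (s := s) hr G hG
  have h1' : (G.labelledCopyCount L : ℝ) ≤ G.labelledCopyCount (blow (⊤ : SimpleGraph (Fin r)) (s + 1)) := by
    exact_mod_cast h1
  have h3' : (r.factorial : ℝ) ≤ Nat.card (L.Coloring (Fin r)) := by exact_mod_cast h3
  rw [hK]
  refine h1'.trans (h2.trans ?_)
  gcongr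

end Pb736
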