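import Pool.Agent.Lib.Pb736.GlueDefs
import Pool.Agent.Lib.Pb736.Zyk
import Pool.Agent.Lib.Pb736.Turan
import Pool.Agent.Lib.Pb736.Mat
import Pool.Agent.Lib.Pb736.Multi

/-!
# Module GlueGood: complete graphs, and for `r = 2` connected bipartite graphs with a perfect matching, are good
-/

set_option autoImplicit false

namespace Pb736

open SimpleGraph Finset

/-- complete graphs are `Good r` for every `r ≥ 1` (Zykov) -/
theorem good_complete {r : ℕ} (hr : 1 ≤ r) {K : Type} [Fintype K] (L : SimpleGraph K)
    (hL : ∀ a b, a ≠ b → L.Adj a b) : Good r L := by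
  intro V iV G hG
  have h1 : G.labelledCopyCount L ≤ G.labelledCopyCount (⊤ : SimpleGraph (Fin (Fintype.card K))) := by
    rw [TuranAux.label_card, TuranAux.label_card]
    have := TuranAux.finite_copy G (⊤ : SimpleGraph (Fin (Fintype.card K)))
    classical
    let e : Fin (Fintype.card K) ≃ K := (Fintype.equivFin K).symm
    refine Nat.card_le_card_of_injective
      (fun φ : Copy L G => (⟨⟨fun i => φ (e i), fun {a b} hab =>
        φ.toHom.map_adj (hL _ _ fun h => hab (e.injective h))⟩, fun a b h => e.injective (φ.injective h)⟩ :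
          Copy (⊤ : SimpleGraph (Fin (Fintype.card K))) G)) ?_
    intro φ ψ h
    apply Copy.ext
    intro w
    have h2 := congrArg (fun f : Copy (⊤ : SimpleGraph (Fin (Fintype.card K))) G => f (e.symm w)) h
    have h3 : φ (e (e.symm w)) = ψ (e (e.symm w)) := h2
    rwa [Equiv.apply_symm_apply] at h3
  have h2 := labelled_top_le r (Fintype.card K) hr G hG
  have h3 : r.descFactorial (Fintype.card K) ≤ Nat.card (L.Coloring (Fin r)) := by
    classical
    have hf : Finite (L.Coloring (Fin r)) :=
      Finite.of_injective (fun f : L.Coloring (Fin r) => (f : K → Fin r)) fun f g h => DFunLike.coe_injective h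
    have h4 : Nat.card (K ↪ Fin r) = r.descFactorial (Fintype.card K) := by
      rw [Nat.card_eq_fintype_card, Fintype.card_embedding_eq, Fintype.card_fin]
    rw [← h4]
    refine Nat.card_le_card_of_injective
      (fun e => (Coloring.mk (fun x => e x) (by
        intro a b hab h
        exact hab.ne (e.injective h)) : L.Coloring (Fin r))) ?_
    intro e e' h
    apply DFunLike.ext
    intro x
    exact congrArg (fun c : L.Coloring (Fin r) => c x) h
  have h1' : (G.labelledCopyCount L : ℝ) ≤ G.labelledCopyCount (⊤ : SimpleGraph (Fin (Fintype.card K))) := by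
    exact_mod_cast h1
  have h3' : (r.descFactorial (Fintype.card K) : ℝ) ≤ Nat.card (L.Coloring (Fin r)) := by exact_mod_cast h3
  refine h1'.trans (h2.trans ?_)
  gcongr

/-- connected bipartite graphs with a perfect matching are `Good 2` -/
theorem good_matching {K : Type} [Fintype K] (L : SimpleGraph K) (hconn : L.Connected) (hcol : L.Colorable 2)
    (hM : ∃ M : L.Subgraph, M.IsPerfectMatching) : Good 2 L := by
  intro V iV G hG
  obtain ⟨M, hM⟩ := hM
  rw [Subgraph.isPerfectMatching_iff] at hM
  choose f hf using fun x => (hM x).exists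
  have hf2 : ∀ x, f (f x) = x := fun x => (hM (f x)).unique (hf (f x)) (hf x).symm
  have h1 := labelled_matching_le L hconn f hf2 (fun x => (hf x).adj_sub) G hG
  have h2 : 2 ≤ Nat.card (L.Coloring (Fin 2)) := by
    obtain ⟨c⟩ := hcol
    have hfin : Finite (L.Coloring (Fin 2)) :=
      Finite.of_injective (fun g : L.Coloring (Fin 2) => (g : K → Fin 2)) fun g g' h => DFunLike.coe_injective h
    obtain ⟨x0⟩ := hconn.nonempty
    let c' : L.Coloring (Fin 2) := Coloring.mk (fun x => c x + 1) (by
      intro a b hab h
      exact c.valid hab (add_right_cancel h))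
    have hne : c ≠ c' := by
      intro h
      have h3 : c x0 = c x0 + 1 := congrArg (fun g : L.Coloring (Fin 2) => g x0) h
      revert h3
      generalize c x0 = i
      revert i
      decide
    have h4 : Nat.card (Fin 2) ≤ Nat.card (L.Coloring (Fin 2)) := by
      refine Nat.card_le_card_of_injective (fun i : Fin 2 => if i = 0 then c else c') ?_
      intro i j hij
      fin_cases i <;> fin_cases j <;> simp_all
    simpa using h4
  have h2' : (2 : ℝ) ≤ Nat.card (L.Coloring (Fin 2)) := by exact_mod_cast h2
  refine h1.trans ?_
  push_cast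
  gcongr

theorem good_of_piece {r : ℕ} (hr : 1 ≤ r) {K : Type} [Fintype K] {L : SimpleGraph K} (hL : Piece r L) : Good r L := by
  rcases hL with h | ⟨s, hs, h⟩ | ⟨rfl, h1, h2, h3⟩ | h
  · exact good_complete hr L h
  · exact good_multi hr hs L h
  · exact good_matching L h1 h2 h3
  · exact h

end Pb736
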