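import Pool.Agent.Lib.Pb736.GlueUp
import Pool.Agent.Lib.Pb736.GlueGood

/-!
# Module GlueCol: proper colourings of glued graphs, and the upper bound for the number of labelled copies
-/

set_option autoImplicit false

namespace Pb736

open SimpleGraph Finset

namespace GlueAux

/-- the number of proper `ω`-colourings of `H[S]` -/
noncomputable def col {W : Type} (H : SimpleGraph W) (ω : ℕ) (S : Finset W) : ℕ :=
  Nat.card ((H.induce (S : Set W)).Coloring (Fin ω))

theorem finite_coloring {W : Type} [Finite W] (H : SimpleGraph W) (ω : ℕ) : Finite (H.Coloring (Fin ω)) := by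
  refine Finite.of_injective (fun f : H.Coloring (Fin ω) => (f : W → Fin ω)) ?_
  intro f g h
  exact DFunLike.coe_injective h

theorem col_clique {u ω : ℕ} {W : Type} [Fintype W] {H : SimpleGraph W} {Q : Finset W}
    (hQ : H.IsNClique u Q) : ω.descFactorial u ≤ col H ω Q := by
  classical
  unfold col
  have hf := finite_coloring (H.induce (Q : Set W)) ω
  have h1 : Nat.card ((Q : Set W) ↪ Fin ω) = ω.descFactorial u := by
    rw [Nat.card_eq_fintype_card, Fintype.card_embedding_eq, Fintype.card_fin]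
    have : Fintype.card (Q : Set W) = u := by
      rw [← hQ.2]; simp
    rw [this]
  rw [← h1]
  refine Nat.card_le_card_of_injective
    (fun e => (Coloring.mk (fun x => e x) (by
      intro a b hab h
      exact hab.ne (e.injective h)) : (H.induce (Q : Set W)).Coloring (Fin ω))) ?_
  intro e e' h
  ext x
  exact congrArg (fun c : (H.induce (Q : Set W)).Coloring (Fin ω) => ((c x : Fin ω) : ℕ)) h

theorem col_glue {u ω : ℕ} {W : Type} [Fintype W] {H : SimpleGraph W} {S K Q T : Finset W}
    (hQ : H.IsNClique u Q) (hQS : Q ⊆ S) (hd : Disjoint S K) (hT : ∀ w, w ∈ T ↔ w ∈ S ∨ w ∈ K)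
    (h2 : ∀ x ∈ K, ∀ y ∈ S, H.Adj x y → y ∈ Q) :
    Nat.card ((H.induce (K : Set W)).Coloring (Fin (ω - u))) * col H ω S ≤ col H ω T := by
  classical
  unfold col
  have hf := finite_coloring (H.induce (T : Set W)) ω
  -- colours used on `Q`
  let I : (H.induce (S : Set W)).Coloring (Fin ω) → Finset (Fin ω) := fun c =>
    univ.filter (fun i => ∃ (w : W) (hw : w ∈ Q), c ⟨w, hQS hw⟩ = i)
  have hI : ∀ c, #(univ \ I c) = ω - u := by
    intro c
    have h3 : #(I c) = u := by
      have h4 : I c = Q.attach.image (fun w => c ⟨w.1, hQS w.2⟩) := by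
        ext i
        simp only [I, mem_filter, mem_univ, true_and, mem_image, mem_attach, Subtype.exists]
      rw [h4, Finset.card_image_of_injective, Finset.card_attach, hQ.2]
      intro a b hab
      by_contra hne
      have hne' : a.1 ≠ b.1 := fun h => hne (Subtype.ext h)
      have h5 : (H.induce (S : Set W)).Adj ⟨a.1, hQS a.2⟩ ⟨b.1, hQS b.2⟩ := hQ.1 a.2 b.2 hne'
      exact c.valid h5 hab
    rw [Finset.card_sdiff_of_subset (subset_univ _), h3, Finset.card_univ, Fintype.card_fin]
  let e : ∀ c, Fin (ω - u) ↪o Fin ω := fun c => (univ \ I c).orderEmbOfFin (hI c)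
  have he : ∀ c i, e c i ∉ I c := by
    intro c i
    have := Finset.orderEmbOfFin_mem (univ \ I c) (hI c) i
    exact (Finset.mem_sdiff.1 this).2
  have hTS : ∀ w : (T : Set W), w.1 ∉ S → w.1 ∈ K := fun w hw => by
    rcases (hT w.1).1 w.2 with h | h
    · exact absurd h hw
    · exact h
  rw [← Nat.card_prod]
  refine Nat.card_le_card_of_injective
    (fun p : (H.induce (K : Set W)).Coloring (Fin (ω - u)) × (H.induce (S : Set W)).Coloring (Fin ω) =>
      (Coloring.mk (fun w : (T : Set W) => if h : w.1 ∈ S then p.2 ⟨w.1, h⟩ else e p.2 (p.1 ⟨w.1, hTS w h⟩)) ?_ :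
        (H.induce (T : Set W)).Coloring (Fin ω))) ?_
  · intro a b hab
    have hab' : H.Adj a.1 b.1 := hab
    by_cases ha : a.1 ∈ S <;> by_cases hb : b.1 ∈ S
    · simp only [ha, hb, dif_pos]
      exact p.2.valid (show (H.induce (S : Set W)).Adj ⟨a.1, ha⟩ ⟨b.1, hb⟩ from hab')
    · simp only [ha, hb, dif_pos, dif_neg, not_false_eq_true]
      have hQa : a.1 ∈ Q := h2 b.1 (hTS b hb) a.1 ha hab'.symm
      intro h
      apply he p.2 (p.1 ⟨b.1, hTS b hb⟩)
      rw [← h]
      simp only [I, mem_filter, mem_univ, true_and]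
      exact ⟨a.1, hQa, rfl⟩
    · simp only [ha, hb, dif_pos, dif_neg, not_false_eq_true]
      have hQb : b.1 ∈ Q := h2 a.1 (hTS a ha) b.1 hb hab'
      intro h
      apply he p.2 (p.1 ⟨a.1, hTS a ha⟩)
      rw [h]
      simp only [I, mem_filter, mem_univ, true_and]
      exact ⟨b.1, hQb, rfl⟩
    · simp only [ha, hb, dif_neg, not_false_eq_true]
      intro h
      exact p.1.valid (show (H.induce (K : Set W)).Adj ⟨a.1, hTS a ha⟩ ⟨b.1, hTS b hb⟩ from hab')
        ((e p.2).injective h)
  · rintro ⟨d, c⟩ ⟨d', c'⟩ h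
    have h3 : ∀ w : (T : Set W), (if h : w.1 ∈ S then c ⟨w.1, h⟩ else e c (d ⟨w.1, hTS w h⟩)) =
        (if h : w.1 ∈ S then c' ⟨w.1, h⟩ else e c' (d' ⟨w.1, hTS w h⟩)) := fun w =>
      congrArg (fun f : (H.induce (T : Set W)).Coloring (Fin ω) => f w) h
    have hcc : c = c' := by
      apply DFunLike.ext
      intro w
      have h4 := h3 ⟨w.1, (hT w.1).2 (Or.inl w.2)⟩
      have hw : w.1 ∈ S := w.2
      simp only [hw, dif_pos] at h4
      exact h4
    subst hcc
    have hdd : d = d' := by
      apply DFunLike.ext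
      intro w
      have hw : w.1 ∉ S := fun h => Finset.disjoint_left.1 hd h w.2
      have h4 := h3 ⟨w.1, (hT w.1).2 (Or.inr w.2)⟩
      simp only [hw, dif_neg, not_false_eq_true] at h4
      exact (e c).injective h4
    rw [hdd]

theorem glue_subset_card {u r : ℕ} {W : Type} {H : SimpleGraph W} {S : Finset W} (h : Glued u r H S) :
    u ≤ #S := by
  classical
  induction h with
  | base Q hQ => rw [hQ.2]
  | glue S K Q T hS hQ hQS hd hT h1 h2 hg ih =>
    refine ih.trans (Finset.card_le_card ?_)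
    intro w hw
    exact (hT w).2 (Or.inl hw)

open UpperAux in
theorem up {u Δ ω : ℕ} {V W : Type} [Fintype V] [Fintype W] {G : SimpleGraph V} {H : SimpleGraph W}
    (hu : u + 1 ≤ ω) (hG : Adm u Δ ω G) {S : Finset W} (hS : Glued u (ω - u) H S) :
    (ω.descFactorial u : ℝ) * #(R G H S) ≤
      (u.factorial : ℝ) * cliqueCount G u * col H ω S * ((Δ : ℝ) / ((ω - u : ℕ) : ℝ)) ^ (#S - u) := by
  classical
  induction hS with
  | base Q hQ =>
    have h1 : (#(R G H Q) : ℝ) ≤ u.factorial * cliqueCount G u := by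
      exact_mod_cast card_R_clique G H Q hQ
    have h2 : (ω.descFactorial u : ℝ) ≤ col H ω Q := by exact_mod_cast col_clique hQ
    rw [hQ.2, Nat.sub_self, pow_zero, mul_one, mul_comm]
    gcongr
  | glue S K Q T hS hQ hQS hd hT h1 h2 hg ih =>
    have h3 := card_R_glue (by omega : u ≤ ω) hG hQ hQS hT h1 (good_of_piece (by omega) hg)
    have h4 : ((Nat.card ((H.induce (K : Set W)).Coloring (Fin (ω - u))) : ℕ) : ℝ) * (col H ω S : ℝ) ≤
        (col H ω T : ℝ) := by exact_mod_cast col_glue hQ hQS hd hT h2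
    have h5 : #T = #S + #K := by
      rw [← Finset.card_union_of_disjoint hd]
      congr 1
      ext w
      rw [Finset.mem_union]
      exact hT w
    have h6 := glue_subset_card hS
    have h7 : #T - u = #K + (#S - u) := by omega
    set x : ℝ := (Δ : ℝ) / ((ω - u : ℕ) : ℝ) with hx
    have hx0 : 0 ≤ x := by positivity
    set cK : ℝ := ((Nat.card ((H.induce (K : Set W)).Coloring (Fin (ω - u))) : ℕ) : ℝ) with hcK
    have hcK0 : 0 ≤ cK := by positivity
    calc (ω.descFactorial u : ℝ) * #(R G H T) ≤ (ω.descFactorial u : ℝ) * (cK * x ^ #K * #(R G H S)) := by gcongr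
      _ = cK * x ^ #K * ((ω.descFactorial u : ℝ) * #(R G H S)) := by ring
      _ ≤ cK * x ^ #K * ((u.factorial : ℝ) * cliqueCount G u * col H ω S * x ^ (#S - u)) := by gcongr
      _ = (u.factorial : ℝ) * cliqueCount G u * (cK * col H ω S) * x ^ (#K + (#S - u)) := by
          rw [pow_add]; ring
      _ ≤ (u.factorial : ℝ) * cliqueCount G u * col H ω T * x ^ (#T - u) := by
          rw [h7]; gcongr

end GlueAux

end Pb736
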