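import Pool.Agent.Lib.Pb736.Defs

/-!
# Graphs glued along `u`-cliques: definitions
-/

set_option autoImplicit false

namespace Pb736

open SimpleGraph Finset Filter

/-- No `K_{r+1}`-free graph on `n` vertices has more labelled copies of `L` than the density of proper `r`-colourings of `L`
predicts: at most (number of proper `r`-colourings of `L`) `* (n / r) ^ |V(L)|`.  (This is the asymptotic number of labelled
copies of `L` in the balanced complete `r`-partite graph on `n` vertices.) -/
def Good (r : ℕ) {K : Type} [Fintype K] (L : SimpleGraph K) : Prop :=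
  ∀ (V : Type) (_ : Fintype V) (G : SimpleGraph V), G.CliqueFree (r + 1) →
    (G.labelledCopyCount L : ℝ) ≤
      (Nat.card (L.Coloring (Fin r)) : ℝ) * ((Fintype.card V : ℝ) / r) ^ Fintype.card K

/-- the pieces `L` which are allowed when `ω - u = r`: complete graphs; complete `r`-partite graphs with parts of equal size;
for `r = 2` connected bipartite graphs with a perfect matching; and all graphs that are `Good r` (the first three kinds are
`Good r`, see `good_of_piece`) -/
def Piece (r : ℕ) {K : Type} [Fintype K] (L : SimpleGraph K) : Prop :=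
  (∀ a b, a ≠ b → L.Adj a b) ∨
  (∃ s : ℕ, 1 ≤ s ∧ Nonempty (L ≃g blow (⊤ : SimpleGraph (Fin r)) s)) ∨
  (r = 2 ∧ L.Connected ∧ L.Colorable 2 ∧ ∃ M : L.Subgraph, M.IsPerfectMatching) ∨
  Good r L

/-- The subgraphs of `H` induced on the vertex sets `T` with `Glued u r H T` are the graphs glued along `u`-cliques: start
with a `u`-clique `Q`; given `S`, choose a `u`-clique `Q` in `S` and add a disjoint set `K` of new vertices which are
adjacent to all vertices of `Q` and to no other vertex of `S`, and for which `H[K]` is a `Piece r`. -/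
inductive Glued (u r : ℕ) {W : Type} (H : SimpleGraph W) : Finset W → Prop
  | base (Q : Finset W) (hQ : H.IsNClique u Q) : Glued u r H Q
  | glue (S K Q T : Finset W) (hS : Glued u r H S) (hQ : H.IsNClique u Q) (hQS : Q ⊆ S)
      (hd : Disjoint S K) (hT : ∀ w, w ∈ T ↔ w ∈ S ∨ w ∈ K) (h1 : ∀ x ∈ K, ∀ y ∈ Q, H.Adj x y)
      (h2 : ∀ x ∈ K, ∀ y ∈ S, H.Adj x y → y ∈ Q) (hg : Piece r (H.induce (K : Set W))) : Glued u r H T

end Pb736
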