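import Pool.Agent.Lib.Pb736.Turan
import Pool.Agent.Lib.Pb736.GlueDefs

/-!
# Module GlueLow: copies of an `ω`-colourable graph in complete `ω`-partite graphs
-/

set_option autoImplicit false

namespace Pb736

open SimpleGraph Finset

namespace GlueLowAux

/-- the copy of `H` given by a colouring and an injection -/
def cop {ω s : ℕ} {W : Type} {H : SimpleGraph W} (c : H.Coloring (Fin ω)) (e : W ↪ Fin s) :
    Copy H (blow (⊤ : SimpleGraph (Fin ω)) s) where
  toHom := ⟨fun w => (c w, e w), by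
    intro a b hab
    show (⊤ : SimpleGraph (Fin ω)).Adj (c a) (c b)
    rw [top_adj]
    exact c.valid hab⟩
  injective' := by
    intro a b hab
    exact e.injective (congrArg Prod.snd hab)

theorem cop_apply {ω s : ℕ} {W : Type} {H : SimpleGraph W} (c : H.Coloring (Fin ω)) (e : W ↪ Fin s) (w : W) :
    cop c e w = (c w, e w) := rfl

theorem labelled_ge {ω s : ℕ} {W : Type} [Fintype W] {H : SimpleGraph W} :
    Nat.card (H.Coloring (Fin ω)) * s.descFactorial (Fintype.card W) ≤
      (blow (⊤ : SimpleGraph (Fin ω)) s).labelledCopyCount H := by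
  have h1 : Nat.card (W ↪ Fin s) = s.descFactorial (Fintype.card W) := by
    classical
    rw [Nat.card_eq_fintype_card, Fintype.card_embedding_eq, Fintype.card_fin]
  rw [← h1, ← Nat.card_prod, TuranAux.label_card]
  have := TuranAux.finite_copy (blow (⊤ : SimpleGraph (Fin ω)) s) H
  refine Nat.card_le_card_of_injective (fun x => cop x.1 x.2) ?_
  rintro ⟨c, e⟩ ⟨c', e'⟩ h
  have h2 : ∀ w, (c w, e w) = (c' w, e' w) := by
    intro w
    have h3 := congrArg (fun f : Copy H (blow (⊤ : SimpleGraph (Fin ω)) s) => f w) h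
    simpa only [cop_apply] using h3
  have h4 : c = c' := DFunLike.ext _ _ fun w => congrArg Prod.fst (h2 w)
  have h5 : e = e' := DFunLike.ext _ _ fun w => congrArg Prod.snd (h2 w)
  rw [h4, h5]

theorem adm_top {u ω : ℕ} : Adm u (ω - u) ω (⊤ : SimpleGraph (Fin ω)) := by
  classical
  constructor
  · rw [free_split_iff]
    intro T hT C hC
    have hd : Disjoint C T := by
      rw [Finset.disjoint_left]
      intro x hxC hxT
      exact (hC x hxC x hxT).ne rfl
    have h1 := card_le_univ (C ∪ T)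
    rw [card_union_of_disjoint hd, hT.card_eq, Fintype.card_fin] at h1
    omega
  · refine cliqueFree_of_card_lt ?_
    rw [Fintype.card_fin]
    omega

theorem count_top {u ω : ℕ} : cliqueCount (⊤ : SimpleGraph (Fin ω)) u ≤ ω.choose u := by
  have h := TuranAux.count_le (⊤ : SimpleGraph (Fin ω)) u
  rwa [Fintype.card_fin] at h

theorem count_pos {u ω s : ℕ} (hω : u ≤ ω) (hs : 1 ≤ s) :
    1 ≤ cliqueCount (blow (⊤ : SimpleGraph (Fin ω)) s) u := by
  have hinj : Function.Injective (fun i : Fin u => (Fin.castLE hω i, (⟨0, hs⟩ : Fin s))) := by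
    intro i j hij
    exact Fin.castLE_injective hω (congrArg Prod.fst hij)
  refine TuranAux.count_ge _ u (T := univ.map ⟨_, hinj⟩) ⟨?_, ?_⟩
  · intro a ha b hb hab
    rw [coe_map, coe_univ, Set.image_univ, Set.mem_range] at ha hb
    obtain ⟨i, rfl⟩ := ha
    obtain ⟨j, rfl⟩ := hb
    show (⊤ : SimpleGraph (Fin ω)).Adj (Fin.castLE hω i) (Fin.castLE hω j)
    rw [top_adj]
    exact fun h => hab (by
      show (Fin.castLE hω i, (⟨0, hs⟩ : Fin s)) = (Fin.castLE hω j, (⟨0, hs⟩ : Fin s))
      rw [h])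
  · rw [card_map, card_univ, Fintype.card_fin]

end GlueLowAux

open GlueLowAux in
theorem multi_lower {u ω : ℕ} {W : Type} [Fintype W] {H : SimpleGraph W} (hω : u ≤ ω) (s : ℕ) (hs : 1 ≤ s) :
    ∃ k N : ℕ, Real u (s * (ω - u)) ω H k N ∧ 1 ≤ k ∧ k ≤ ω.choose u * s ^ u ∧
      Nat.card (H.Coloring (Fin ω)) * s.descFactorial (Fintype.card W) ≤ N * Nat.card (H ≃g H) := by
  have hadm := adm_blow (adm_top (u := u) (ω := ω)) s
  refine ⟨cliqueCount (blow (⊤ : SimpleGraph (Fin ω)) s) u,
    (blow (⊤ : SimpleGraph (Fin ω)) s).copyCount H,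
    ⟨Fin ω × Fin s, inferInstance, blow ⊤ s, hadm, rfl, le_rfl⟩, count_pos hω hs, ?_, ?_⟩
  · refine (cliqueCount_blow_le _ s u).trans ?_
    rw [mul_comm]
    exact Nat.mul_le_mul_right _ count_top
  · rw [← labelled_eq]
    exact labelled_ge

end Pb736
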