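import Pool.Agent.Lib.Pb736.GlueCol
import Pool.Agent.Lib.Pb736.GlueLow
import Pool.Agent.Lib.Pb736.Fin2

/-!
# Module GlueFin: the constant for glued graphs
-/

set_option autoImplicit false

namespace Pb736

open SimpleGraph Finset Filter Topology

/-- the asymptotic density of labelled copies of `H` in the balanced complete `t`-partite graph, per `u`-clique and
normalised by `Δ ^ (h - u)`: `u! (number of proper t-colourings of H) / (t (t-1) ... (t-u+1) (t-u)^(h-u))` -/
noncomputable def dens (u t : ℕ) {W : Type} [Fintype W] (H : SimpleGraph W) : ℝ :=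
  (u.factorial : ℝ) * Nat.card (H.Coloring (Fin t)) /
    (t.descFactorial u * ((t - u : ℕ) : ℝ) ^ (Fintype.card W - u))

open FinAux RealBAux GlueAux GlueLowAux UpperAux

namespace GlueFinAux

/-- glued graphs are generated -/
theorem generated_of_glued {u r : ℕ} {W : Type} [Fintype W] {H : SimpleGraph W}
    (hH : Glued u r H univ) : Generated u H := by
  have key : ∀ S, Glued u r H S → ∃ K, H.IsNClique u K ∧ ∀ v ∈ S, Reach u H K v := by
    intro S hS
    induction hS with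
    | base Q hQ => exact ⟨Q, hQ, fun v hv => Reach.base v hv⟩
    | glue S K Q T hS hQ hQS hd hT h1 h2 hg ih =>
      obtain ⟨K0, hK0, hR⟩ := ih
      refine ⟨K0, hK0, fun v hv => ?_⟩
      rcases (hT v).1 hv with h | h
      · exact hR v h
      · exact Reach.step Q v hQ (fun w hw => hR w (hQS hw)) (fun w hw => h1 v h w hw)
  obtain ⟨K, hK, hR⟩ := key _ hH
  exact ⟨K, hK, fun v => hR v (mem_univ v)⟩

theorem generated_mono {u : ℕ} {W : Type} {H H' : SimpleGraph W} (hle : H' ≤ H) (hH : Generated u H') :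
    Generated u H := by
  obtain ⟨K, hK, hR⟩ := hH
  refine ⟨K, hK.mono hle, fun v => ?_⟩
  induction hR v with
  | base v h => exact Reach.base v h
  | step Q v hQ _ hv ih => exact Reach.step Q v (hQ.mono hle) ih (fun w hw => hle (hv w hw))

theorem dens_nonneg {u t : ℕ} {W : Type} [Fintype W] (H : SimpleGraph W) : 0 ≤ dens u t H := by
  unfold dens
  positivity

theorem col_univ {W : Type} [Fintype W] (H : SimpleGraph W) (ω : ℕ) :
    col H ω univ ≤ Nat.card (H.Coloring (Fin ω)) := by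
  classical
  unfold col
  have hf := finite_coloring H ω
  refine Nat.card_le_card_of_injective
    (fun c : (H.induce ((univ : Finset W) : Set W)).Coloring (Fin ω) =>
      (Coloring.mk (fun w => c ⟨w, by simp⟩) (by
        intro a b hab
        exact c.valid (show (H.induce ((univ : Finset W) : Set W)).Adj ⟨a, by simp⟩ ⟨b, by simp⟩ from hab)) :
        H.Coloring (Fin ω))) ?_
  intro c c' h
  apply DFunLike.ext
  intro w
  exact congrArg (fun f : H.Coloring (Fin ω) => f w.1) h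

theorem labelled_mono {V W : Type} [Fintype V] [Fintype W] {G : SimpleGraph V} {H H' : SimpleGraph W}
    (hle : H' ≤ H) : G.labelledCopyCount H ≤ G.labelledCopyCount H' := by
  rw [TuranAux.label_card, TuranAux.label_card]
  have := TuranAux.finite_copy G H'
  refine Nat.card_le_card_of_injective
    (fun φ : Copy H G => (⟨⟨fun w => φ w, fun hab => φ.toHom.map_adj (hle hab)⟩, φ.injective⟩ : Copy H' G)) ?_
  intro φ ψ h
  apply Copy.ext
  intro w
  exact congrArg (fun f : Copy H' G => f w) h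

theorem copy_le {u Δ ω : ℕ} {V W : Type} [Fintype V] [Fintype W] {G : SimpleGraph V} {H H' : SimpleGraph W}
    (hω : u + 1 ≤ ω) (hG : Adm u Δ ω G) (hle : H' ≤ H) (hH : Glued u (ω - u) H' univ) :
    (Nat.card (H ≃g H) : ℝ) * G.copyCount H ≤
      dens u ω H' * (Δ : ℝ) ^ (Fintype.card W - u) * cliqueCount G u := by
  have h1 := up hω hG hH
  rw [← card_R_univ, Finset.card_univ] at h1
  have h00 : G.labelledCopyCount H ≤ G.labelledCopyCount H' := labelled_mono hle
  have h0 : (G.labelledCopyCount H : ℝ) ≤ G.labelledCopyCount H' := by exact_mod_cast h00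
  rw [labelled_eq] at h0
  have h2 : (col H' ω univ : ℝ) ≤ Nat.card (H'.Coloring (Fin ω)) := by exact_mod_cast col_univ H' ω
  have hD : (0 : ℝ) < ω.descFactorial u := by
    exact_mod_cast Nat.descFactorial_pos.2 (by omega : u ≤ ω)
  have hr : (0 : ℝ) < ((ω - u : ℕ) : ℝ) := by
    have : 0 < ω - u := by omega
    exact_mod_cast this
  unfold dens
  rw [div_pow, mul_div_assoc', le_div_iff₀ (by positivity)] at h1
  rw [div_mul_eq_mul_div, div_mul_eq_mul_div, le_div_iff₀ (by positivity)]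
  push_cast at h0
  calc (Nat.card (H ≃g H) : ℝ) * (G.copyCount H : ℝ) * (ω.descFactorial u *
        ((ω - u : ℕ) : ℝ) ^ (Fintype.card W - u))
      = (ω.descFactorial u : ℝ) * (G.copyCount H * Nat.card (H ≃g H)) *
        ((ω - u : ℕ) : ℝ) ^ (Fintype.card W - u) := by ring
    _ ≤ (ω.descFactorial u : ℝ) * (G.labelledCopyCount H') *
        ((ω - u : ℕ) : ℝ) ^ (Fintype.card W - u) := by gcongr
    _ ≤ (u.factorial : ℝ) * cliqueCount G u * col H' ω univ * (Δ : ℝ) ^ (Fintype.card W - u) := h1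
    _ ≤ (u.factorial : ℝ) * cliqueCount G u * Nat.card (H'.Coloring (Fin ω)) *
        (Δ : ℝ) ^ (Fintype.card W - u) := by gcongr
    _ = _ := by ring

theorem exU_upper {u Δ ω : ℕ} {W : Type} [Fintype W] {H H' : SimpleGraph W}
    (hω : u + 1 ≤ ω) (hle : H' ≤ H) (hH : Glued u (ω - u) H' univ) (p : ℕ) :
    (Nat.card (H ≃g H) : ℝ) * ((exU u Δ ω H p).toNat : ℝ) ≤
      dens u ω H' * (Δ : ℝ) ^ (Fintype.card W - u) * p := by
  have hgen := generated_mono hle (generated_of_glued hH)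
  rcases Nat.eq_zero_or_pos (exU u Δ ω H p).toNat with ha | ha
  · rw [ha]
    have h0 := dens_nonneg (u := u) (t := ω) H'
    have : (0 : ℝ) ≤ dens u ω H' * (Δ : ℝ) ^ (Fintype.card W - u) * p := by positivity
    simpa using this
  · obtain ⟨V, iV, G, hG, hc, hN⟩ : Real u Δ ω H p (exU u Δ ω H p).toNat :=
      exU_real ha (by rw [ENat.natCast_toNat (exU_ne_top hgen p)])
    have h1 := copy_le hω hG hle hH
    rw [hc] at h1
    have h2 : (((exU u Δ ω H p).toNat : ℕ) : ℝ) ≤ G.copyCount H := by exact_mod_cast hN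
    exact (mul_le_mul_of_nonneg_left h2 (by positivity)).trans h1

/-- the balanced complete `t`-partite graph with parts of size `s` -/
theorem turan_copies {u t : ℕ} {W : Type} [Fintype W] {H : SimpleGraph W} (ht : u + 1 ≤ t)
    (huW : u ≤ Fintype.card W) (s : ℕ) (hs : 1 ≤ s) :
    dens u t H * ((s.descFactorial (Fintype.card W) : ℝ) / (s : ℝ) ^ Fintype.card W) *
      ((s * (t - u) : ℕ) : ℝ) ^ (Fintype.card W - u) * cliqueCount (blow (⊤ : SimpleGraph (Fin t)) s) u ≤
      (Nat.card (H ≃g H) : ℝ) * (blow (⊤ : SimpleGraph (Fin t)) s).copyCount H := by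
  have h1 : (cliqueCount (blow (⊤ : SimpleGraph (Fin t)) s) u : ℝ) ≤ t.choose u * (s : ℝ) ^ u := by
    have h := (cliqueCount_blow_le (⊤ : SimpleGraph (Fin t)) s u).trans (Nat.mul_le_mul_left _ count_top)
    rw [mul_comm] at h
    exact_mod_cast h
  have h2 := labelled_ge (ω := t) (s := s) (H := H)
  rw [labelled_eq] at h2
  have h2' : (Nat.card (H.Coloring (Fin t)) : ℝ) * s.descFactorial (Fintype.card W) ≤
      (blow (⊤ : SimpleGraph (Fin t)) s).copyCount H * Nat.card (H ≃g H) := by exact_mod_cast h2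
  have hD : (0 : ℝ) < t.descFactorial u := by
    exact_mod_cast Nat.descFactorial_pos.2 (by omega : u ≤ t)
  have hr : (0 : ℝ) < ((t - u : ℕ) : ℝ) := by
    have : 0 < t - u := by omega
    exact_mod_cast this
  have hs' : (0 : ℝ) < s := by exact_mod_cast hs
  have hch : (t.descFactorial u : ℝ) = u.factorial * t.choose u := by
    exact_mod_cast Nat.descFactorial_eq_factorial_mul_choose t u
  have h8 : (s : ℝ) ^ Fintype.card W = (s : ℝ) ^ (Fintype.card W - u) * (s : ℝ) ^ u := by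
    rw [← pow_add, Nat.sub_add_cancel huW]
  have hT0 := dens_nonneg (u := u) (t := t) H
  calc dens u t H * ((s.descFactorial (Fintype.card W) : ℝ) / (s : ℝ) ^ Fintype.card W) *
      ((s * (t - u) : ℕ) : ℝ) ^ (Fintype.card W - u) * cliqueCount (blow (⊤ : SimpleGraph (Fin t)) s) u
      ≤ dens u t H * ((s.descFactorial (Fintype.card W) : ℝ) / (s : ℝ) ^ Fintype.card W) *
      ((s * (t - u) : ℕ) : ℝ) ^ (Fintype.card W - u) * (t.choose u * (s : ℝ) ^ u) := by gcongr
    _ = (Nat.card (H.Coloring (Fin t)) : ℝ) * s.descFactorial (Fintype.card W) := by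
        have hC : (0 : ℝ) < t.choose u := by exact_mod_cast Nat.choose_pos (by omega : u ≤ t)
        unfold dens
        rw [h8, hch]
        push_cast
        rw [mul_pow]
        field_simp
    _ ≤ _ := by rw [mul_comm (Nat.card (H ≃g H) : ℝ)]; exact h2'

theorem adm_omega {u Δ t ω : ℕ} {V : Type} {G : SimpleGraph V} (ht : t ≤ ω) (hG : Adm u Δ t G) : Adm u Δ ω G :=
  ⟨hG.1, hG.2.mono (by omega)⟩

end GlueFinAux

open GlueFinAux

/-- lower bound for every generated graph -/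
theorem lower_gen {u ω : ℕ} {W : Type} [Fintype W] {H : SimpleGraph W} (hgen : Generated u H)
    (P : ℕ → ℝ) (hP : ∀ Δ p : ℕ, ((exU u Δ ω H p).toNat : ℝ) ≤ P Δ * p) (t : ℕ) (ht : u + 1 ≤ t)
    (htω : t ≤ ω) (s : ℕ) (hs : 1 ≤ s) :
    dens u t H * ((s.descFactorial (Fintype.card W) : ℝ) / (s : ℝ) ^ Fintype.card W) *
        ((s * (t - u) : ℕ) : ℝ) ^ (Fintype.card W - u) ≤ (Nat.card (H ≃g H) : ℝ) * P (s * (t - u)) := by
  have hc := not_cliqueFree_of_gen hgen
  have huW := card_ge hc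
  have hreal : Real u (s * (t - u)) ω H (cliqueCount (blow (⊤ : SimpleGraph (Fin t)) s) u)
      ((blow (⊤ : SimpleGraph (Fin t)) s).copyCount H) :=
    ⟨Fin t × Fin s, inferInstance, blow ⊤ s, adm_omega htω (adm_blow (adm_top (u := u) (ω := t)) s), rfl, le_rfl⟩
  have hk := count_pos (by omega : u ≤ t) hs
  have hk' : (0 : ℝ) < cliqueCount (blow (⊤ : SimpleGraph (Fin t)) s) u := by exact_mod_cast hk
  have h1 : ((blow (⊤ : SimpleGraph (Fin t)) s).copyCount H : ℝ) ≤
      ((exU u (s * (t - u)) ω H (cliqueCount (blow (⊤ : SimpleGraph (Fin t)) s) u)).toNat : ℝ) := by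
    have h2 := real_le_exU hreal
    rw [← ENat.natCast_toNat (exU_ne_top hgen _)] at h2
    exact_mod_cast h2
  have h3 := turan_copies (H := H) ht huW s hs
  have h4 := hP (s * (t - u)) (cliqueCount (blow (⊤ : SimpleGraph (Fin t)) s) u)
  have h5 : (Nat.card (H ≃g H) : ℝ) * (blow (⊤ : SimpleGraph (Fin t)) s).copyCount H ≤
      (Nat.card (H ≃g H) : ℝ) * P (s * (t - u)) * cliqueCount (blow (⊤ : SimpleGraph (Fin t)) s) u := by
    rw [mul_assoc]
    exact mul_le_mul_of_nonneg_left (h1.trans h4) (by positivity)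
  exact le_of_mul_le_mul_right (h3.trans h5) hk'

theorem glued_main {u ω : ℕ} (hu : 1 ≤ u) (hω : u + 1 ≤ ω) {W : Type} [Fintype W] {H H' : SimpleGraph W}
    (hle : H' ≤ H) (hH : Glued u (ω - u) H' univ) :
    ∃ P : ℕ → ℝ, (∀ Δ, Tendsto (fun p : ℕ => ((exU u Δ ω H p).toNat : ℝ) / p) atTop (𝓝 (P Δ))) ∧
      (∀ Δ p : ℕ, exU u Δ ω H p ≠ ⊤ ∧ ((exU u Δ ω H p).toNat : ℝ) ≤ P Δ * p) ∧
      (∀ Δ, (Nat.card (H ≃g H) : ℝ) * P Δ ≤ dens u ω H' * (Δ : ℝ) ^ (Fintype.card W - u)) ∧
      (∀ t s : ℕ, u + 1 ≤ t → t ≤ ω → 1 ≤ s →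
        dens u t H * ((s.descFactorial (Fintype.card W) : ℝ) / (s : ℝ) ^ Fintype.card W) *
        ((s * (t - u) : ℕ) : ℝ) ^ (Fintype.card W - u) ≤ (Nat.card (H ≃g H) : ℝ) * P (s * (t - u))) ∧
      (∀ t : ℕ, u + 1 ≤ t → t ≤ ω → dens u t H = dens u ω H' →
        Tendsto (fun Δ : ℕ => P Δ / (Δ : ℝ) ^ (Fintype.card W - u)) atTop
          (𝓝 (dens u t H / Nat.card (H ≃g H)))) := by
  have hgen := generated_mono hle (generated_of_glued hH)
  have hex : ∀ Δ, ∃ P : ℝ, Tendsto (fun p : ℕ => ((exU u Δ ω H p).toNat : ℝ) / p) atTop (𝓝 P) ∧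
      (∀ p : ℕ, ((exU u Δ ω H p).toNat : ℝ) ≤ P * p) := fun Δ => by
    obtain ⟨P, h1, h2, -⟩ := limit_exists' hu Δ ω hgen
    exact ⟨P, h1, h2⟩
  choose P hP1 hP2 using hex
  have hup : ∀ Δ, (Nat.card (H ≃g H) : ℝ) * P Δ ≤ dens u ω H' * (Δ : ℝ) ^ (Fintype.card W - u) := by
    intro Δ
    refine le_of_tendsto ((hP1 Δ).const_mul _) ?_
    filter_upwards [eventually_ge_atTop 1] with p hp
    have hp' : (0 : ℝ) < p := by exact_mod_cast hp
    rw [mul_div_assoc', div_le_iff₀ hp']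
    exact exU_upper hω hle hH p
  have hlow := fun (t s : ℕ) (ht : u + 1 ≤ t) (htω : t ≤ ω) (hs : 1 ≤ s) =>
    lower_gen hgen P hP2 t ht htω s hs
  refine ⟨P, hP1, fun Δ p => ⟨exU_ne_top hgen p, hP2 Δ p⟩, hup, hlow, ?_⟩
  -- the limit
  intro t ht htω heq
  have hA : (0 : ℝ) < Nat.card (H ≃g H) := by exact_mod_cast card_aut_pos H
  have hr : 1 ≤ t - u := by omega
  have hmono : ∀ a b : ℕ, a ≤ b → P a ≤ P b := by
    intro a b hab
    refine le_of_tendsto_of_tendsto' (hP1 a) (hP1 b) fun p => ?_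
    have h1 : (exU u a ω H p).toNat ≤ (exU u b ω H p).toNat :=
      ENat.toNat_le_toNat (exU_mono hab p) (exU_ne_top hgen p)
    gcongr
  have hT0 := dens_nonneg (u := u) (t := t) H
  set r := t - u with hrdef
  set h := Fintype.card W with hh
  have hdiv : Tendsto (fun Δ : ℕ => Δ / r) atTop atTop := Nat.tendsto_div_const_atTop (by omega)
  have hlim1 : Tendsto (fun s : ℕ => (s.descFactorial h : ℝ) / (s : ℝ) ^ h) atTop (𝓝 1) := by
    have h1 := isEquivalent_descFactorial h
    rw [Asymptotics.isEquivalent_iff_tendsto_one] at h1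
    · exact h1
    · filter_upwards [eventually_ge_atTop 1] with s hs1
      have : (0 : ℝ) < s := by exact_mod_cast hs1
      positivity
  have hlim2 : Tendsto (fun Δ : ℕ => (((Δ / r * r : ℕ) : ℝ)) / (Δ : ℝ)) atTop (𝓝 1) := by
    have h1 : Tendsto (fun Δ : ℕ => (1 : ℝ) - (r : ℝ) / (Δ : ℝ)) atTop (𝓝 (1 - 0)) :=
      tendsto_const_nhds.sub (tendsto_const_div_atTop_nhds_zero_nat (r : ℝ))
    rw [sub_zero] at h1
    refine tendsto_of_tendsto_of_tendsto_of_le_of_le' h1 tendsto_const_nhds ?_ ?_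
    · filter_upwards [eventually_ge_atTop 1] with Δ hΔ
      have hΔ' : (0 : ℝ) < Δ := by exact_mod_cast hΔ
      rw [le_div_iff₀ hΔ', sub_mul, one_mul, div_mul_cancel₀ _ hΔ'.ne']
      have h2 : Δ ≤ Δ / r * r + r := by
        have := Nat.div_add_mod' Δ r
        have := Nat.mod_lt Δ (by omega : r > 0)
        omega
      have h3 : (Δ : ℝ) ≤ ((Δ / r * r : ℕ) : ℝ) + r := by exact_mod_cast h2
      linarith
    · filter_upwards [eventually_ge_atTop 1] with Δ hΔ
      have hΔ' : (0 : ℝ) < Δ := by exact_mod_cast hΔ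
      rw [div_le_one hΔ']
      exact_mod_cast Nat.div_mul_le_self Δ r
  have hlim3 : Tendsto (fun Δ : ℕ => dens u t H / Nat.card (H ≃g H) *
      (((Δ / r).descFactorial h : ℝ) / ((Δ / r : ℕ) : ℝ) ^ h) *
      ((((Δ / r * r : ℕ) : ℝ)) / (Δ : ℝ)) ^ (h - u)) atTop
      (𝓝 (dens u t H / Nat.card (H ≃g H) * 1 * 1 ^ (h - u))) :=
    (tendsto_const_nhds.mul (hlim1.comp hdiv)).mul (hlim2.pow _)
  rw [one_pow, mul_one, mul_one] at hlim3
  refine tendsto_of_tendsto_of_tendsto_of_le_of_le' hlim3 tendsto_const_nhds ?_ ?_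
  · filter_upwards [eventually_ge_atTop r] with Δ hΔ
    have hΔ' : (0 : ℝ) < Δ := by
      have : 0 < Δ := by omega
      exact_mod_cast this
    have hs : 1 ≤ Δ / r := (Nat.one_le_div_iff (by omega)).2 hΔ
    have h1 := hlow t (Δ / r) ht htω hs
    have h2 := hmono _ _ (Nat.div_mul_le_self Δ r)
    have h3 : (Nat.card (H ≃g H) : ℝ) * P (Δ / r * r) ≤ (Nat.card (H ≃g H) : ℝ) * P Δ :=
      mul_le_mul_of_nonneg_left h2 hA.le
    rw [div_pow, mul_div_assoc', div_le_div_iff_of_pos_right (by positivity), div_mul_eq_mul_div,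
      div_mul_eq_mul_div, div_le_iff₀ hA, mul_comm (P Δ)]
    exact h1.trans h3
  · filter_upwards [eventually_ge_atTop 1] with Δ hΔ
    have hΔ' : (0 : ℝ) < Δ := by exact_mod_cast hΔ
    rw [div_le_iff₀ (by positivity), div_mul_eq_mul_div, le_div_iff₀ hA, mul_comm (P Δ), heq]
    exact hup Δ

end Pb736
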