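import Pool.Agent.Lib.Pb736.GlueDefs
import Pool.Agent.Lib.Pb736.Upper
import Pool.Agent.Lib.Pb736.Turan

/-!
# Module GlueUp: the upper bound for glued graphs

For a `u`-clique of an admissible graph the common neighbourhood has at most `Δ` vertices and is `K_{ω-u+1}`-free.
-/

set_option autoImplicit false

namespace Pb736

open SimpleGraph Finset

namespace UpperAux

theorem restrict_copy {V W : Type} {G : SimpleGraph V} {H : SimpleGraph W} (C : Finset V) (K : Finset W)
    (φ : Copy H G) (hφ : ∀ w ∈ K, φ w ∈ C) :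
    ∃ ψ : Copy (H.induce (K : Set W)) (G.induce (C : Set V)), ∀ w : (K : Set W), ((ψ w : (C : Set V)) : V) = φ w := by
  refine ⟨⟨⟨fun w => ⟨φ w.1, hφ w.1 w.2⟩, ?_⟩, ?_⟩, ?_⟩
  · intro a b hab
    exact φ.toHom.map_adj hab
  · intro a b hab
    have h3 : φ a.1 = φ b.1 := congrArg Subtype.val hab
    exact Subtype.ext (φ.injective h3)
  · intro w
    rfl

theorem fib_le {V W : Type} [Fintype V] [Fintype W] {G : SimpleGraph V} {H : SimpleGraph W} (C : Finset V)
    (K : Finset W) (F : Finset (W → Option V)) (g0 : W → Option V)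
    (hF : ∀ g ∈ F, ∃ φ : Copy H G, (∀ w ∈ K, φ w ∈ C) ∧ (∀ w ∈ K, g w = some (φ w)) ∧ ∀ w, w ∉ K → g w = g0 w) :
    #F ≤ (G.induce (C : Set V)).labelledCopyCount (H.induce (K : Set W)) := by
  classical
  rw [TuranAux.label_card]
  have := TuranAux.finite_copy (G.induce (C : Set V)) (H.induce (K : Set W))
  have h1 : ∀ g : F, ∃ ψ : Copy (H.induce (K : Set W)) (G.induce (C : Set V)),
      ∀ w (hw : w ∈ K), (g : W → Option V) w = some ((ψ ⟨w, hw⟩ : (C : Set V)) : V) := by
    intro g
    obtain ⟨φ, h2, h3, -⟩ := hF g.1 g.2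
    obtain ⟨ψ, hψ⟩ := restrict_copy C K φ h2
    refine ⟨ψ, fun w hw => ?_⟩
    rw [h3 w hw, hψ ⟨w, hw⟩]
  choose f hf using h1
  have hinj : Function.Injective f := by
    intro g g' h
    apply Subtype.ext
    funext w
    by_cases hw : w ∈ K
    · rw [hf g w hw, hf g' w hw, h]
    · obtain ⟨_, -, -, h5⟩ := hF g.1 g.2
      obtain ⟨_, -, -, h6⟩ := hF g'.1 g'.2
      rw [h5 w hw, h6 w hw]
  have h2 := Nat.card_le_card_of_injective f hinj
  rwa [Nat.card_eq_fintype_card, Fintype.card_coe] at h2

theorem card_R_glue {u Δ ω : ℕ} {V W : Type} [Fintype V] [Fintype W] {G : SimpleGraph V}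
    {H : SimpleGraph W} (hu : u ≤ ω) (hG : Adm u Δ ω G) {S K Q T : Finset W}
    (hQ : H.IsNClique u Q) (hQS : Q ⊆ S) (hT : ∀ w, w ∈ T ↔ w ∈ S ∨ w ∈ K)
    (h1 : ∀ x ∈ K, ∀ y ∈ Q, H.Adj x y) (hg : Good (ω - u) (H.induce (K : Set W))) :
    (#(R G H T) : ℝ) ≤ (Nat.card ((H.induce (K : Set W)).Coloring (Fin (ω - u))) : ℝ) *
      ((Δ : ℝ) / ((ω - u : ℕ) : ℝ)) ^ #K * #(R G H S) := by
  classical
  -- the fibres
  have hfib : ∀ g0 ∈ R G H S, ((#((R G H T).filter
      (fun g => (fun w => if w ∈ S then g w else none) = g0)) : ℕ) : ℝ) ≤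
      (Nat.card ((H.induce (K : Set W)).Coloring (Fin (ω - u))) : ℝ) *
      ((Δ : ℝ) / ((ω - u : ℕ) : ℝ)) ^ #K := by
    intro g0 hg0
    obtain ⟨φ0, rfl⟩ := mem_R.1 hg0
    set C : Finset V := univ.filter (fun x => ∀ w ∈ Q.image φ0, G.Adj x w) with hC
    have hTQ : G.IsNClique u (Q.image φ0) := by
      constructor
      · intro a ha b hb hab
        rw [Finset.coe_image] at ha hb
        obtain ⟨a', ha', rfl⟩ := ha
        obtain ⟨b', hb', rfl⟩ := hb
        have hne : a' ≠ b' := fun h => hab (by rw [h])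
        exact φ0.toHom.map_adj (hQ.1 ha' hb' hne)
      · have hi : Function.Injective (φ0 : W → V) := φ0.injective
        rw [Finset.card_image_of_injective _ hi, hQ.2]
    have hCΔ : #C ≤ Δ := by
      refine (free_split_iff G u Δ).1 hG.1 (Q.image φ0) hTQ C ?_
      intro x hx
      rw [hC] at hx
      exact (Finset.mem_filter.1 hx).2
    have hfree : (G.induce (C : Set V)).CliqueFree (ω - u + 1) := by
      intro B hB
      have hB' : G.IsNClique (ω - u + 1) (B.map (Function.Embedding.subtype _)) := by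
        constructor
        · intro a ha b hb hab
          rw [Finset.coe_map] at ha hb
          obtain ⟨a', ha', rfl⟩ := ha
          obtain ⟨b', hb', rfl⟩ := hb
          have hne : a' ≠ b' := fun h => hab (by rw [h])
          exact hB.1 ha' hb' hne
        · rw [Finset.card_map, hB.2]
      refine hG.2 (B.map (Function.Embedding.subtype _) ∪ Q.image φ0) ?_
      have hmemC : ∀ x ∈ B.map (Function.Embedding.subtype (fun x => x ∈ (C : Set V))), x ∈ C := by
        intro x hx
        obtain ⟨b, -, rfl⟩ := Finset.mem_map.1 hx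
        exact b.2
      have hadj : ∀ x ∈ C, ∀ y ∈ Q.image φ0, G.Adj x y := by
        intro x hx
        rw [hC] at hx
        exact (Finset.mem_filter.1 hx).2
      constructor
      · intro a ha b hb hab
        rw [Finset.coe_union] at ha hb
        rcases ha with ha | ha <;> rcases hb with hb | hb
        · exact hB'.1 ha hb hab
        · exact hadj a (hmemC a ha) b hb
        · exact (hadj b (hmemC b hb) a ha).symm
        · exact hTQ.1 ha hb hab
      · rw [Finset.card_union_of_disjoint, hB'.2, hTQ.2]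
        · omega
        · rw [Finset.disjoint_left]
          intro x hx hx'
          exact (hadj x (hmemC x hx) x hx').ne rfl
    have hcount := hg _ inferInstance (G.induce (C : Set V)) hfree
    have hcK : Fintype.card (K : Set W) = #K := by simp
    have hcC : Fintype.card (C : Set V) = #C := by simp
    rw [hcK, hcC] at hcount
    have hle : #((R G H T).filter (fun g => (fun w => if w ∈ S then g w else none) = res S φ0)) ≤
        (G.induce (C : Set V)).labelledCopyCount (H.induce (K : Set W)) := by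
      refine fib_le C K _ (res S φ0) ?_
      intro g hg'
      obtain ⟨hg1, hg2⟩ := Finset.mem_filter.1 hg'
      obtain ⟨φ, rfl⟩ := mem_R.1 hg1
      have hagree : ∀ w ∈ S, φ w = φ0 w := by
        intro w hw
        have h3 := congrFun hg2 w
        simp only [hw, if_true] at h3
        rw [res_mem φ ((hT w).2 (Or.inl hw)), res_mem φ0 hw] at h3
        exact Option.some_injective _ h3
      refine ⟨φ, ?_, ?_, ?_⟩
      · intro w hw
        rw [hC, Finset.mem_filter]
        refine ⟨mem_univ _, ?_⟩
        intro x hx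
        obtain ⟨y, hy, rfl⟩ := Finset.mem_image.1 hx
        rw [← hagree y (hQS hy)]
        exact φ.toHom.map_adj (h1 w hw y hy)
      · intro w hw
        exact res_mem φ ((hT w).2 (Or.inr hw))
      · intro w hw
        by_cases hwS : w ∈ S
        · rw [res_mem φ ((hT w).2 (Or.inl hwS)), res_mem φ0 hwS, hagree w hwS]
        · rw [res_not_mem φ0 hwS, res_not_mem φ (fun h => by
            rcases (hT w).1 h with h3 | h3
            · exact hwS h3
            · exact hw h3)]
    calc ((#((R G H T).filter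
        (fun g => (fun w => if w ∈ S then g w else none) = res S φ0)) : ℕ) : ℝ) ≤
        ((G.induce (C : Set V)).labelledCopyCount (H.induce (K : Set W)) : ℝ) := by exact_mod_cast hle
      _ ≤ _ := hcount
      _ ≤ _ := by
        have h4 : (#C : ℝ) ≤ Δ := by exact_mod_cast hCΔ
        gcongr
  have hmaps : ∀ g ∈ R G H T, (fun w => if w ∈ S then g w else none) ∈ R G H S := by
    intro g hg'
    obtain ⟨φ, rfl⟩ := mem_R.1 hg'
    refine mem_R.2 ⟨φ, ?_⟩
    funext w
    by_cases hw : w ∈ S
    · rw [res_mem φ hw]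
      simp only [hw, if_true]
      rw [res_mem φ ((hT w).2 (Or.inl hw))]
    · rw [res_not_mem φ hw]
      simp only [hw, if_false]
  rw [Finset.card_eq_sum_card_fiberwise hmaps]
  push_cast
  calc (∑ b ∈ R G H S, ((#((R G H T).filter
        (fun g => (fun w => if w ∈ S then g w else none) = b)) : ℕ) : ℝ))
      ≤ ∑ _b ∈ R G H S, (Nat.card ((H.induce (K : Set W)).Coloring (Fin (ω - u))) : ℝ) *
      ((Δ : ℝ) / ((ω - u : ℕ) : ℝ)) ^ #K := Finset.sum_le_sum hfib
    _ = _ := by rw [Finset.sum_const, nsmul_eq_mul, mul_comm]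

end UpperAux

end Pb736
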