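import Pool.Agent.Lib.Pb736.CN

/-!
# Module ProdG: many copies of a graph which is not generated

PROOF.  Let `ι` be the set of `u`-cliques of `H` (a nonempty finite type: subtype of `Finset W`), and for `i : ι` let
`Z i = {w | Reach u H i w}`; `Z i ≠ univ` because `H` is not generated, `i ⊆ Z i`, and (closedness) if `Q ⊆ Z i` is a
`u`-clique and `v` is adjacent to all vertices of `Q`, then `v ∈ Z i`.  Let `t = card ι`, `n = m + 1`.
Vertices: `V = {x : W × (ι → Fin n) // ∀ i, x.1 ∈ Z i → x.2 i = 0}`; `x ~ y` iff `H.Adj x.1 y.1` and `x.2 i = y.2 i` for all `i`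
with `x.1 ∉ Z i`, `y.1 ∉ Z i`.
(1) The projection to `W` is a homomorphism, so injective on cliques; `CliqueFree (ω + 1)` is inherited from `H`.
(2) `free_split_iff`: let `T` be a `u`-clique of `G` with projection `Q` and `x`, `y` two common neighbours of `T` with the
same projection `v`.  For `i` with `v ∉ Z i` there is `w ∈ Q` with `w ∉ Z i` (closedness), so `x.2 i = y.2 i` = the
coordinate of the vertex of `T` over `w`; for `v ∈ Z i` both are `0`.  So the projection is injective on common
neighbours, and the images are common neighbours of the `u`-clique `Q` in `H`: at most `Δ`.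
(3) Number of `u`-cliques: every `u`-clique `T` of `G` with projection `Q` has the form
`T = {(w, fun i => if w ∈ Z i then 0 else c i) | w ∈ Q}` with a function `c : ι → Fin n` with `c i = 0` for all `i` with
`Q ⊆ Z i` (`c i` is the coordinate of any vertex of `T` over `w ∈ Q`, `w ∉ Z i`; they agree because the vertices are
adjacent); in particular `c Q = 0`.  So the number of `u`-cliques is at most the number of pairs `(Q, c)` with `Q : ι` and
`c Q = 0`, which is `t * n ^ (t - 1)`.
(4) Copies: for `c : ι → Fin n` the map `w ↦ (w, fun i => if w ∈ Z i then 0 else c i)` is a copy of `H`; different `c` give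
different vertex sets (choose `w ∉ Z i`), hence different subgraphs: at least `n ^ t` copies
(`copyCount_eq_card_image_copyToSubgraph`, `Finset.card_le_card_of_injOn`).
-/

set_option autoImplicit false

namespace Pb736

open SimpleGraph Finset

namespace ProdGAux

/-- the `u`-cliques -/
abbrev Cl (u : ℕ) {W : Type} (H : SimpleGraph W) : Type := {Q : Finset W // H.IsNClique u Q}

/-- vertices of the product construction -/
abbrev Vx (u : ℕ) {W : Type} (H : SimpleGraph W) (m : ℕ) : Type :=
  {x : W × (Cl u H → Fin (m + 1)) // ∀ i : Cl u H, Reach u H i.1 x.1 → x.2 i = 0}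

/-- the product construction -/
def PG (u : ℕ) {W : Type} (H : SimpleGraph W) (m : ℕ) : SimpleGraph (Vx u H m) where
  Adj x y := H.Adj x.1.1 y.1.1 ∧ ∀ i : Cl u H, ¬ Reach u H i.1 x.1.1 → ¬ Reach u H i.1 y.1.1 →
    x.1.2 i = y.1.2 i
  symm := ⟨fun _ _ h => ⟨h.1.symm, fun i hx hy => (h.2 i hy hx).symm⟩⟩
  loopless := ⟨fun _ h => h.1.ne rfl⟩

variable {u : ℕ} {W : Type} {H : SimpleGraph W} {m : ℕ}

theorem card_clique_inst {V : Type} [Fintype V] (G : SimpleGraph V) (u : ℕ) (d₁ d₂ : DecidableEq V)
    (r₁ r₂ : DecidableRel G.Adj) :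
    #(@cliqueFinset V G _ d₁ r₁ u) = #(@cliqueFinset V G _ d₂ r₂ u) := by
  have h₁ : d₁ = d₂ := Subsingleton.elim _ _
  have h₂ : r₁ = r₂ := Subsingleton.elim _ _
  subst h₁ h₂
  rfl

theorem image_clique [DecidableEq W] {k : ℕ} {T : Finset (Vx u H m)}
    (hT : (PG u H m).IsNClique k T) : H.IsNClique k (T.image fun x => x.1.1) := by
  refine ⟨?_, ?_⟩
  · intro a ha b hb hab
    simp only [coe_image, Set.mem_image, mem_coe] at ha hb
    obtain ⟨x, hx, rfl⟩ := ha
    obtain ⟨y, hy, rfl⟩ := hb
    exact (hT.isClique hx hy fun h => hab (by rw [h])).1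
  · rw [card_image_of_injOn, hT.card_eq]
    intro x hx y hy hxy
    by_contra hne
    exact (hT.isClique hx hy hne).1.ne hxy

open Classical in
/-- the vertex over `w` with coordinates `c` -/
noncomputable def vx (c : Cl u H → Fin (m + 1)) (w : W) : Vx u H m :=
  ⟨(w, fun i => if Reach u H i.1 w then 0 else c i), fun i hi => by
    show (if Reach u H i.1 w then (0 : Fin (m + 1)) else c i) = 0
    rw [if_pos hi]⟩

theorem vx_fst (c : Cl u H → Fin (m + 1)) (w : W) : (vx c w).1.1 = w := rfl

open Classical in
theorem vx_snd (c : Cl u H → Fin (m + 1)) (w : W) (i : Cl u H) :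
    (vx c w).1.2 i = if Reach u H i.1 w then 0 else c i := rfl

/-- the copy given by `c` -/
noncomputable def cp (c : Cl u H → Fin (m + 1)) : Copy H (PG u H m) :=
  ⟨⟨vx c, by
    intro a b hab
    refine ⟨hab, fun i ha hb => ?_⟩
    rw [vx_snd, vx_snd, if_neg (show ¬ Reach u H i.1 a from ha),
      if_neg (show ¬ Reach u H i.1 b from hb)]⟩, by
    intro a b hab
    have := congrArg (fun x : Vx u H m => x.1.1) hab
    exact this⟩

theorem cp_apply (c : Cl u H → Fin (m + 1)) (w : W) : (cp c) w = vx c w := rfl

theorem mem_clique_eq [DecidableEq W] {T : Finset (Vx u H m)} (hT : (PG u H m).IsNClique u T) :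
    ∃ c : Cl u H → Fin (m + 1), c ⟨_, image_clique hT⟩ = 0 ∧ ∀ x ∈ T, x = vx c x.1.1 := by
  classical
  refine ⟨fun i => if h : ∃ x ∈ T, ¬ Reach u H i.1 x.1.1 then h.choose.1.2 i else 0, ?_, ?_⟩
  · simp only
    rw [dif_neg]
    push Not
    intro x hx
    exact Reach.base _ (mem_image_of_mem _ hx)
  · intro x hx
    apply Subtype.ext
    apply Prod.ext
    · rfl
    · funext i
      rw [vx_snd]
      by_cases hi : Reach u H i.1 x.1.1
      · rw [if_pos hi]
        exact x.2 i hi
      · rw [if_neg hi]
        have h : ∃ x ∈ T, ¬ Reach u H i.1 x.1.1 := ⟨x, hx, hi⟩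
        rw [dif_pos h]
        obtain ⟨h1, h2⟩ := h.choose_spec
        by_cases he : x = h.choose
        · rw [← he]
        · exact (hT.isClique hx h1 he).2 i hi h2

end ProdGAux

open ProdGAux

theorem prod_real {u Δ ω : ℕ} {W : Type} [Fintype W] {H : SimpleGraph W} (hu : 1 ≤ u)
    (hH : Adm u Δ ω H) (hc : ¬ H.CliqueFree u) (hg : ¬ Generated u H) :
    ∃ t : ℕ, 1 ≤ t ∧ ∀ m : ℕ, ∃ k : ℕ, k ≤ t * (m + 1) ^ (t - 1) ∧ Real u Δ ω H k ((m + 1) ^ t) := by
  classical
  have hne : ∀ i : Cl u H, ∃ w, ¬ Reach u H i.1 w := by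
    intro i
    by_contra h
    push Not at h
    exact hg ⟨i.1, i.2, h⟩
  refine ⟨Fintype.card (Cl u H), ?_, fun m => ⟨cliqueCount (PG u H m) u, ?_, Vx u H m, inferInstance,
    PG u H m, ⟨?_, ?_⟩, rfl, ?_⟩⟩
  · have : Nonempty (Cl u H) := by
      unfold SimpleGraph.CliqueFree at hc
      push Not at hc
      obtain ⟨t, ht⟩ := hc
      exact ⟨⟨t, ht⟩⟩
    exact Fintype.card_pos
  · -- number of cliques
    let Φ : ((Q : Cl u H) × ({j : Cl u H // j ≠ Q} → Fin (m + 1))) → Finset (Vx u H m) := fun p =>
      p.1.1.image (vx fun j => if h : j ≠ p.1 then p.2 ⟨j, h⟩ else 0)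
    have hsub : (PG u H m).cliqueFinset u ⊆ univ.image Φ := by
      intro T hT
      rw [mem_cliqueFinset_iff] at hT
      obtain ⟨c, hc0, hcT⟩ := mem_clique_eq hT
      rw [mem_image]
      refine ⟨⟨⟨_, image_clique hT⟩, fun j => c j.1⟩, mem_univ _, ?_⟩
      have hcc : (fun j : Cl u H => if h : j ≠ ⟨_, image_clique hT⟩ then c j else 0) = c := by
        funext j
        by_cases h : j = ⟨_, image_clique hT⟩
        · rw [dif_neg (not_not.2 h), h, hc0]
        · rw [dif_pos h]
      show (T.image fun x => x.1.1).image (vx fun j => if h : j ≠ ⟨_, image_clique hT⟩ then c j else 0) = T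
      rw [hcc, image_image]
      conv_rhs => rw [← image_id (s := T)]
      refine image_congr fun x hx => ?_
      exact (hcT x hx).symm
    have h1 : cliqueCount (PG u H m) u = #((PG u H m).cliqueFinset u) := by
      unfold cliqueCount
      exact card_clique_inst _ _ _ _ _ _
    rw [h1]
    refine (card_le_card hsub).trans (card_image_le.trans ?_)
    rw [card_univ, Fintype.card_sigma]
    have h2 : ∀ Q : Cl u H, Fintype.card ({j : Cl u H // j ≠ Q} → Fin (m + 1)) =
        (m + 1) ^ (Fintype.card (Cl u H) - 1) := by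
      intro Q
      rw [Fintype.card_fun, Fintype.card_fin]
      congr 1
      have := Fintype.card_subtype_compl (fun j : Cl u H => j = Q)
      rw [Fintype.card_subtype_eq] at this
      exact this
    rw [sum_congr rfl fun Q _ => h2 Q, sum_const, card_univ, smul_eq_mul]
  · rw [free_split_iff]
    intro T hT C hC
    have hfree := (free_split_iff H u Δ).1 hH.1
    have hinj : Set.InjOn (fun x : Vx u H m => x.1.1) (C : Set (Vx u H m)) := by
      intro x hx y hy hxy
      have hxy' : x.1.1 = y.1.1 := hxy
      apply Subtype.ext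
      apply Prod.ext
      · exact hxy
      · funext i
        by_cases hi : Reach u H i.1 x.1.1
        · rw [x.2 i hi, y.2 i (by rw [← hxy']; exact hi)]
        · obtain ⟨z, hz, hzi⟩ : ∃ z ∈ T, ¬ Reach u H i.1 z.1.1 := by
            by_contra hcon
            push Not at hcon
            refine hi (Reach.step _ _ (image_clique hT) ?_ ?_)
            · intro w hw
              obtain ⟨z, hz, rfl⟩ := mem_image.1 hw
              exact hcon z hz
            · intro w hw
              obtain ⟨z, hz, rfl⟩ := mem_image.1 hw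
              exact (hC x hx z hz).1
          rw [(hC x hx z hz).2 i hi hzi, (hC y hy z hz).2 i (by rw [← hxy']; exact hi) hzi]
    rw [← card_image_of_injOn hinj]
    refine hfree _ (image_clique hT) _ ?_
    intro v hv w hw
    obtain ⟨x, hx, rfl⟩ := mem_image.1 hv
    obtain ⟨z, hz, rfl⟩ := mem_image.1 hw
    exact (hC x hx z hz).1
  · intro T hT
    exact hH.2 _ (image_clique hT)
  · rw [copyCount_eq_card_image_copyToSubgraph]
    have h1 : (m + 1) ^ Fintype.card (Cl u H) = #(univ : Finset (Cl u H → Fin (m + 1))) := by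
      rw [card_univ, Fintype.card_fun, Fintype.card_fin]
    rw [h1]
    refine card_le_card_of_injOn (fun c => (cp c).toSubgraph) ?_ ?_
    · intro c _
      exact mem_coe.2 (mem_image_of_mem _ (mem_univ _))
    · intro c _ c' _ hcc
      funext i
      obtain ⟨w, hw⟩ := hne i
      have h2 : (cp c) w ∈ ((cp c).toSubgraph).verts := ⟨w, trivial, rfl⟩
      have hcc' : (cp c).toSubgraph = (cp c').toSubgraph := hcc
      rw [hcc'] at h2
      obtain ⟨w', -, hw'⟩ := h2
      have h3 : vx c' w' = vx c w := hw'
      have h4 : w' = w := congrArg (fun x : Vx u H m => x.1.1) h3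
      subst h4
      have h5 := congrArg (fun x : Vx u H m => x.1.2 i) h3
      simp only [vx_snd, if_neg hw] at h5
      exact h5.symm

end Pb736
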