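import Pool.Agent.Lib.Pb736.CN

/-!
# Module SumG: disjoint unions

PROOF.  Let `u ≥ 1`.  A nonempty clique of `dsum G G'` lies in one of the two parts (two adjacent vertices are in the same
part).  `adm_dsum`: `free_split_iff` (the common neighbours of a nonempty clique lie in the part of the clique;
`Finset.map`/`Finset.preimage` by `Sum.inl`, `Sum.inr`), and cliques of size `ω + 1 ≥ 1` lie in one part.
`cliqueCount_dsum`: the `u`-cliques of the sum are the disjoint union of the images of the `u`-cliques of the parts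
(`Finset.card_union_of_disjoint`, `Finset.card_map`).  `copyCount_dsum`: `copyCount_eq_card_image_copyToSubgraph`; compose
copies with the copies `G → dsum G G'`, `G' → dsum G G'`; the subgraphs obtained from the two parts are different because
their vertex sets are nonempty and lie in different parts; a copy in `G` gives a subgraph which determines the subgraph
of `G` (vertex set and adjacency).
-/

set_option autoImplicit false

namespace Pb736

open SimpleGraph Finset

namespace SumGAux

variable {V V' : Type} {G : SimpleGraph V} {G' : SimpleGraph V'}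

lemma adj_ll {a b : V} : (dsum G G').Adj (Sum.inl a) (Sum.inl b) ↔ G.Adj a b := Iff.rfl
lemma adj_rr {a b : V'} : (dsum G G').Adj (Sum.inr a) (Sum.inr b) ↔ G'.Adj a b := Iff.rfl
lemma adj_lr {a : V} {b : V'} : ¬ (dsum G G').Adj (Sum.inl a) (Sum.inr b) := fun h => h
lemma adj_rl {a : V'} {b : V} : ¬ (dsum G G').Adj (Sum.inr a) (Sum.inl b) := fun h => h

lemma eq_left {s : Finset (V ⊕ V')} (h : ∀ b, Sum.inr b ∉ s) : s = s.toLeft.map Function.Embedding.inl := by
  ext y
  rcases y with b | b
  · simp
  · simp [h b]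

lemma eq_right {s : Finset (V ⊕ V')} (h : ∀ b, Sum.inl b ∉ s) : s = s.toRight.map Function.Embedding.inr := by
  ext y
  rcases y with b | b
  · simp [h b]
  · simp

lemma clique_cases {n : ℕ} (hn : 1 ≤ n) {s : Finset (V ⊕ V')} (hs : (dsum G G').IsNClique n s) :
    (G.IsNClique n s.toLeft ∧ s = s.toLeft.map Function.Embedding.inl) ∨
      (G'.IsNClique n s.toRight ∧ s = s.toRight.map Function.Embedding.inr) := by
  obtain ⟨x, hx⟩ : s.Nonempty := card_pos.1 (by rw [hs.card_eq]; omega)
  rcases x with a | a
  · left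
    have key : s = s.toLeft.map Function.Embedding.inl := by
      apply eq_left
      intro b hb
      exact adj_lr (hs.isClique hx hb (by simp))
    refine ⟨⟨?_, ?_⟩, key⟩
    · intro b hb c hc hbc
      have h1 := hs.isClique (mem_coe.2 (mem_toLeft.1 (mem_coe.1 hb))) (mem_coe.2 (mem_toLeft.1 (mem_coe.1 hc)))
        (fun h => hbc (Sum.inl_injective h))
      exact h1
    · have := hs.card_eq
      rw [key, card_map] at this
      exact this
  · right
    have key : s = s.toRight.map Function.Embedding.inr := by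
      apply eq_right
      intro b hb
      exact adj_rl (hs.isClique hx hb (by simp))
    refine ⟨⟨?_, ?_⟩, key⟩
    · intro b hb c hc hbc
      have h1 := hs.isClique (mem_coe.2 (mem_toRight.1 (mem_coe.1 hb))) (mem_coe.2 (mem_toRight.1 (mem_coe.1 hc)))
        (fun h => hbc (Sum.inr_injective h))
      exact h1
    · have := hs.card_eq
      rw [key, card_map] at this
      exact this

lemma map_inl {n : ℕ} {t : Finset V} (ht : G.IsNClique n t) :
    (dsum G G').IsNClique n (t.map Function.Embedding.inl) := by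
  refine ⟨?_, by rw [card_map]; exact ht.card_eq⟩
  intro x hx y hy hxy
  simp only [coe_map, Set.mem_image, mem_coe] at hx hy
  obtain ⟨a, ha, rfl⟩ := hx
  obtain ⟨b, hb, rfl⟩ := hy
  exact ht.isClique ha hb fun h => hxy (by rw [h])

lemma map_inr {n : ℕ} {t : Finset V'} (ht : G'.IsNClique n t) :
    (dsum G G').IsNClique n (t.map Function.Embedding.inr) := by
  refine ⟨?_, by rw [card_map]; exact ht.card_eq⟩
  intro x hx y hy hxy
  simp only [coe_map, Set.mem_image, mem_coe] at hx hy
  obtain ⟨a, ha, rfl⟩ := hx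
  obtain ⟨b, hb, rfl⟩ := hy
  exact ht.isClique ha hb fun h => hxy (by rw [h])

lemma cliqueCount_eq {V : Type} [Fintype V] (G : SimpleGraph V) (u : ℕ) :
    cliqueCount G u = {s : Finset V | G.IsNClique u s}.ncard := by
  classical
  unfold cliqueCount
  rw [← Set.ncard_coe_finset]
  congr 1
  ext s
  simp

lemma copyCount_eq {V W : Type} [Fintype V] (G : SimpleGraph V) (H : SimpleGraph W) :
    G.copyCount H = {S : G.Subgraph | Nonempty (H ≃g S.coe)}.ncard := by
  classical
  unfold copyCount
  rw [← Set.ncard_coe_finset]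
  congr 1
  ext s
  simp

/-- the inclusions -/
def inlC (G : SimpleGraph V) (G' : SimpleGraph V') : Copy G (dsum G G') :=
  ⟨⟨Sum.inl, fun h => h⟩, Sum.inl_injective⟩

def inrC (G : SimpleGraph V) (G' : SimpleGraph V') : Copy G' (dsum G G') :=
  ⟨⟨Sum.inr, fun h => h⟩, Sum.inr_injective⟩

lemma map_inj {U U' : Type} {A : SimpleGraph U} {B : SimpleGraph U'} (f : Copy A B) :
    Function.Injective (Subgraph.map f.toHom) := by
  intro S S' h
  ext x y
  · have h1 := congrArg Subgraph.verts h
    simp only [Subgraph.map_verts] at h1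
    rw [f.injective.image_injective h1]
  · have h1 := congrArg (fun T : B.Subgraph => T.Adj (f.toHom x) (f.toHom y)) h
    simp only [Subgraph.map_adj, Relation.map_apply, f.injective.eq_iff] at h1
    simpa using h1

end SumGAux

open SumGAux in
theorem adm_dsum {u Δ ω : ℕ} (hu : 1 ≤ u) {V V' : Type} {G : SimpleGraph V} {G' : SimpleGraph V'}
    (hG : Adm u Δ ω G) (hG' : Adm u Δ ω G') : Adm u Δ ω (dsum G G') := by
  classical
  refine ⟨?_, ?_⟩
  · rw [free_split_iff]
    intro T hT C hC
    have h1 := (free_split_iff _ _ _).1 hG.1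
    have h2 := (free_split_iff _ _ _).1 hG'.1
    rcases clique_cases hu hT with ⟨hc, he⟩ | ⟨hc, he⟩
    · obtain ⟨w, hw⟩ : T.toLeft.Nonempty := card_pos.1 (by rw [hc.card_eq]; omega)
      have key : C = C.toLeft.map Function.Embedding.inl := by
        apply eq_left
        intro b hb
        exact adj_rl (hC _ hb _ (mem_toLeft.1 hw))
      rw [key, card_map]
      exact h1 _ hc _ fun x hx v hv => hC _ (mem_toLeft.1 hx) _ (mem_toLeft.1 hv)
    · obtain ⟨w, hw⟩ : T.toRight.Nonempty := card_pos.1 (by rw [hc.card_eq]; omega)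
      have key : C = C.toRight.map Function.Embedding.inr := by
        apply eq_right
        intro b hb
        exact adj_lr (hC _ hb _ (mem_toRight.1 hw))
      rw [key, card_map]
      exact h2 _ hc _ fun x hx v hv => hC _ (mem_toRight.1 hx) _ (mem_toRight.1 hv)
  · intro s hs
    rcases clique_cases (by omega) hs with ⟨hc, -⟩ | ⟨hc, -⟩
    · exact hG.2 _ hc
    · exact hG'.2 _ hc

open SumGAux in
theorem cliqueCount_dsum {u : ℕ} (hu : 1 ≤ u) {V V' : Type} [Fintype V] [Fintype V'] (G : SimpleGraph V)
    (G' : SimpleGraph V') : cliqueCount (dsum G G') u = cliqueCount G u + cliqueCount G' u := by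
  classical
  rw [cliqueCount_eq, cliqueCount_eq, cliqueCount_eq]
  have h1 : {s : Finset (V ⊕ V') | (dsum G G').IsNClique u s} =
      (fun t : Finset V => t.map (Function.Embedding.inl : V ↪ V ⊕ V')) '' {s | G.IsNClique u s} ∪
      (fun t : Finset V' => t.map (Function.Embedding.inr : V' ↪ V ⊕ V')) '' {s | G'.IsNClique u s} := by
    ext s
    constructor
    · intro hs
      rcases clique_cases hu hs with ⟨hc, he⟩ | ⟨hc, he⟩
      · exact Or.inl ⟨_, hc, he.symm⟩
      · exact Or.inr ⟨_, hc, he.symm⟩
    · rintro (⟨t, ht, rfl⟩ | ⟨t, ht, rfl⟩)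
      · exact map_inl ht
      · exact map_inr ht
  rw [h1, Set.ncard_union_eq, Set.ncard_image_of_injective _ (Finset.map_injective _),
    Set.ncard_image_of_injective _ (Finset.map_injective _)]
  · rw [Set.disjoint_left]
    rintro _ ⟨t, ht, rfl⟩ ⟨t', ht', h⟩
    have ht0 : G.IsNClique u t := ht
    obtain ⟨w, hw⟩ : t.Nonempty := card_pos.1 (by rw [ht0.card_eq]; omega)
    have h2 : Sum.inl w ∈ t.map (Function.Embedding.inl : V ↪ V ⊕ V') := by simpa using hw
    simp only at h
    rw [← h] at h2
    simp at h2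

open SumGAux in
theorem copyCount_dsum {V V' W : Type} [Fintype V] [Fintype V'] [Fintype W] [Nonempty W] (G : SimpleGraph V)
    (G' : SimpleGraph V') (H : SimpleGraph W) :
    G.copyCount H + G'.copyCount H ≤ (dsum G G').copyCount H := by
  classical
  rw [copyCount_eq, copyCount_eq, copyCount_eq,
    ← Set.ncard_image_of_injective {S : G.Subgraph | Nonempty (H ≃g S.coe)} (map_inj (inlC G G')),
    ← Set.ncard_image_of_injective {S : G'.Subgraph | Nonempty (H ≃g S.coe)} (map_inj (inrC G G')),
    ← Set.ncard_union_eq]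
  · refine Set.ncard_le_ncard ?_ (Set.toFinite _)
    rintro _ (⟨S, ⟨e⟩, rfl⟩ | ⟨S, ⟨e⟩, rfl⟩)
    · exact ⟨e.trans ((inlC G G').isoSubgraphMap S)⟩
    · exact ⟨e.trans ((inrC G G').isoSubgraphMap S)⟩
  · rw [Set.disjoint_left]
    rintro _ ⟨S, ⟨e⟩, rfl⟩ ⟨S', -, h⟩
    obtain ⟨w⟩ := ‹Nonempty W›
    have h1 : Sum.inl (e w : V) ∈ (Subgraph.map (inlC G G').toHom S).verts := ⟨_, (e w).2, rfl⟩
    rw [← h] at h1
    obtain ⟨x, -, hx⟩ := h1
    exact Sum.inr_ne_inl hx

end Pb736
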